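import Pool.Agent.R71.EG.Defs

/-!
Statements of the pieces of the proof (problem MP_3d6d95_lc).  Each piece is a file
`Pool/Agent/R71/EG/<Piece>.lean` proving `theorem <piece> : S_<Piece>` (hypotheses of the form
`(h : S_Other)` are allowed where indicated).
-/

namespace EG71

open SimpleGraph

/-! ### SDR -/

/-- T1 -/
def S_SDR : Prop :=
  ∀ (I : Type) (Q : Type) (_ : Cardinal.mk I ≤ Cardinal.continuum) (f : I → (ℕ → Bool) → Q),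
    (∀ i, Function.Injective (f i)) →
    ∃ c : I → (ℕ → Bool), ∀ i j, i ≠ j → f i (c i) ≠ f j (c j)

def S_CARD : Prop :=
  Cardinal.mk ((Hist → Sym2 ℕ) ⊕ (Hist → Sym2 ℕ → Bool)) ≤ Cardinal.continuum

/-! ### Graph part -/

def S_MONO : Prop :=
  ∀ (B : Set (SimpleGraph ℕ)) (X Y : SimpleGraph ℕ), X ≤ Y → X ∈ SB B → Y ∈ SB B

def S_ISO : Prop :=
  ∀ (B : Set (SimpleGraph ℕ)), (∀ X Y, X ∈ B → Eqv X Y → Y ∈ B) →
    ∀ (X Y : SimpleGraph ℕ), Nonempty (X ≃g Y) → X ∈ SB B → Y ∈ SB B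

/-- adding an edge inside a component does not matter -/
def S_INNER : Prop :=
  ∀ (B : Set (SimpleGraph ℕ)) (X : SimpleGraph ℕ) (u v : ℕ), X.Reachable u v →
    X ⊔ edge u v ∈ SB B → X ∈ SB B

def S_CLOSE : Prop :=
  ∀ (B : Set (SimpleGraph ℕ)) (X : SimpleGraph ℕ) (u v : ℕ), X ∉ SB B →
    X ⊔ edge u v ∈ SB B → ∃ H ∈ B, L H ∧ SubF H X ∧ SubF X H

def S_SMALL : Prop :=
  ∀ (B : Set (SimpleGraph ℕ)) (X : SimpleGraph ℕ), Small X → X ∉ SB B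

def S_RIGID : Prop :=
  ∀ (B : Set (SimpleGraph ℕ)) (X : SimpleGraph ℕ), L X → X ∉ SB B

def S_EQV : Prop := Equivalence Eqv

def S_DECA : Prop :=
  ∀ (G G' : SimpleGraph ℕ) (z z' : ℕ → Bool), (∃ H, L H ∧ SubF H G ∧ SubF G H) →
    CodeA G z → CodeA G' z' → Eqv G G' → ∃ N, ∀ m ≥ N, z m = z' m

def S_DECB : Prop :=
  ∀ (G G' : SimpleGraph ℕ) (z z' : ℕ → Bool), 
    CodeB G z → CodeB G' z' → Eqv G G' → ∃ N, ∀ m ≥ N, z m = z' m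

/-! ### Runs -/

/-- limit of a chain of histories -/
def S_LIM : Prop :=
  ∀ (H : ℕ → Hist), (∀ k, H k <+: H (k + 1)) → (∀ k, (H k).length < (H (k + 1)).length) →
    ∃ h : ℕ → Mv, (∀ k, pre h (H k).length = H k) ∧
      (∀ a b, (greenR h).Adj a b ↔ ∃ k, (gr (H k)).Adj a b) ∧
      (∀ a b, (whiteR h).Adj a b ↔ a ≠ b ∧ ∀ k, s(a, b) ∉ ask (H k)) ∧
      (∀ σ, (∀ k, ConsS σ (H k)) → ConsSR σ h) ∧
      (∀ τ, (∀ k, ConsH τ (H k)) → ConsHR τ h) ∧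
      ((∀ k, LegalH (H k)) → LegalRun h)

/-! ### Against Hider's strategies -/

def S_NONTIGHT : Prop :=
  ∀ (τ : Hist → Sym2 ℕ → Bool) (H : Hist) (u v : ℕ), LegalH H → ConsH τ H → u ≠ v →
    (gr H).Reachable u v → s(u, v) ∉ ask H →
    ∃ h, LegalRun h ∧ ConsHR τ h ∧ ∀ B, SeekerWinRun (SB B) h

/-- asking all pairs between `n` and the component `C` of `c`, the pair `{n, u}` last. -/
def S_ASKCOMP : Prop :=
  ∀ (τ : Hist → Sym2 ℕ → Bool), TightStrat τ → ∀ (H : Hist), LegalH H → ConsH τ H →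
    ∀ (n u : ℕ), ¬ (gr H).Reachable n u → (∀ w, (gr H).Reachable u w → s(n, w) ∉ ask H) →
    ∃ H', H <+: H' ∧ H.length < H'.length ∧ LegalH H' ∧ ConsH τ H' ∧
      ask H' = ask H ∪ {e | ∃ w, (gr H).Reachable u w ∧ e = s(n, w)} ∧
      (gr H' = gr H ∨ gr H' = gr H ⊔ edge n u)

/-- choice of the last pair: both parities of the number of leaves are possible. -/
def S_PARITY : Prop :=
  ∀ (G : SimpleGraph ℕ) (n c : ℕ), G.IsAcyclic → (comp G n).Finite → (comp G c).Finite →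
    ¬ G.Reachable n c → 3 ≤ (comp G c).ncard →
    ∃ u₁ u₂, G.Reachable c u₁ ∧ G.Reachable c u₂ ∧
      (Even (leafs (G ⊔ edge n u₁) n).ncard ↔ ¬ Even (leafs (G ⊔ edge n u₂) n).ncard)

/-- one stage: processing the vertex `n ≥ 2` -/
def S_STAGEA : Prop :=
  ∀ (τ : Hist → Sym2 ℕ → Bool), TightStrat τ → ∀ (z : ℕ → Bool) (n : ℕ), 2 ≤ n →
    ∀ (H : Hist), LegalH H → ConsH τ H → ask H = {e | ∃ a b, a < b ∧ b < n ∧ e = s(a, b) ∧ 1 < b} →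
    (gr H).IsAcyclic → CodeA (gr H) z →
    ∃ H', H <+: H' ∧ H.length < H'.length ∧ LegalH H' ∧ ConsH τ H' ∧
      ask H' = {e | ∃ a b, a < b ∧ b < n + 1 ∧ e = s(a, b) ∧ 1 < b} ∧
      (gr H').IsAcyclic ∧ CodeA (gr H') z

def S_PARTA : Prop :=
  ∀ (τ : Hist → Sym2 ℕ → Bool), TightStrat τ → ∀ z : ℕ → Bool,
    ∃ h, LegalRun h ∧ ConsHR τ h ∧ whiteR h = edge 0 1 ∧ CodeA (greenR h) z

/-! ### Against Seeker's strategies -/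

/-- the red continuation asks almost all pairs at a given finite set -/
def S_REDC : Prop :=
  ∀ (σ : Hist → Sym2 ℕ), NS σ → ∀ (H : Hist), ConsS σ H → ∀ C : Set ℕ, C.Finite →
    ∃ Y : Set ℕ, Y.Finite ∧ ∀ y ∉ Y, ∃ k, ∀ c ∈ C, s(c, y) ∈ ask (red σ H k)

/-- steps preserve the invariants -/
def S_STEP : Prop :=
  ∀ (σ : Hist → Sym2 ℕ), NS σ → ∀ (F : Set ℕ) (H H' : Hist), Inv σ H → Ext σ F H H' →
    (∀ a ∈ F, ∀ b, (gr H).Adj a b → b ∈ F) →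
    Inv σ H' ∧ H <+: H' ∧ gr H ≤ gr H' ∧ (∀ a ∈ F, ∀ b, (gr H').Adj a b ↔ (gr H).Adj a b)

/-- growing the component of `v` by one fresh vertex -/
def S_GROW1 : Prop :=
  ∀ (σ : Hist → Sym2 ℕ), NS σ → ∀ (F : Set ℕ) (H : Hist), F.Finite → Inv σ H →
    ∀ v, v ∉ F → (∀ a ∈ F, ∀ b, (gr H).Adj a b → b ∈ F) →
    ∃ Y : Set ℕ, Y.Finite ∧ ∀ y ∉ Y, ∃ H' u, Ext σ F H H' ∧ H.length < H'.length ∧
      (gr H).Reachable v u ∧ (∀ w, ¬ (gr H).Adj y w) ∧ y ≠ v ∧ gr H' = gr H ⊔ edge u y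

/-- growing the component of `v` to the size `N` -/
def S_GROW : Prop :=
  ∀ (σ : Hist → Sym2 ℕ), NS σ → ∀ (F : Set ℕ) (H : Hist), F.Finite → Inv σ H →
    ∀ v, v ∉ F → (∀ a ∈ F, ∀ b, (gr H).Adj a b → b ∈ F) → 
    (∀ a b, (gr H).Adj a b → a ∈ F ∨ (gr H).Reachable v a) →
    ∀ N, (comp (gr H) v).ncard ≤ N →
    ∃ H', Ext σ F H H' ∧ (comp (gr H') v).ncard = N ∧
    (∀ a b, (gr H').Adj a b → a ∈ F ∨ (gr H').Reachable v a)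

/-- creation of a fat component outside `F` -/
def S_CLUSTER : Prop :=
  ∀ (σ : Hist → Sym2 ℕ), NS σ → ∀ (F : Set ℕ) (H : Hist), F.Finite → Inv σ H →
    (∀ a b, (gr H).Adj a b → a ∈ F) →
    ∃ H' v, Ext σ F H H' ∧ H.length < H'.length ∧ v ∉ F ∧ Fat (gr H') v ∧ (comp (gr H') v).ncard ≤ 8

/-- closing the component of `v` at the size `2 ^ a` -/
def S_CLOSEONE : Prop :=
  ∀ (σ : Hist → Sym2 ℕ), NS σ → ∀ (H : Hist) (F E : Set ℕ), St σ H F E →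
    ∀ v a, v ∉ F → a ∉ E → (comp (gr H) v).ncard ≤ 2 ^ a →
    ∃ H' F', Ext σ F H H' ∧ F ⊆ F' ∧ v ∈ F' ∧ St σ H' F' (insert a E) ∧
      (comp (gr H') v).ncard = 2 ^ a ∧
      (∀ w b, w ∉ F' → (gr H').Adj w b → (w ∉ F ∧ (gr H).Adj w b ∧ ¬ (gr H).Reachable v w))

/-- stage `m` against `σ` -/
def S_STAGEB : Prop :=
  ∀ (σ : Hist → Sym2 ℕ), NS σ → ∀ (x : ℕ → Bool) (m : ℕ), 1 ≤ m →
    ∀ (H : Hist) (F E : Set ℕ), St σ H F E → E.Finite → (∀ a b, (gr H).Adj a b → a ∈ F) →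
    (∀ a ∈ E, a % 4 = 3 ∨ (a < 4 * m ∧ (a % 4 = 0 ∨ (a % 4 = 1 ∧ x (a / 4) = true)))) →
    ∃ H' F' E', Ext σ F H H' ∧ H.length < H'.length ∧ F ⊆ F' ∧ m - 1 ∈ F' ∧ St σ H' F' E' ∧
      E'.Finite ∧ (∀ a b, (gr H').Adj a b → a ∈ F') ∧
      (∀ a ∈ E', a % 4 = 3 ∨
        (a < 4 * (m + 1) ∧ (a % 4 = 0 ∨ (a % 4 = 1 ∧ x (a / 4) = true)))) ∧
      (∃ v ∈ F', (comp (gr H') v).ncard = 2 ^ (4 * m) ∧ Fat (gr H') v) ∧
      (x m = true → ∃ v ∈ F', (comp (gr H') v).ncard = 2 ^ (4 * m + 1))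

def S_PARTB : Prop :=
  ∀ (σ : Hist → Sym2 ℕ), NS σ → ∀ x : ℕ → Bool,
    ∃ h, LegalRun h ∧ ConsSR σ h ∧ 
      (∀ u v, u ≠ v → (greenR h).Reachable u v → ¬ (whiteR h).Adj u v) ∧
      L (greenR h) ∧ CodeB (greenR h) x

/-! ### The result -/

def S_FINAL : Prop :=
  ∃ S : Set (SimpleGraph ℕ), 
    (∀ X Y : SimpleGraph ℕ, X ≤ Y → X ∈ S → Y ∈ S) ∧
    (∀ X Y : SimpleGraph ℕ, Nonempty (X ≃g Y) → X ∈ S → Y ∈ S) ∧
    (¬ ∃ σ : Hist → Sym2 ℕ, ∀ h, ConsSR σ h → LegalRun h ∧ SeekerWinRun S h) ∧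
    (¬ ∃ τ : Hist → Sym2 ℕ → Bool, ∀ h, LegalRun h → ConsHR τ h → ¬ SeekerWinRun S h)

end EG71
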