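import Pool.Agent.R71.EG.Basic
import Pool.Agent.R71.EG.Stms

namespace EG71

open SimpleGraph

theorem askcomp : S_ASKCOMP := by
  classical
  intro τ hτ H hL hC n u hnu hfresh
  have hfin : (comp (gr H) u).Finite := comp_gr_finite H u
  have hn : ∀ w, (gr H).Reachable u w → n ≠ w := by
    rintro w hw rfl
    exact hnu hw.symm
  have key : ∀ S : Finset ℕ, (∀ w ∈ S, (gr H).Reachable u w ∧ w ≠ u) →
      ∃ H', H <+: H' ∧ LegalH H' ∧ ConsH τ H' ∧
        ask H' = ask H ∪ {e | ∃ w ∈ S, e = s(n, w)} ∧ gr H' = gr H := by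
    intro S
    induction S using Finset.induction_on with
    | empty =>
      intro _
      refine ⟨H, List.prefix_refl _, hL, hC, ?_, rfl⟩
      ext e; simp
    | insert w S hw ih =>
      intro hS
      obtain ⟨H₁, h1, h2, h3, h4, h5⟩ := ih fun w' hw' => hS w' (Finset.mem_insert_of_mem hw')
      have hw1 := hS w (Finset.mem_insert_self _ _)
      have hnw := hn w hw1.1
      have hns : s(n, w) ∉ ask H₁ := by
        rw [h4]
        rintro (h | ⟨w', hw', h⟩)
        · exact hfresh w hw1.1 h
        · rw [Sym2.eq_iff] at h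
          rcases h with ⟨-, h⟩ | ⟨h, h'⟩
          · exact hw (h ▸ hw')
          · exact hnw h'.symm
      have hleg := legalH_snoc h2 (τ H₁ s(n, w)) (e := s(n, w)) (by simpa using hnw) hns
      have hcon := consH_snoc h3 s(n, w)
      have hask : ask (H₁ ++ [(s(n, w), τ H₁ s(n, w))]) =
          ask H ∪ {e | ∃ w' ∈ insert w S, e = s(n, w')} := by
        rw [ask_snoc, h4]
        ext e
        simp only [Set.mem_insert_iff, Set.mem_union, Set.mem_ofPred_eq, Finset.mem_insert]
        constructor
        · rintro (rfl | h | ⟨w', hw', rfl⟩)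
          · exact Or.inr ⟨w, Or.inl rfl, rfl⟩
          · exact Or.inl h
          · exact Or.inr ⟨w', Or.inr hw', rfl⟩
        · rintro (h | ⟨w', rfl | hw', rfl⟩)
          · exact Or.inr (Or.inl h)
          · exact Or.inl rfl
          · exact Or.inr (Or.inr ⟨w', hw', rfl⟩)
      refine ⟨H₁ ++ [(s(n, w), τ H₁ s(n, w))], h1.trans (List.prefix_append _ _), hleg, hcon,
        hask, ?_⟩
      cases hb : τ H₁ s(n, w) with
      | false => rw [gr_red, h5]
      | true =>
        exfalso
        have ht := hτ _ hleg hcon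
        rw [hb] at ht
        have hr : (gr (H₁ ++ [(s(n, w), true)])).Reachable n u := by
          rw [gr_green, h5]
          exact (reach_edge n w).trans ((hw1.1.symm).mono le_sup_left)
        have h6 := ht n u (hn u (Reachable.refl _)) hr
        rw [hb] at hask
        rw [hask] at h6
        rcases h6 with h6 | ⟨w', hw', h6⟩
        · exact hfresh u (Reachable.refl _) h6
        · rw [Sym2.eq_iff] at h6
          rcases h6 with ⟨-, h6⟩ | ⟨h6, h7⟩
          · exact (hS w' hw').2 h6.symm
          · exact hn u (Reachable.refl _) h7.symm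
  obtain ⟨H₁, h1, h2, h3, h4, h5⟩ := key (hfin.toFinset.erase u) (by
    intro w hw
    rw [Finset.mem_erase, Set.Finite.mem_toFinset] at hw
    exact ⟨hw.2, hw.1⟩)
  have hnun := hn u (Reachable.refl _)
  have hns : s(n, u) ∉ ask H₁ := by
    rw [h4]
    rintro (h | ⟨w', hw', h⟩)
    · exact hfresh u (Reachable.refl _) h
    · rw [Finset.mem_erase] at hw'
      rw [Sym2.eq_iff] at h
      rcases h with ⟨-, h⟩ | ⟨h, h'⟩
      · exact hw'.1 h.symm
      · exact hnun h'.symm
  have hleg := legalH_snoc h2 (τ H₁ s(n, u)) (e := s(n, u)) (by simpa using hnun) hns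
  refine ⟨H₁ ++ [(s(n, u), τ H₁ s(n, u))], h1.trans (List.prefix_append _ _), ?_, hleg,
    consH_snoc h3 s(n, u), ?_, ?_⟩
  · rw [List.length_append]
    have := h1.length_le
    simp only [List.length_cons, List.length_nil]
    omega
  · rw [ask_snoc, h4]
    ext e
    simp only [Set.mem_insert_iff, Set.mem_union, Set.mem_ofPred_eq, Finset.mem_erase,
      Set.Finite.mem_toFinset, mem_comp]
    constructor
    · rintro (rfl | h | ⟨w', hw', rfl⟩)
      · exact Or.inr ⟨u, Reachable.refl _, rfl⟩
      · exact Or.inl h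
      · exact Or.inr ⟨w', hw'.2, rfl⟩
    · rintro (h | ⟨w', hw', rfl⟩)
      · exact Or.inr (Or.inl h)
      · by_cases hwu : w' = u
        · subst hwu; exact Or.inl rfl
        · exact Or.inr (Or.inr ⟨w', ⟨hwu, hw'⟩, rfl⟩)
  · cases hb : τ H₁ s(n, u) with
    | false => left; rw [gr_red, h5]
    | true => right; rw [gr_green, h5]

end EG71
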