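import Pool.Agent.R71.EG.Basic
import Pool.Agent.R71.EG.Stms

/-!
Closing one component (problem MP_3d6d95_lc).
-/

namespace EG71

open SimpleGraph

theorem closeOne (h1 : S_GROW) (h2 : S_STEP) : S_CLOSEONE := by
  intro σ hσ H F E hSt v a hv ha hcard
  set F2 : Set ℕ := F ∪ {w | (∃ b, (gr H).Adj w b) ∧ ¬ (gr H).Reachable v w} with hF2
  have hFF2 : F ⊆ F2 := Set.subset_union_left
  have hF2fin : F2.Finite :=
    hSt.fin.union ((gr_supp_finite H).subset fun w hw => hw.1)
  have hvF2 : v ∉ F2 := by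
    rintro (h | h)
    · exact hv h
    · exact h.2 (Reachable.refl v)
  have hcl2 : ∀ x ∈ F2, ∀ b, (gr H).Adj x b → b ∈ F2 := by
    rintro x (hx | hx) b hxb
    · exact Or.inl (hSt.closed x hx b hxb)
    · refine Or.inr ⟨⟨x, hxb.symm⟩, ?_⟩
      intro hr
      exact hx.2 (hr.trans hxb.symm.reachable)
  have hadj : ∀ x b, (gr H).Adj x b → x ∈ F2 ∨ (gr H).Reachable v x := by
    intro x b hxb
    by_cases hr : (gr H).Reachable v x
    · exact Or.inr hr
    · exact Or.inl (Or.inr ⟨⟨b, hxb⟩, hr⟩)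
  obtain ⟨H', hext, hN, hadj'⟩ := h1 σ hσ F2 H hF2fin hSt.inv v hvF2 hcl2 hadj (2 ^ a) hcard
  obtain ⟨g1, g2, g3, g4⟩ := h2 σ hσ F2 H H' hSt.inv hext hcl2
  have hcompF : ∀ x ∈ F, comp (gr H') x = comp (gr H) x := by
    intro x hx
    refine comp_agree (X := gr H) (Y := gr H') ?_
    intro y hy b
    have hyF : y ∈ F := closed_reachable hSt.closed hx hy
    exact (g4 y (hFF2 hyF) b).symm
  have hcompv : ∀ x ∈ comp (gr H') v, (comp (gr H') x).ncard = 2 ^ a := by
    intro x hx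
    rw [← comp_eq_of_reachable (show (gr H').Reachable v x from hx), hN]
  have hneq : ∀ x ∈ F, (comp (gr H') x).ncard ≠ 2 ^ a := by
    intro x hx heq
    obtain ⟨a', ha', hpow⟩ := hSt.pow x hx
    rw [hcompF x hx, hpow] at heq
    have := Nat.pow_right_injective (le_refl 2) heq
    exact ha (this ▸ ha')
  refine ⟨H', F ∪ comp (gr H') v, Ext.mono hFF2 hext, Set.subset_union_left,
    Or.inr (self_mem_comp _ _), ⟨g1, hSt.fin.union (comp_gr_finite H' v), ?_, ?_, ?_⟩, hN, ?_⟩
  · rintro x (hx | hx) b hxb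
    · exact Or.inl (hSt.closed x hx b ((g4 x (hFF2 hx) b).1 hxb))
    · exact Or.inr (Reachable.trans hx hxb.reachable)
  · rintro x (hx | hx)
    · obtain ⟨a', ha', hpow⟩ := hSt.pow x hx
      exact ⟨a', Or.inr ha', by rw [hcompF x hx, hpow]⟩
    · exact ⟨a, Or.inl rfl, hcompv x hx⟩
  · rintro x (hx | hx) y (hy | hy) heq
    · rw [hcompF x hx, hcompF y hy] at heq
      exact (hSt.dist x hx y hy heq).mono g3
    · exact absurd (heq.trans (hcompv y hy)) (hneq x hx)
    · exact absurd (heq.symm.trans (hcompv x hx)) (hneq y hy)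
    · exact Reachable.trans (Reachable.symm hx) hy
  · intro w b hw hwb
    have hwF : w ∉ F := fun h => hw (Or.inl h)
    have hwr : ¬ (gr H').Reachable v w := fun h => hw (Or.inr h)
    rcases hadj' w b hwb with h3 | h3
    · rcases h3 with h4 | h4
      · exact absurd h4 hwF
      · exact ⟨hwF, (g4 w (Or.inr h4) b).1 hwb, h4.2⟩
    · exact absurd h3 hwr

end EG71
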