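import Pool.Agent.R71.EG.Basic
import Pool.Agent.R71.EG.Stms

/-!
Piece CLUSTER (helper563): creation of a fat component against Seeker's strategy.
-/

namespace EG71

open SimpleGraph

/-! ### Paths in components of size at least three -/

theorem exists_path3 {G : SimpleGraph ℕ} {v : ℕ} (h : 3 ≤ (comp G v).ncard) :
    ∃ a b c, a ≠ b ∧ b ≠ c ∧ a ≠ c ∧ G.Adj a b ∧ G.Adj b c ∧ G.Reachable v a ∧
      G.Reachable v b ∧ G.Reachable v c := by
  by_contra hc
  have key : ∀ a b c, a ≠ c → G.Adj a b → G.Adj b c → ¬ G.Reachable v b := by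
    intro a b c hac hab hbc hvb
    exact hc ⟨a, b, c, hab.ne, hbc.ne, hac, hab, hbc, hvb.trans hab.symm.reachable, hvb,
      hvb.trans hbc.reachable⟩
  have h1 : ∃ w, w ≠ v ∧ G.Reachable v w := by
    by_contra h2
    push Not at h2
    have : comp G v ⊆ {v} := by
      intro w hw
      by_contra hwv
      exact h2 w hwv hw
    have h3 := Set.ncard_le_ncard this (Set.finite_singleton v)
    rw [Set.ncard_singleton] at h3
    omega
  obtain ⟨w, hwv, hw⟩ := h1
  obtain ⟨x, hx⟩ := nonisolated_of_reachable hw.symm hwv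
  have hsub : comp G v ⊆ {v, x} := by
    intro y hy
    refine closed_reachable (F := {v, x}) ?_ (Or.inl rfl) hy
    intro a ha b hab
    rcases ha with rfl | ha
    · by_contra hb
      simp only [Set.mem_insert_iff, Set.mem_singleton_iff, not_or] at hb
      exact key b a x hb.2 hab.symm hx (Reachable.refl _)
    · rw [Set.mem_singleton_iff] at ha
      subst ha
      by_contra hb
      simp only [Set.mem_insert_iff, Set.mem_singleton_iff, not_or] at hb
      exact key v a b (Ne.symm hb.1) hx hab hx.reachable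
  have h3 := Set.ncard_le_ncard hsub (Set.toFinite _)
  have h4 := Set.ncard_insert_le v {x}
  rw [Set.ncard_singleton] at h4
  omega

theorem fat_merge {G : SimpleGraph ℕ} {u v a b : ℕ} (hu3 : 3 ≤ (comp G u).ncard)
    (hv3 : 3 ≤ (comp G v).ncard) (hn : ¬ G.Reachable u v) (ha : G.Reachable u a)
    (hb : G.Reachable v b) : Fat (G ⊔ edge a b) u := by
  obtain ⟨p1, p2, p3, h12, h23, h13, a12, a23, r1, r2, r3⟩ := exists_path3 hu3
  obtain ⟨q1, q2, q3, k12, k23, k13, b12, b23, s1, s2, s3⟩ := exists_path3 hv3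
  have hle : G ≤ G ⊔ edge a b := le_sup_left
  have hd : ∀ {x y : ℕ}, G.Reachable u x → G.Reachable v y → x ≠ y := by
    rintro x y hx hy rfl
    exact hn (hx.trans hy.symm)
  have huv : (G ⊔ edge a b).Reachable u v :=
    ((ha.mono hle).trans (reach_edge a b)).trans (hb.symm.mono hle)
  refine ⟨p1, p2, p3, q1, q2, q3, ?_, hle a12, hle a23, hle b12, hle b23, r2.mono hle,
    huv.trans (s2.mono hle)⟩
  simp only [List.nodup_cons, List.mem_cons, List.not_mem_nil, or_false, not_or,
    not_false_eq_true, List.nodup_nil, and_true]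
  exact ⟨⟨h12, h13, hd r1 s1, hd r1 s2, hd r1 s3⟩, ⟨h23, hd r2 s1, hd r2 s2, hd r2 s3⟩,
    ⟨hd r3 s1, hd r3 s2, hd r3 s3⟩, ⟨k12, k13⟩, k23⟩

/-! ### The setting -/

/-- the goal of the piece -/
def FatExt (σ : Hist → Sym2 ℕ) (F : Set ℕ) (H0 : Hist) : Prop :=
  ∃ H' v, Ext σ F H0 H' ∧ H0.length < H'.length ∧ v ∉ F ∧ Fat (gr H') v ∧
    (comp (gr H') v).ncard ≤ 8

/-- some pair between the components of `u` and `v` has not been asked -/
def Alive (H : Hist) (u v : ℕ) : Prop :=
  ∃ a b, (gr H).Reachable u a ∧ (gr H).Reachable v b ∧ s(a, b) ∉ ask H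

theorem Alive.symm {H : Hist} {u v : ℕ} (h : Alive H u v) : Alive H v u := by
  obtain ⟨a, b, ha, hb, hab⟩ := h
  exact ⟨b, a, hb, ha, by rwa [Sym2.eq_swap]⟩

/-- extension of `H0` all whose components outside `F` have at most four vertices -/
structure Nice (σ : Hist → Sym2 ℕ) (F : Set ℕ) (H0 H : Hist) : Prop where
  ext : Ext σ F H0 H
  sz : ∀ v, v ∉ F → (comp (gr H) v).ncard ≤ 4

section

variable {σ : Hist → Sym2 ℕ} {F : Set ℕ} {H0 : Hist}

theorem closed_ext (h2 : S_STEP) (hσ : NS σ) (hI : Inv σ H0)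
    (hF0 : ∀ a b, (gr H0).Adj a b → a ∈ F) {H : Hist} (hE : Ext σ F H0 H) :
    ∀ a ∈ F, ∀ b, (gr H).Adj a b → b ∈ F := by
  have hc : ∀ a ∈ F, ∀ b, (gr H0).Adj a b → b ∈ F := fun a _ b hab => hF0 b a hab.symm
  obtain ⟨-, -, -, h4⟩ := h2 σ hσ F H0 H hI hE hc
  intro a ha b hab
  exact hF0 b a ((h4 a ha b).1 hab).symm

theorem not_mem_of_reach (h2 : S_STEP) (hσ : NS σ) (hI : Inv σ H0)
    (hF0 : ∀ a b, (gr H0).Adj a b → a ∈ F) {H : Hist} (hE : Ext σ F H0 H) {u a : ℕ}
    (hu : u ∉ F) (h : (gr H).Reachable u a) : a ∉ F := fun ha =>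
  hu (closed_reachable (closed_ext h2 hσ hI hF0 hE) ha h.symm)

theorem inv_ext (h2 : S_STEP) (hσ : NS σ) (hI : Inv σ H0)
    (hF0 : ∀ a b, (gr H0).Adj a b → a ∈ F) {H : Hist} (hE : Ext σ F H0 H) : Inv σ H :=
  (h2 σ hσ F H0 H hI hE (fun a _ b hab => hF0 b a hab.symm)).1

theorem ncard_comp_mono {H K : Hist} (h : H <+: K) (v : ℕ) :
    (comp (gr H) v).ncard ≤ (comp (gr K) v).ncard :=
  Set.ncard_le_ncard (comp_mono (gr_mono h) v) (comp_gr_finite K v)

/-- Seeker cannot ask the last pair between two components of size at least three -/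
theorem no_last (h2 : S_STEP) (hσ : NS σ) (hI : Inv σ H0)
    (hF0 : ∀ a b, (gr H0).Adj a b → a ∈ F) (hno : ¬ FatExt σ F H0) {H : Hist}
    (hE : Ext σ F H0 H) {u v : ℕ} (hu : u ∉ F) (hv : v ∉ F)
    (hu4 : (comp (gr H) u).ncard ≤ 4) (hv4 : (comp (gr H) v).ncard ≤ 4)
    (hu3 : 3 ≤ (comp (gr H) u).ncard) (hv3 : 3 ≤ (comp (gr H) v).ncard)
    (hn : ¬ (gr H).Reachable u v) {a b : ℕ} (ha : (gr H).Reachable u a)
    (hb : (gr H).Reachable v b) (hq : σ H = s(a, b)) :
    ∃ a' b', (gr H).Reachable u a' ∧ (gr H).Reachable v b' ∧ s(a', b') ∉ ask H ∧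
      s(a', b') ≠ s(a, b) := by
  by_contra hc
  push Not at hc
  apply hno
  have hnab : ¬ (gr H).Reachable a b := fun h => hn ((ha.trans h).trans hb.symm)
  have hstep : Step σ F H (H ++ [(s(a, b), true)]) := by
    refine Step.green H a b hq (not_mem_of_reach h2 hσ hI hF0 hE hu ha)
      (not_mem_of_reach h2 hσ hI hF0 hE hv hb) hnab ?_
    intro a' b' ha' hb'
    by_cases h : s(a', b') ∈ ask H
    · exact Or.inl h
    · exact Or.inr (hc a' b' (ha.trans ha') (hb.trans hb') h)
  refine ⟨H ++ [(s(a, b), true)], u, hE.tail hstep, ?_, hu, ?_, ?_⟩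
  · have := hE.pfx.length_le
    rw [List.length_append]
    simp only [List.length_cons, List.length_nil]
    omega
  · rw [gr_green]
    exact fat_merge hu3 hv3 hn ha hb
  · rw [gr_green]
    have hle : gr H ≤ gr H ⊔ edge a b := le_sup_left
    rw [comp_eq_of_reachable (ha.mono hle), comp_sup_edge_left, ← comp_eq_of_reachable ha,
      ← comp_eq_of_reachable hb]
    have := Set.ncard_union_le (comp (gr H) u) (comp (gr H) v)
    omega

theorem alive_step (h2 : S_STEP) (hσ : NS σ) (hI : Inv σ H0)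
    (hF0 : ∀ a b, (gr H0).Adj a b → a ∈ F) (hno : ¬ FatExt σ F H0) {H H' : Hist}
    (hE : Ext σ F H0 H) (hs : Step σ F H H') {u v : ℕ} (hu : u ∉ F) (hv : v ∉ F)
    (hu4 : (comp (gr H) u).ncard ≤ 4) (hv4 : (comp (gr H) v).ncard ≤ 4)
    (hu3 : 3 ≤ (comp (gr H) u).ncard) (hv3 : 3 ≤ (comp (gr H) v).ncard)
    (hn : ¬ (gr H').Reachable u v) (hA : Alive H u v) : Alive H' u v := by
  have hpre : H <+: H' := by cases hs <;> exact List.prefix_append _ _
  have hn0 : ¬ (gr H).Reachable u v := fun h => hn (h.mono (gr_mono hpre))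
  obtain ⟨a, b, ha, hb, hab⟩ := hA
  cases hs with
  | red =>
    by_cases hq : σ H = s(a, b)
    · obtain ⟨a', b', ha', hb', h1, h3⟩ :=
        no_last h2 hσ hI hF0 hno hE hu hv hu4 hv4 hu3 hv3 hn0 ha hb hq
      refine ⟨a', b', by rwa [gr_red], by rwa [gr_red], ?_⟩
      rw [ask_snoc, Set.mem_insert_iff, not_or]
      exact ⟨fun h => h3 (h.trans hq), h1⟩
    · refine ⟨a, b, by rwa [gr_red], by rwa [gr_red], ?_⟩
      rw [ask_snoc, Set.mem_insert_iff, not_or]
      exact ⟨fun h => hq h.symm, hab⟩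
  | green u' y' hq hu' hy' hn' hl =>
    have hle : gr H ≤ gr (H ++ [(s(u', y'), true)]) := gr_mono hpre
    refine ⟨a, b, ha.mono hle, hb.mono hle, ?_⟩
    rw [ask_snoc, Set.mem_insert_iff, not_or]
    refine ⟨fun h => hn ?_, hab⟩
    have hadj : (gr (H ++ [(s(u', y'), true)])).Reachable u' y' := by
      rw [gr_green]; exact reach_edge u' y'
    rcases Sym2.eq_iff.1 h with ⟨rfl, rfl⟩ | ⟨rfl, rfl⟩
    · exact ((ha.mono hle).trans hadj).trans (hb.symm.mono hle)
    · exact ((ha.mono hle).trans hadj.symm).trans (hb.symm.mono hle)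

/-- two components of size three are never merged between nice histories -/
theorem not_reach_of_nice {H H' : Hist} (hpre : H <+: H') {u v : ℕ}
    (hu4 : (comp (gr H') u).ncard ≤ 4) (hu3 : 3 ≤ (comp (gr H) u).ncard)
    (hv3 : 3 ≤ (comp (gr H) v).ncard) (hn : ¬ (gr H).Reachable u v) :
    ¬ (gr H').Reachable u v := by
  intro h
  have h1 : comp (gr H) u ∪ comp (gr H) v ⊆ comp (gr H') u := by
    apply Set.union_subset (comp_mono (gr_mono hpre) u)
    rw [comp_eq_of_reachable h]
    exact comp_mono (gr_mono hpre) v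
  have h3 : Disjoint (comp (gr H) u) (comp (gr H) v) := by
    rw [Set.disjoint_left]
    intro x hx hy
    exact hn (reachable_of_mem_comp hx hy)
  have h4 := Set.ncard_le_ncard h1 (comp_gr_finite H' u)
  rw [Set.ncard_union_eq h3 (comp_gr_finite H u) (comp_gr_finite H v)] at h4
  omega

theorem alive_ext (h2 : S_STEP) (hσ : NS σ) (hI : Inv σ H0)
    (hF0 : ∀ a b, (gr H0).Adj a b → a ∈ F) (hno : ¬ FatExt σ F H0) {H H' : Hist}
    (hE : Ext σ F H0 H) (hs : Ext σ F H H') {u v : ℕ} (hu : u ∉ F) (hv : v ∉ F)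
    (hu3 : 3 ≤ (comp (gr H) u).ncard) (hv3 : 3 ≤ (comp (gr H) v).ncard)
    (hn : ¬ (gr H).Reachable u v) (hA : Alive H u v) :
    (comp (gr H') u).ncard ≤ 4 → (comp (gr H') v).ncard ≤ 4 → Alive H' u v := by
  induction hs with
  | refl => intro _ _; exact hA
  | @tail K K' hK hst ih =>
    intro hu4 hv4
    have hp1 : K <+: K' := by cases hst <;> exact List.prefix_append _ _
    have hp0 : H <+: K := Ext.pfx hK
    have hu4' := (ncard_comp_mono hp1 u).trans hu4
    have hv4' := (ncard_comp_mono hp1 v).trans hv4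
    have hA' := ih hu4' hv4'
    have hEK : Ext σ F H0 K := hE.trans hK
    refine alive_step h2 hσ hI hF0 hno hEK hst hu hv hu4' hv4'
      (hu3.trans (ncard_comp_mono hp0 u)) (hv3.trans (ncard_comp_mono hp0 v)) ?_ hA'
    exact not_reach_of_nice (hp0.trans hp1) hu4 hu3 hv3 hn

/-! ### Creating components of size three -/

theorem make3 (h2 : S_STEP) (h3 : S_GROW1) (hσ : NS σ) (hI : Inv σ H0) (hFf : F.Finite)
    (hF0 : ∀ a b, (gr H0).Adj a b → a ∈ F) {H : Hist} (hN : Nice σ F H0 H) :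
    ∃ H' e, Ext σ F H H' ∧ H.length < H'.length ∧ Nice σ F H0 H' ∧ e ∉ F ∧
      (∀ w, ¬ (gr H).Adj e w) ∧ (comp (gr H') e).ncard = 3 ∧
      (∀ x, (gr H').Reachable e x → ∀ w, ¬ (gr H).Adj x w) ∧
      (∀ x, ¬ (gr H').Reachable e x → comp (gr H') x = comp (gr H) x) := by
  obtain ⟨e, he⟩ := (hFf.union (gr_supp_finite H)).exists_notMem
  rw [Set.mem_union, not_or] at he
  have heF : e ∉ F := he.1
  have heI : ∀ w, ¬ (gr H).Adj e w := fun w hw => he.2 ⟨w, hw⟩
  have hclH := closed_ext h2 hσ hI hF0 hN.ext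
  obtain ⟨Y1, hY1, h1⟩ := h3 σ hσ F H hFf (inv_ext h2 hσ hI hF0 hN.ext) e heF hclH
  obtain ⟨y1, hy1⟩ := (hY1.union hFf).exists_notMem
  rw [Set.mem_union, not_or] at hy1
  obtain ⟨H1, u, hE1, hl1, hu, hy1I, hy1e, hg1⟩ := h1 y1 hy1.1
  have hue : u = e := by
    have : u ∈ comp (gr H) e := hu
    rw [comp_isolated heI] at this
    exact this
  subst hue
  have hE1' : Ext σ F H0 H1 := hN.ext.trans hE1
  obtain ⟨Y2, hY2, k1⟩ := h3 σ hσ F H1 hFf (inv_ext h2 hσ hI hF0 hE1') u heF
    (closed_ext h2 hσ hI hF0 hE1')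
  obtain ⟨y2, hy2⟩ := (hY2.union hFf).exists_notMem
  rw [Set.mem_union, not_or] at hy2
  obtain ⟨H2, w, hE2, hl2, hw, hy2I, hy2e, hg2⟩ := k1 y2 hy2.1
  have hc1 : comp (gr H1) u = {u, y1} := by
    rw [hg1, comp_sup_edge_left, comp_isolated heI, comp_isolated hy1I]
    rfl
  have hc2 : comp (gr H2) u = {u, y1} ∪ {y2} := by
    have hle : gr H1 ≤ gr H2 := gr_mono (Ext.pfx hE2)
    rw [comp_eq_of_reachable (hw.mono hle), hg2, comp_sup_edge_left,
      ← comp_eq_of_reachable hw, hc1, comp_isolated hy2I]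
  have hadj1 : (gr H1).Adj u y1 := by
    rw [hg1, sup_adj, edge_adj]
    exact Or.inr ⟨Or.inl ⟨rfl, rfl⟩, Ne.symm hy1e⟩
  have hy2y1 : y2 ≠ y1 := by
    rintro rfl
    exact hy2I u hadj1.symm
  have hcard : (comp (gr H2) u).ncard = 3 := by
    rw [hc2]
    rw [Set.ncard_union_eq]
    · rw [Set.ncard_pair (Ne.symm hy1e), Set.ncard_singleton]
    · rw [Set.disjoint_singleton_right]
      simp only [Set.mem_insert_iff, Set.mem_singleton_iff, not_or]
      exact ⟨hy2e, hy2y1⟩
  have hle1 : gr H ≤ gr H1 := gr_mono (Ext.pfx hE1)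
  have hle2 : gr H1 ≤ gr H2 := gr_mono (Ext.pfx hE2)
  have hoth : ∀ x, ¬ (gr H2).Reachable u x → comp (gr H2) x = comp (gr H) x := by
    intro x hx
    have hm : ∀ z, z ∈ comp (gr H2) u → ¬ (gr H2).Reachable x z := by
      intro z hz hxz
      exact hx (Reachable.trans hz hxz.symm)
    have e1 : comp (gr H2) x = comp (gr H1) x := by
      rw [hg2]
      apply comp_sup_edge_other
      · intro h
        exact hm w (hw.mono hle2) (h.mono hle2)
      · intro h
        exact hm y2 (by rw [hc2]; exact Or.inr rfl) (h.mono hle2)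
    have e2 : comp (gr H1) x = comp (gr H) x := by
      rw [hg1]
      apply comp_sup_edge_other
      · intro h
        exact hm u (self_mem_comp _ _) ((h.mono hle1).mono hle2)
      · intro h
        exact hm y1 (by rw [hc2]; exact Or.inl (Or.inr rfl)) ((h.mono hle1).mono hle2)
    rw [e1, e2]
  refine ⟨H2, u, hE1.trans hE2, hl1.trans hl2, ⟨hE1'.trans hE2, ?_⟩, heF, heI, hcard, ?_, hoth⟩
  · intro v hv
    by_cases hr : (gr H2).Reachable u v
    · rw [← comp_eq_of_reachable hr, hcard]; omega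
    · rw [hoth v hr]; exact hN.sz v hv
  · intro x hx z hz
    have hx' : x ∈ comp (gr H2) u := hx
    rw [hc2] at hx'
    rcases hx' with (rfl | hx') | hx'
    · exact heI z hz
    · rw [Set.mem_singleton_iff] at hx'; subst hx'; exact hy1I z hz
    · rw [Set.mem_singleton_iff] at hx'; subst hx'; exact hy2I z (hle1 hz)

/-! ### Linking two components of size three -/

/-- the case in which the component of `p` is completed first -/
theorem link_aux (h2 : S_STEP) (hσ : NS σ) (hI : Inv σ H0)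
    (hF0 : ∀ a b, (gr H0).Adj a b → a ∈ F) {H : Hist} (hN : Nice σ F H0 H) {p q n : ℕ}
    (hp : p ∉ F) (hnF : n ∉ F) (hnI : ∀ w, s(n, w) ∉ ask H)
    (hp3 : (comp (gr H) p).ncard = 3) (hq3 : (comp (gr H) q).ncard = 3)
    (hpq : ¬ (gr H).Reachable p q) (j : ℕ)
    (hP : ∀ c, (gr H).Reachable p c → s(c, n) ∈ ask (red σ H (j + 1)))
    {c0 c1 : ℕ} (hc0 : (gr H).Reachable p c0) (hc0' : s(c0, n) ∉ ask (red σ H j))
    (hc1 : (gr H).Reachable q c1) (hc1' : s(c1, n) ∉ ask (red σ H j)) :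
    ∃ H', Ext σ F H H' ∧ H.length < H'.length ∧ Nice σ F H0 H' ∧
      (comp (gr H') p).ncard = 4 ∧ (comp (gr H') q).ncard = 3 ∧ Alive H' p q ∧
      ¬ (gr H').Reachable p q := by
  have hnI' : ∀ w, ¬ (gr H).Adj n w := fun w hw => hnI w (gr_adj_ask hw)
  have hnp : ¬ (gr H).Reachable p n := by
    intro h
    have : p ∈ comp (gr H) n := h.symm
    rw [comp_isolated hnI', Set.mem_singleton_iff] at this
    subst this
    rw [comp_isolated hnI', Set.ncard_singleton] at hp3
    omega
  have hnq : ¬ (gr H).Reachable q n := by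
    intro h
    have : q ∈ comp (gr H) n := h.symm
    rw [comp_isolated hnI', Set.mem_singleton_iff] at this
    subst this
    rw [comp_isolated hnI', Set.ncard_singleton] at hq3
    omega
  have hgr : gr (red σ H j) = gr H := gr_redc σ H j
  have hask : ask (red σ H (j + 1)) = insert (σ (red σ H j)) (ask (red σ H j)) := by
    rw [red, ask_snoc]
  have hq : σ (red σ H j) = s(c0, n) := by
    have := hP c0 hc0
    rw [hask, Set.mem_insert_iff] at this
    rcases this with h | h
    · exact h.symm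
    · exact absurd h hc0'
  have hEj : Ext σ F H (red σ H j) := ext_redc σ F H j
  have hstep : Step σ F (red σ H j) (red σ H j ++ [(s(c0, n), true)]) := by
    refine Step.green _ c0 n hq (not_mem_of_reach h2 hσ hI hF0 hN.ext hp hc0) hnF ?_ ?_
    · rw [hgr]
      exact fun h => hnp (hc0.trans h)
    · intro a b ha hb
      rw [hgr] at ha hb
      have hbn : b = n := by
        have : b ∈ comp (gr H) n := hb
        rw [comp_isolated hnI'] at this
        exact this
      subst hbn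
      have := hP a (hc0.trans ha)
      rw [hask, Set.mem_insert_iff, hq] at this
      exact this.symm
  set H' := red σ H j ++ [(s(c0, n), true)] with hH'
  have hg' : gr H' = gr H ⊔ edge c0 n := by rw [hH', gr_green, hgr]
  have hle : gr H ≤ gr H' := by rw [hg']; exact le_sup_left
  have hcp : comp (gr H') p = comp (gr H) p ∪ {n} := by
    rw [comp_eq_of_reachable (hc0.mono hle), hg', comp_sup_edge_left,
      ← comp_eq_of_reachable hc0, comp_isolated hnI']
  have hcq : comp (gr H') q = comp (gr H) q := by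
    rw [hg']
    apply comp_sup_edge_other
    · intro h
      exact hpq (hc0.trans h.symm)
    · exact hnq
  have hp4 : (comp (gr H') p).ncard = 4 := by
    rw [hcp, Set.ncard_union_eq _ (comp_gr_finite H p) (Set.toFinite _), hp3,
      Set.ncard_singleton]
    rw [Set.disjoint_singleton_right]
    exact hnp
  have hnr : ¬ (gr H').Reachable p q := by
    intro h
    have : q ∈ comp (gr H') p := h
    rw [hcp] at this
    rcases this with h | h
    · exact hpq h
    · rw [Set.mem_singleton_iff] at h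
      subst h
      exact hnq (Reachable.refl _)
  refine ⟨H', hEj.tail hstep, ?_, ⟨(hN.ext.trans hEj).tail hstep, ?_⟩, hp4, by rw [hcq, hq3],
    ?_, hnr⟩
  · rw [hH', List.length_append, length_redc]
    simp only [List.length_cons, List.length_nil]
    omega
  · intro v hv
    by_cases hr : (gr H').Reachable p v
    · rw [← comp_eq_of_reachable hr, hp4]
    · have : comp (gr H') v = comp (gr H) v := by
        rw [hg']
        apply comp_sup_edge_other
        · intro h
          exact hr ((hc0.mono hle).trans (h.symm.mono hle))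
        · intro h
          apply hr
          have h5 : n ∈ comp (gr H') p := by rw [hcp]; exact Or.inr rfl
          exact Reachable.trans h5 (h.symm.mono hle)
      rw [this]
      exact hN.sz v hv
  · have h5 : (gr H').Reachable p n := by
      have : n ∈ comp (gr H') p := by rw [hcp]; exact Or.inr rfl
      exact this
    refine ⟨n, c1, h5, hc1.mono hle, ?_⟩
    rw [hH', ask_snoc, Set.mem_insert_iff, not_or]
    refine ⟨?_, by rwa [Sym2.eq_swap]⟩
    intro h
    rw [Sym2.eq_swap] at h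
    have : c1 = c0 := by
      rcases Sym2.eq_iff.1 h with ⟨h, -⟩ | ⟨h, h'⟩
      · exact h
      · exact h.trans h'
    subst this
    exact hpq (hc0.trans hc1.symm)

theorem link (h1 : S_REDC) (h2 : S_STEP) (hσ : NS σ) (hI : Inv σ H0) (hFf : F.Finite)
    (hF0 : ∀ a b, (gr H0).Adj a b → a ∈ F) {H : Hist} (hN : Nice σ F H0 H) {p q : ℕ}
    (hp : p ∉ F) (hq : q ∉ F)
    (hp3 : (comp (gr H) p).ncard = 3) (hq3 : (comp (gr H) q).ncard = 3)
    (hpq : ¬ (gr H).Reachable p q) :
    ∃ H' r, Ext σ F H H' ∧ H.length < H'.length ∧ Nice σ F H0 H' ∧ (r = p ∨ r = q) ∧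
      (comp (gr H') r).ncard = 3 ∧ 3 ≤ (comp (gr H') p).ncard ∧
      3 ≤ (comp (gr H') q).ncard ∧ Alive H' p q ∧ ¬ (gr H').Reachable p q := by
  classical
  obtain ⟨Y, hY, hYk⟩ := h1 σ hσ H (inv_ext h2 hσ hI hF0 hN.ext).cons
    (comp (gr H) p ∪ comp (gr H) q) ((comp_gr_finite H p).union (comp_gr_finite H q))
  obtain ⟨n, hn⟩ := ((hY.union hFf).union (ask_supp_finite H)).exists_notMem
  rw [Set.mem_union, Set.mem_union, not_or, not_or] at hn
  obtain ⟨⟨hnY, hnF⟩, hnA⟩ := hn
  have hnI : ∀ w, s(n, w) ∉ ask H := fun w hw => hnA ⟨w, hw⟩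
  obtain ⟨k, hk⟩ := hYk n hnY
  let P : ℕ → Prop := fun k => (∀ c, (gr H).Reachable p c → s(c, n) ∈ ask (red σ H k)) ∨
    (∀ c, (gr H).Reachable q c → s(c, n) ∈ ask (red σ H k))
  have hex : ∃ k, P k := ⟨k, Or.inl fun c hc => hk c (Or.inl hc)⟩
  have hspec := Nat.find_spec hex
  have hmin := fun {m : ℕ} => Nat.find_min (m := m) hex
  generalize hk0 : Nat.find hex = k0 at hspec hmin
  cases k0 with
  | zero =>
    exfalso
    rcases hspec with h | h
    · have := h p (Reachable.refl _)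
      rw [Sym2.eq_swap] at this
      exact hnI p this
    · have := h q (Reachable.refl _)
      rw [Sym2.eq_swap] at this
      exact hnI q this
  | succ j =>
    have hj : ¬ P j := hmin (Nat.lt_succ_self j)
    have hj1 : ∃ c0, (gr H).Reachable p c0 ∧ s(c0, n) ∉ ask (red σ H j) := by
      by_contra hc
      push Not at hc
      exact hj (Or.inl hc)
    have hj2 : ∃ c1, (gr H).Reachable q c1 ∧ s(c1, n) ∉ ask (red σ H j) := by
      by_contra hc
      push Not at hc
      exact hj (Or.inr hc)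
    obtain ⟨c0, hc0, hc0'⟩ := hj1
    obtain ⟨c1, hc1, hc1'⟩ := hj2
    rcases hspec with h | h
    · obtain ⟨H', e1, e2, e3, e4, e5, e6, e7⟩ := link_aux h2 hσ hI hF0 hN hp hnF hnI hp3 hq3
        hpq j h hc0 hc0' hc1 hc1'
      exact ⟨H', q, e1, e2, e3, Or.inr rfl, e5, by omega, by omega, e6, e7⟩
    · obtain ⟨H', e1, e2, e3, e4, e5, e6, e7⟩ := link_aux h2 hσ hI hF0 hN hq hnF hnI hq3 hp3
        (fun h => hpq h.symm) j h hc1 hc1' hc0 hc0'
      exact ⟨H', p, e1, e2, e3, Or.inl rfl, e5, by omega, by omega, e6.symm,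
        fun h => e7 h.symm⟩

/-- one step of the chain -/
theorem chain_step (h1 : S_REDC) (h2 : S_STEP) (h3 : S_GROW1) (hσ : NS σ) (hI : Inv σ H0)
    (hFf : F.Finite) (hF0 : ∀ a b, (gr H0).Adj a b → a ∈ F) {H : Hist}
    (hN : Nice σ F H0 H) {r : ℕ} (hr : r ∉ F) (hr3 : (comp (gr H) r).ncard = 3) :
    ∃ H' r' e, Ext σ F H H' ∧ H.length < H'.length ∧ Nice σ F H0 H' ∧ r' ∉ F ∧ e ∉ F ∧
      (r' = r ∨ r' = e) ∧ (comp (gr H') r').ncard = 3 ∧ (∀ w, ¬ (gr H).Adj e w) ∧
      3 ≤ (comp (gr H') r).ncard ∧ 3 ≤ (comp (gr H') e).ncard ∧ Alive H' r e ∧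
      ¬ (gr H').Reachable r e := by
  obtain ⟨H1, e, k1, k2, k3, k4, k5, k6, k7, k8⟩ := make3 h2 h3 hσ hI hFf hF0 hN
  have hnr : ¬ (gr H1).Reachable e r := by
    intro h
    have h9 := k7 r h
    have := comp_isolated h9
    rw [this, Set.ncard_singleton] at hr3
    omega
  have hr3' : (comp (gr H1) r).ncard = 3 := by rw [k8 r hnr, hr3]
  obtain ⟨H2, r', m1, m2, m3, m4, m5, m6, m7, m8, m9⟩ := link h1 h2 hσ hI hFf hF0 k3 hr k4
    hr3' k6 (fun h => hnr h.symm)
  refine ⟨H2, r', e, k1.trans m1, k2.trans m2, m3, ?_, k4, m4, m5, k5, m6, m7, m8, m9⟩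
  rcases m4 with rfl | rfl
  · exact hr
  · exact k4

end

/-! ### The limit -/

theorem fin_of_bdd {S : Set ℕ} {n : ℕ} (h : ∀ t : Finset ℕ, (t : Set ℕ) ⊆ S → t.card ≤ n) :
    S.Finite ∧ S.ncard ≤ n := by
  have hf : S.Finite := by
    by_contra hinf
    obtain ⟨t, ht, hc⟩ := Set.Infinite.exists_subset_card_eq hinf (n + 1)
    have := h t ht
    omega
  refine ⟨hf, ?_⟩
  rw [Set.ncard_eq_toFinset_card _ hf]
  exact h _ (by simp)

theorem cluster (h1 : S_REDC) (h2 : S_STEP) (h3 : S_GROW1) (h4 : S_LIM) : S_CLUSTER := by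
  intro σ hσ F H0 hFf hI hF0
  by_contra hno
  change ¬ FatExt σ F H0 at hno
  have hN0 : Nice σ F H0 H0 := by
    refine ⟨Relation.ReflTransGen.refl, ?_⟩
    intro v hv
    have : comp (gr H0) v = {v} := comp_isolated fun w hw => hv (hF0 v w hw)
    rw [this, Set.ncard_singleton]
    omega
  obtain ⟨Hb, rb, b1, b2, b3, b4, b5, b6, b7, b8⟩ := make3 h2 h3 hσ hI hFf hF0 hN0
  let State := {p : Hist × ℕ // Nice σ F H0 p.1 ∧ p.2 ∉ F ∧ (comp (gr p.1) p.2).ncard = 3}
  have hstep : ∀ s : State, ∃ s' : State, ∃ e, Ext σ F s.1.1 s'.1.1 ∧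
      s.1.1.length < s'.1.1.length ∧ e ∉ F ∧ (s'.1.2 = s.1.2 ∨ s'.1.2 = e) ∧
      (∀ w, ¬ (gr s.1.1).Adj e w) ∧ 3 ≤ (comp (gr s'.1.1) s.1.2).ncard ∧
      3 ≤ (comp (gr s'.1.1) e).ncard ∧ Alive s'.1.1 s.1.2 e ∧
      ¬ (gr s'.1.1).Reachable s.1.2 e := by
    intro s
    obtain ⟨H', r', e, c1, c2, c3, c4, c5, c6, c7, c8, c9, c10, c11, c12⟩ :=
      chain_step h1 h2 h3 hσ hI hFf hF0 s.2.1 s.2.2.1 s.2.2.2
    exact ⟨⟨(H', r'), c3, c4, c7⟩, e, c1, c2, c5, c6, c8, c9, c10, c11, c12⟩
  choose nxt ev hnxt using hstep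
  let S : ℕ → State := fun k => Nat.rec ⟨(Hb, rb), b3, b4, b6⟩ (fun _ s => nxt s) k
  have hS : ∀ k, S (k + 1) = nxt (S k) := fun k => rfl
  let H : ℕ → Hist := fun k => (S k).1.1
  let r : ℕ → ℕ := fun k => (S k).1.2
  let e : ℕ → ℕ := fun k => ev (S k)
  have hExt : ∀ k, Ext σ F (H k) (H (k + 1)) := fun k => (hnxt (S k)).1
  have hlen : ∀ k, (H k).length < (H (k + 1)).length := fun k => (hnxt (S k)).2.1
  have heF : ∀ k, e k ∉ F := fun k => (hnxt (S k)).2.2.1
  have hr' : ∀ k, r (k + 1) = r k ∨ r (k + 1) = e k := fun k => (hnxt (S k)).2.2.2.1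
  have heI : ∀ k w, ¬ (gr (H k)).Adj (e k) w := fun k => (hnxt (S k)).2.2.2.2.1
  have hr3 : ∀ k, 3 ≤ (comp (gr (H (k + 1))) (r k)).ncard := fun k =>
    (hnxt (S k)).2.2.2.2.2.1
  have he3 : ∀ k, 3 ≤ (comp (gr (H (k + 1))) (e k)).ncard := fun k =>
    (hnxt (S k)).2.2.2.2.2.2.1
  have hAl : ∀ k, Alive (H (k + 1)) (r k) (e k) := fun k => (hnxt (S k)).2.2.2.2.2.2.2.1
  have hnr : ∀ k, ¬ (gr (H (k + 1))).Reachable (r k) (e k) := fun k =>
    (hnxt (S k)).2.2.2.2.2.2.2.2
  have hNice : ∀ k, Nice σ F H0 (H k) := fun k => (S k).2.1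
  have hrF : ∀ k, r k ∉ F := fun k => (S k).2.2.1
  have hExt' : ∀ k m, Ext σ F (H k) (H (k + m)) := by
    intro k m
    induction m with
    | zero => exact Relation.ReflTransGen.refl
    | succ m ih => exact ih.trans (hExt (k + m))
  have hExt'' : ∀ {k m}, k ≤ m → Ext σ F (H k) (H m) := by
    intro k m hkm
    obtain ⟨d, rfl⟩ := Nat.exists_eq_add_of_le hkm
    exact hExt' k d
  have hpre : ∀ {k m}, k ≤ m → H k <+: H m := fun hkm => Ext.pfx (hExt'' hkm)
  obtain ⟨h, -, hg, hw, hS1, -, -⟩ := h4 H (fun k => hpre (Nat.le_succ k)) hlen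
  have hcons : ConsSR σ h := hS1 σ fun k => (inv_ext h2 hσ hI hF0 (hNice k).ext).cons
  have hgle : ∀ k, gr (H k) ≤ greenR h := fun k a b hab => (hg a b).2 ⟨k, hab⟩
  -- reachability in the limit
  have hreach : ∀ a b, (greenR h).Reachable a b → ∃ k, (gr (H k)).Reachable a b := by
    rintro a b ⟨p⟩
    induction p with
    | nil => exact ⟨0, Reachable.refl _⟩
    | @cons x y z hadj _ ih =>
      obtain ⟨k, hk⟩ := ih
      obtain ⟨m, hm⟩ := (hg x y).1 hadj
      refine ⟨max k m, ?_⟩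
      exact ((gr_mono (hpre (le_max_right k m))) hm).reachable.trans
        (hk.mono (gr_mono (hpre (le_max_left k m))))
  have hfinsub : ∀ v (t : Finset ℕ), (t : Set ℕ) ⊆ comp (greenR h) v →
      ∃ k, (t : Set ℕ) ⊆ comp (gr (H k)) v := by
    intro v t
    induction t using Finset.induction_on with
    | empty => intro _; exact ⟨0, by simp⟩
    | @insert x t _ ih =>
      intro ht
      rw [Finset.coe_insert] at ht
      obtain ⟨k, hk⟩ := ih (fun y hy => ht (Or.inr hy))
      obtain ⟨m, hm⟩ := hreach v x (ht (Or.inl rfl))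
      refine ⟨max k m, ?_⟩
      rw [Finset.coe_insert]
      intro y hy
      rcases hy with rfl | hy
      · exact hm.mono (gr_mono (hpre (le_max_right k m)))
      · exact comp_mono (gr_mono (hpre (le_max_left k m))) v (hk hy)
  have hout : ∀ v, v ∉ F → (comp (greenR h) v).Finite ∧ (comp (greenR h) v).ncard ≤ 4 := by
    intro v hv
    apply fin_of_bdd
    intro t ht
    obtain ⟨k, hk⟩ := hfinsub v t ht
    have := Set.ncard_le_ncard hk (comp_gr_finite _ _)
    rw [Set.ncard_coe_finset] at this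
    exact this.trans ((hNice k).sz v hv)
  have hin : ∀ v, v ∈ F → comp (greenR h) v ⊆ F := by
    intro v hv w hw'
    obtain ⟨k, hk⟩ := hreach v w hw'
    exact closed_reachable (closed_ext h2 hσ hI hF0 (hNice k).ext) hv hk
  have hsmall : Small (greenR h) := by
    constructor
    · intro v
      by_cases hv : v ∈ F
      · exact hFf.subset (hin v hv)
      · exact (hout v hv).1
    · refine hFf.subset ?_
      intro v hv
      by_contra hvF
      have := (hout v hvF).2
      have h5 : 5 ≤ (comp (greenR h) v).ncard := hv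
      omega
  refine hσ.inf h hcons hsmall ?_
  -- links survive in the limit
  have hU : ∀ k, (greenR h ⊔ whiteR h).Reachable (r k) (e k) := by
    intro k
    have hgU : greenR h ≤ greenR h ⊔ whiteR h := le_sup_left
    by_contra hc
    have hall : ∀ a ∈ comp (greenR h) (r k), ∀ b ∈ comp (greenR h) (e k),
        ∃ j, s(a, b) ∈ ask (H j) := by
      intro a ha b hb
      by_contra hcon
      push Not at hcon
      apply hc
      have hra : (greenR h ⊔ whiteR h).Reachable (r k) a := Reachable.mono hgU ha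
      have hrb : (greenR h ⊔ whiteR h).Reachable b (e k) :=
        (Reachable.mono hgU hb).symm
      by_cases hab : a = b
      · subst hab; exact hra.trans hrb
      · have : (whiteR h).Adj a b := (hw a b).2 ⟨hab, hcon⟩
        have h6 : (greenR h ⊔ whiteR h).Adj a b := Or.inr this
        exact (hra.trans h6.reachable).trans hrb
    have hbound : ∃ J, ∀ a ∈ comp (greenR h) (r k), ∀ b ∈ comp (greenR h) (e k),
        s(a, b) ∈ ask (H J) := by
      have hfin : (comp (greenR h) (r k) ×ˢ comp (greenR h) (e k)).Finite :=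
        (hout _ (hrF k)).1.prod (hout _ (heF k)).1
      have : ∀ T : Finset (ℕ × ℕ),
          (T : Set (ℕ × ℕ)) ⊆ comp (greenR h) (r k) ×ˢ comp (greenR h) (e k) →
          ∃ J, ∀ p ∈ T, s(p.1, p.2) ∈ ask (H J) := by
        intro T
        induction T using Finset.induction_on with
        | empty => intro _; exact ⟨0, by simp⟩
        | @insert x T _ ih =>
          intro hT
          rw [Finset.coe_insert] at hT
          obtain ⟨J, hJ⟩ := ih (fun y hy => hT (Or.inr hy))
          have hx := hT (Or.inl rfl)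
          obtain ⟨j, hj⟩ := hall x.1 hx.1 x.2 hx.2
          refine ⟨max J j, ?_⟩
          intro p hp
          rcases Finset.mem_insert.1 hp with rfl | hp
          · exact ask_mono (hpre (le_max_right J j)) hj
          · exact ask_mono (hpre (le_max_left J j)) (hJ p hp)
      obtain ⟨J, hJ⟩ := this hfin.toFinset (by simp)
      refine ⟨J, fun a ha b hb => hJ (a, b) ?_⟩
      simp only [Set.Finite.mem_toFinset, Set.mem_prod]
      exact ⟨ha, hb⟩
    obtain ⟨J, hJ⟩ := hbound
    have hm : k + 1 ≤ max J (k + 1) := le_max_right _ _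
    have hAm : Alive (H (max J (k + 1))) (r k) (e k) :=
      alive_ext h2 hσ hI hF0 hno (hNice (k + 1)).ext (hExt'' hm) (hrF k) (heF k) (hr3 k)
        (he3 k) (hnr k) (hAl k) ((hNice _).sz _ (hrF k)) ((hNice _).sz _ (heF k))
    obtain ⟨a, b, ha, hb, hab⟩ := hAm
    apply hab
    exact ask_mono (hpre (le_max_left J (k + 1)))
      (hJ a (Reachable.mono (hgle _) ha) b (Reachable.mono (hgle _) hb))
  have hUr : ∀ k, (greenR h ⊔ whiteR h).Reachable (r 0) (r k) := by
    intro k
    induction k with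
    | zero => exact Reachable.refl _
    | succ k ih =>
      rcases hr' k with h5 | h5
      · rw [h5]; exact ih
      · rw [h5]; exact ih.trans (hU k)
  have hinj : Function.Injective e := by
    have hlt : ∀ i j, i < j → e i ≠ e j := by
      intro i j hij heq
      have h5 := ncard_comp_mono (hpre (show i + 1 ≤ j from hij)) (e i)
      have h6 := he3 i
      rw [heq, comp_isolated (heI j), Set.ncard_singleton] at h5
      rw [heq] at h6
      omega
    intro i j hij
    rcases lt_trichotomy i j with h5 | h5 | h5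
    · exact absurd hij (hlt i j h5)
    · exact h5
    · exact absurd hij.symm (hlt j i h5)
  refine ⟨r 0, ?_⟩
  exact Set.infinite_of_injective_forall_mem hinj fun k => (hUr k).trans (hU k)

end EG71
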