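import Pool.Agent.R71.EG.Defs

namespace EG71

open SimpleGraph

/-! Basic lemmas for the elusiveness game. -/

theorem ask_append (H K : Hist) : ask (H ++ K) = ask H ∪ ask K := by
  ext e; simp only [ask, Set.mem_ofPred_eq, List.mem_append, Set.mem_union]
  constructor
  · rintro ⟨b, h | h⟩
    · exact Or.inl ⟨b, h⟩
    · exact Or.inr ⟨b, h⟩
  · rintro (⟨b, h⟩ | ⟨b, h⟩)
    · exact ⟨b, Or.inl h⟩
    · exact ⟨b, Or.inr h⟩

theorem ask_snoc (H : Hist) (e : Sym2 ℕ) (b : Bool) : ask (H ++ [(e, b)]) = insert e (ask H) := by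
  rw [ask_append]; ext x
  simp only [ask, Set.mem_union, Set.mem_ofPred_eq, List.mem_singleton, Prod.mk.injEq,
    Set.mem_insert_iff]
  constructor
  · rintro (h | ⟨c, h, -⟩)
    · exact Or.inr h
    · exact Or.inl h
  · rintro (h | h)
    · exact Or.inr ⟨b, h, rfl⟩
    · exact Or.inl h

theorem ask_nil : ask [] = ∅ := by ext; simp [ask]

theorem gr_nil : gr [] = ⊥ := by ext; simp [gr]

theorem gr_adj {H : Hist} {a b : ℕ} : (gr H).Adj a b ↔ (s(a, b), true) ∈ H ∧ a ≠ b := by
  simp [gr]

theorem gr_red (H : Hist) (e : Sym2 ℕ) : gr (H ++ [(e, false)]) = gr H := by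
  ext a b; simp [gr_adj]

theorem gr_green (H : Hist) (u y : ℕ) : gr (H ++ [(s(u, y), true)]) = gr H ⊔ edge u y := by
  ext a b
  simp only [gr_adj, List.mem_append, List.mem_singleton, Prod.mk.injEq, and_true, sup_adj,
    edge_adj, Sym2.eq_iff]
  tauto

theorem gr_mono {H K : Hist} (h : H <+: K) : gr H ≤ gr K := by
  intro a b hab
  rw [gr_adj] at hab ⊢
  exact ⟨h.subset hab.1, hab.2⟩

theorem ask_mono {H K : Hist} (h : H <+: K) : ask H ⊆ ask K := by
  rintro e ⟨b, hb⟩
  exact ⟨b, h.subset hb⟩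

theorem gr_adj_ask {H : Hist} {a b : ℕ} (h : (gr H).Adj a b) : s(a, b) ∈ ask H :=
  ⟨true, (gr_adj.1 h).1⟩

theorem ask_finite (H : Hist) : (ask H).Finite := by
  have : ask H ⊆ ((H.map Prod.fst).toFinset : Set (Sym2 ℕ)) := by
    rintro e ⟨b, hb⟩
    simp only [List.coe_toFinset, List.mem_map, Set.mem_ofPred_eq]
    exact ⟨(e, b), hb, rfl⟩
  exact (Finset.finite_toSet _).subset this

/-- finitely many vertices are touched by the pairs asked -/
theorem ask_supp_finite (H : Hist) : {v | ∃ w, s(v, w) ∈ ask H}.Finite := by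
  have h1 : {v | ∃ w, s(v, w) ∈ ask H} ⊆ ⋃ e ∈ ask H, {v | v ∈ e} := by
    rintro v ⟨w, hw⟩
    simp only [Set.mem_iUnion, Set.mem_ofPred_eq]
    exact ⟨_, hw, Sym2.mem_mk_left v w⟩
  refine Set.Finite.subset ((ask_finite H).biUnion ?_) h1
  intro e _
  induction e with
  | _ a b =>
    have : {v | v ∈ s(a, b)} = {a, b} := by ext v; simp
    rw [this]; exact Set.toFinite _

theorem gr_supp_finite (H : Hist) : {v | ∃ w, (gr H).Adj v w}.Finite :=
  (ask_supp_finite H).subset fun _ ⟨w, hw⟩ => ⟨w, gr_adj_ask hw⟩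

theorem mem_comp {G : SimpleGraph ℕ} {v w : ℕ} : w ∈ comp G v ↔ G.Reachable v w := Iff.rfl

theorem self_mem_comp (G : SimpleGraph ℕ) (v : ℕ) : v ∈ comp G v := Reachable.refl v

theorem comp_eq_of_reachable {G : SimpleGraph ℕ} {u v : ℕ} (h : G.Reachable u v) :
    comp G u = comp G v := by
  ext w; exact ⟨fun hw => h.symm.trans hw, fun hw => h.trans hw⟩

theorem reachable_of_mem_comp {G : SimpleGraph ℕ} {u v w : ℕ} (h1 : w ∈ comp G u)
    (h2 : w ∈ comp G v) : G.Reachable u v := Reachable.trans h1 (Reachable.symm h2)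

theorem comp_mono {G K : SimpleGraph ℕ} (h : G ≤ K) (v : ℕ) : comp G v ⊆ comp K v :=
  fun _ hw => Reachable.mono h hw

/-- a closed set of vertices is closed under reachability -/
theorem closed_reachable {G : SimpleGraph ℕ} {F : Set ℕ} (hF : ∀ a ∈ F, ∀ b, G.Adj a b → b ∈ F)
    {a b : ℕ} (ha : a ∈ F) (h : G.Reachable a b) : b ∈ F := by
  obtain ⟨w⟩ := h
  induction w with
  | nil => exact ha
  | cons hadj _ ih => exact ih (hF _ ha _ hadj)

/-- the component of an isolated vertex -/
theorem comp_isolated {G : SimpleGraph ℕ} {v : ℕ} (h : ∀ w, ¬ G.Adj v w) : comp G v = {v} := by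
  ext w
  constructor
  · intro hw
    exact closed_reachable (F := {v}) (fun a ha b hab => by
      rw [Set.mem_singleton_iff] at ha; subst ha; exact absurd hab (h b)) rfl hw
  · rintro rfl; exact self_mem_comp _ _

/-- a component is either `{v}` or consists of non-isolated vertices -/
theorem nonisolated_of_reachable {G : SimpleGraph ℕ} {u v : ℕ} (h : G.Reachable u v)
    (hne : u ≠ v) : ∃ w, G.Adj v w := by
  by_contra hc
  push Not at hc
  have := comp_isolated hc
  have h2 : u ∈ comp G v := h.symm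
  rw [this] at h2
  exact hne h2

theorem comp_gr_finite (H : Hist) (v : ℕ) : (comp (gr H) v).Finite := by
  refine ((gr_supp_finite H).union (Set.finite_singleton v)).subset ?_
  intro w hw
  by_cases hvw : w = v
  · exact Or.inr hvw
  · exact Or.inl (nonisolated_of_reachable hw (Ne.symm hvw))

/-- local agreement of two graphs on a component -/
theorem comp_agree {X Y : SimpleGraph ℕ} {v : ℕ}
    (h : ∀ a, X.Reachable v a → ∀ b, X.Adj a b ↔ Y.Adj a b) : comp Y v = comp X v := by
  apply Set.Subset.antisymm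
  · intro w hw
    refine closed_reachable (G := Y) (F := comp X v) ?_ (self_mem_comp X v) hw
    intro a ha b hab
    exact Reachable.trans ha (((h a ha b).2 hab).reachable)
  · intro w hw
    have key : ∀ {a b : ℕ} (p : X.Walk a b), X.Reachable v a → Y.Reachable v a →
        Y.Reachable v b := by
      intro a b p
      induction p with
      | nil => intro _ h2; exact h2
      | cons hadj _ ih =>
        intro h1 h2
        exact ih (h1.trans hadj.reachable) (h2.trans ((h _ h1 _).1 hadj).reachable)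
    obtain ⟨p⟩ := (show X.Reachable v w from hw)
    exact key p (Reachable.refl v) (Reachable.refl v)

/-- `leafs` under local agreement -/
theorem leafs_agree {X Y : SimpleGraph ℕ} {v : ℕ}
    (h : ∀ a, X.Reachable v a → ∀ b, X.Adj a b ↔ Y.Adj a b) : leafs Y v = leafs X v := by
  have hc := comp_agree h
  ext w
  have h1 : Y.Reachable v w ↔ X.Reachable v w := by
    have : w ∈ comp Y v ↔ w ∈ comp X v := by rw [hc]
    exact this
  constructor
  · rintro ⟨hr, y, hy, hu⟩
    have hr' := h1.1 hr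
    exact ⟨hr', y, (h w hr' y).2 hy, fun y' hy' => hu y' ((h w hr' y').1 hy')⟩
  · rintro ⟨hr, y, hy, hu⟩
    exact ⟨h1.2 hr, y, (h w hr y).1 hy, fun y' hy' => hu y' ((h w hr y').2 hy')⟩

theorem fat_agree {X Y : SimpleGraph ℕ} {v : ℕ}
    (h : ∀ a, X.Reachable v a → ∀ b, X.Adj a b ↔ Y.Adj a b) : Fat Y v ↔ Fat X v := by
  have hc := comp_agree h
  have h1 : ∀ w, Y.Reachable v w ↔ X.Reachable v w := by
    intro w
    have : w ∈ comp Y v ↔ w ∈ comp X v := by rw [hc]
    exact this
  constructor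
  · rintro ⟨a, b, c, a', b', c', hn, h2, h3, h4, h5, h6, h7⟩
    have r1 := (h1 b).1 h6
    have r2 := (h1 b').1 h7
    exact ⟨a, b, c, a', b', c', hn, ((h b r1 a).2 h2.symm).symm, (h b r1 c).2 h3,
      ((h b' r2 a').2 h4.symm).symm, (h b' r2 c').2 h5, r1, r2⟩
  · rintro ⟨a, b, c, a', b', c', hn, h2, h3, h4, h5, h6, h7⟩
    exact ⟨a, b, c, a', b', c', hn, ((h b h6 a).1 h2.symm).symm, (h b h6 c).1 h3,
      ((h b' h7 a').1 h4.symm).symm, (h b' h7 c').1 h5, (h1 b).2 h6, (h1 b').2 h7⟩

/-- reachability after adding one edge -/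
theorem reach_sup_edge {G : SimpleGraph ℕ} {u v a b : ℕ} (h : (G ⊔ edge u v).Reachable a b) :
    G.Reachable a b ∨ (G.Reachable a u ∧ G.Reachable v b) ∨
      (G.Reachable a v ∧ G.Reachable u b) := by
  obtain ⟨w⟩ := h
  induction w with
  | nil => exact Or.inl (Reachable.refl _)
  | @cons x y z hadj _ ih =>
    rw [sup_adj, edge_adj] at hadj
    rcases hadj with hadj | ⟨⟨rfl, rfl⟩ | ⟨rfl, rfl⟩, hne⟩
    · rcases ih with ih | ⟨i1, i2⟩ | ⟨i1, i2⟩
      · exact Or.inl (hadj.reachable.trans ih)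
      · exact Or.inr (Or.inl ⟨hadj.reachable.trans i1, i2⟩)
      · exact Or.inr (Or.inr ⟨hadj.reachable.trans i1, i2⟩)
    · rcases ih with ih | ⟨i1, i2⟩ | ⟨i1, i2⟩
      · exact Or.inr (Or.inl ⟨Reachable.refl _, ih⟩)
      · exact Or.inr (Or.inl ⟨Reachable.refl _, i2⟩)
      · exact Or.inl i2
    · rcases ih with ih | ⟨i1, i2⟩ | ⟨i1, i2⟩
      · exact Or.inr (Or.inr ⟨Reachable.refl _, ih⟩)
      · exact Or.inl i2
      · exact Or.inr (Or.inr ⟨Reachable.refl _, i2⟩)

theorem reach_edge {G : SimpleGraph ℕ} (u v : ℕ) : (G ⊔ edge u v).Reachable u v := by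
  by_cases h : u = v
  · subst h; exact Reachable.refl _
  · exact Adj.reachable (by rw [sup_adj, edge_adj]; exact Or.inr ⟨Or.inl ⟨rfl, rfl⟩, h⟩)

theorem reach_sup_edge_iff {G : SimpleGraph ℕ} {u v a b : ℕ} :
    (G ⊔ edge u v).Reachable a b ↔ (G.Reachable a b ∨ (G.Reachable a u ∧ G.Reachable v b) ∨
      (G.Reachable a v ∧ G.Reachable u b)) := by
  constructor
  · exact reach_sup_edge
  · have hle : G ≤ G ⊔ edge u v := le_sup_left
    rintro (h | ⟨h1, h2⟩ | ⟨h1, h2⟩)
    · exact h.mono hle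
    · exact ((h1.mono hle).trans (reach_edge u v)).trans (h2.mono hle)
    · exact ((h1.mono hle).trans (reach_edge u v).symm).trans (h2.mono hle)

/-- the merged component -/
theorem comp_sup_edge_left (G : SimpleGraph ℕ) (u v : ℕ) :
    comp (G ⊔ edge u v) u = comp G u ∪ comp G v := by
  ext w
  simp only [mem_comp, Set.mem_union]
  rw [reach_sup_edge_iff]
  constructor
  · rintro (h | ⟨_, h⟩ | ⟨_, h⟩)
    · exact Or.inl h
    · exact Or.inr h
    · exact Or.inl h
  · rintro (h | h)
    · exact Or.inl h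
    · exact Or.inr (Or.inl ⟨Reachable.refl _, h⟩)

/-- the other components do not change -/
theorem comp_sup_edge_other {G : SimpleGraph ℕ} {u v a : ℕ} (h1 : ¬ G.Reachable a u)
    (h2 : ¬ G.Reachable a v) : comp (G ⊔ edge u v) a = comp G a := by
  ext w
  simp only [mem_comp]
  rw [reach_sup_edge_iff]
  tauto

/-! ### Consistency and legality -/

theorem consS_nil (σ : Hist → Sym2 ℕ) : ConsS σ [] := by
  intro H₁ p H₂ h; simp at h

theorem consS_snoc {σ : Hist → Sym2 ℕ} {H : Hist} (h : ConsS σ H) (b : Bool) :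
    ConsS σ (H ++ [(σ H, b)]) := by
  intro H₁ p H₂ heq
  rcases List.eq_nil_or_concat H₂ with rfl | ⟨K, q, rfl⟩
  · have := List.append_inj' heq rfl
    obtain ⟨rfl, h2⟩ := this
    simp only [List.cons.injEq, and_true] at h2
    rw [← h2]
  · rw [List.concat_eq_append, ← List.cons_append, ← List.append_assoc] at heq
    have := List.append_inj' heq rfl
    exact h _ _ _ this.1

theorem consS_prefix {σ : Hist → Sym2 ℕ} {H K : Hist} (h : ConsS σ K) (hp : H <+: K) :
    ConsS σ H := by
  obtain ⟨T, rfl⟩ := hp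
  intro H₁ p H₂ heq
  exact h H₁ p (H₂ ++ T) (by rw [heq]; simp)

theorem consH_nil (τ : Hist → Sym2 ℕ → Bool) : ConsH τ [] := by
  intro H₁ p H₂ h; simp at h

theorem consH_snoc {τ : Hist → Sym2 ℕ → Bool} {H : Hist} (h : ConsH τ H) (e : Sym2 ℕ) :
    ConsH τ (H ++ [(e, τ H e)]) := by
  intro H₁ p H₂ heq
  rcases List.eq_nil_or_concat H₂ with rfl | ⟨K, q, rfl⟩
  · have := List.append_inj' heq rfl
    obtain ⟨rfl, h2⟩ := this
    simp only [List.cons.injEq, and_true] at h2
    rw [← h2]
  · rw [List.concat_eq_append, ← List.cons_append, ← List.append_assoc] at heq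
    have := List.append_inj' heq rfl
    exact h _ _ _ this.1

theorem consH_prefix {τ : Hist → Sym2 ℕ → Bool} {H K : Hist} (h : ConsH τ K) (hp : H <+: K) :
    ConsH τ H := by
  obtain ⟨T, rfl⟩ := hp
  intro H₁ p H₂ heq
  exact h H₁ p (H₂ ++ T) (by rw [heq]; simp)

theorem legalH_nil : LegalH [] := ⟨by simp, by simp⟩

theorem legalH_snoc {H : Hist} (h : LegalH H) {e : Sym2 ℕ} (b : Bool) (h1 : ¬ e.IsDiag)
    (h2 : e ∉ ask H) : LegalH (H ++ [(e, b)]) := by
  constructor
  · intro p hp
    rcases List.mem_append.1 hp with hp | hp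
    · exact h.1 p hp
    · rw [List.mem_singleton] at hp; subst hp; exact h1
  · rw [List.map_append, List.nodup_append]
    refine ⟨h.2, by simp, ?_⟩
    intro a ha b' hb
    simp only [List.map_cons, List.map_nil, List.mem_singleton] at hb
    subst hb
    rintro rfl
    obtain ⟨p, hp, rfl⟩ := List.mem_map.1 ha
    exact h2 ⟨p.2, hp⟩

theorem legalH_of_NS {σ : Hist → Sym2 ℕ} (hσ : NS σ) {H : Hist} (h : ConsS σ H) : LegalH H := by
  induction H using List.reverseRecOn with
  | nil => exact legalH_nil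
  | append_singleton K p ih =>
    have hK : ConsS σ K := consS_prefix h (List.prefix_append _ _)
    have hp : p.1 = σ K := h K p [] rfl
    have := hσ.legal K hK
    obtain ⟨e, b⟩ := p
    rw [← hp] at this
    exact legalH_snoc (ih hK) b this.1 this.2

/-! ### Red continuations -/

theorem gr_redc (σ : Hist → Sym2 ℕ) (H : Hist) (k : ℕ) : gr (red σ H k) = gr H := by
  induction k with
  | zero => rfl
  | succ k ih => rw [red, gr_red, ih]

theorem length_redc (σ : Hist → Sym2 ℕ) (H : Hist) (k : ℕ) :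
    (red σ H k).length = H.length + k := by
  induction k with
  | zero => rfl
  | succ k ih => rw [red, List.length_append, ih]; rfl

theorem consS_redc {σ : Hist → Sym2 ℕ} {H : Hist} (h : ConsS σ H) (k : ℕ) :
    ConsS σ (red σ H k) := by
  induction k with
  | zero => exact h
  | succ k ih => rw [red]; exact consS_snoc ih false

theorem ext_redc (σ : Hist → Sym2 ℕ) (F : Set ℕ) (H : Hist) (k : ℕ) :
    Ext σ F H (red σ H k) := by
  induction k with
  | zero => exact Relation.ReflTransGen.refl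
  | succ k ih => exact ih.tail (Step.red _)

theorem prefix_redc (σ : Hist → Sym2 ℕ) (H : Hist) (k : ℕ) : H <+: red σ H k := by
  induction k with
  | zero => exact List.prefix_refl _
  | succ k ih => exact ih.trans (List.prefix_append _ _)

/-! ### Extensions -/

theorem Step.mono {σ : Hist → Sym2 ℕ} {F F' : Set ℕ} (hF : F ⊆ F') {H K : Hist}
    (h : Step σ F' H K) : Step σ F H K := by
  cases h with
  | red => exact Step.red _
  | green u y hq hu hy hn hl =>
    exact Step.green _ u y hq (fun h => hu (hF h)) (fun h => hy (hF h)) hn hl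

theorem Ext.mono {σ : Hist → Sym2 ℕ} {F F' : Set ℕ} (hF : F ⊆ F') {H K : Hist}
    (h : Ext σ F' H K) : Ext σ F H K := by
  induction h with
  | refl => exact Relation.ReflTransGen.refl
  | tail _ h ih => exact ih.tail (Step.mono hF h)

theorem Ext.pfx {σ : Hist → Sym2 ℕ} {F : Set ℕ} {H K : Hist} (h : Ext σ F H K) : H <+: K := by
  induction h with
  | refl => exact List.prefix_refl _
  | tail _ h ih =>
    refine ih.trans ?_
    cases h <;> exact List.prefix_append _ _

end EG71
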