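import Pool.Agent.R71.EG.Stms
import Pool.Agent.R71.EG.Basic

namespace EG71

open SimpleGraph

namespace Dec

theorem subF_iff (X Y : SimpleGraph ℕ) :
    SubF X Y ↔ {p : ℕ × ℕ | X.Adj p.1 p.2 ∧ ¬ Y.Adj p.1 p.2}.Finite := by
  constructor
  · intro h
    have h2 : ((fun p : ℕ × ℕ => s(p.1, p.2)) ⁻¹' (X.edgeSet \ Y.edgeSet)).Finite := by
      refine Set.Finite.preimage' h ?_
      intro e _
      induction e with
      | _ a b =>
        refine (Set.toFinite {((a, b) : ℕ × ℕ), (b, a)}).subset ?_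
        rintro ⟨c, d⟩ hcd
        simp only [Set.mem_preimage, Set.mem_singleton_iff, Sym2.eq_iff] at hcd
        simp only [Set.mem_insert_iff, Set.mem_singleton_iff, Prod.mk.injEq]
        exact hcd
    refine h2.subset ?_
    rintro ⟨a, b⟩ ⟨h3, h4⟩
    exact ⟨h3, h4⟩
  · intro h
    refine (h.image (fun p : ℕ × ℕ => s(p.1, p.2))).subset ?_
    intro e he
    induction e with
    | _ a b =>
      exact ⟨(a, b), ⟨he.1, he.2⟩, rfl⟩

theorem subF_refl (X : SimpleGraph ℕ) : SubF X X := by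
  unfold SubF; simp

theorem subF_trans {X Y Z : SimpleGraph ℕ} (h1 : SubF X Y) (h2 : SubF Y Z) : SubF X Z := by
  refine (Set.Finite.union h1 h2).subset ?_
  intro e he
  by_cases h : e ∈ Y.edgeSet
  · exact Or.inr ⟨h, he.2⟩
  · exact Or.inl ⟨he.1, h⟩

theorem subF_comap {X Y : SimpleGraph ℕ} (π : ℕ ≃ ℕ) (h : SubF X Y) :
    SubF (X.comap π) (Y.comap π) := by
  rw [subF_iff] at h ⊢
  have : {p : ℕ × ℕ | (X.comap π).Adj p.1 p.2 ∧ ¬ (Y.comap π).Adj p.1 p.2} =
      (fun p : ℕ × ℕ => (π p.1, π p.2)) ⁻¹' {p : ℕ × ℕ | X.Adj p.1 p.2 ∧ ¬ Y.Adj p.1 p.2} := by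
    ext p; simp
  rw [this]
  refine h.preimage ?_
  rintro ⟨a, b⟩ _ ⟨c, d⟩ _ h
  simp only [Prod.mk.injEq, EmbeddingLike.apply_eq_iff_eq] at h
  simp [h.1, h.2]

theorem comap_symm_comap (X : SimpleGraph ℕ) (π : ℕ ≃ ℕ) : (X.comap π).comap π.symm = X := by
  ext a b; simp

theorem transfer {X Y : SimpleGraph ℕ} (h1 : SubF X Y) (h2 : SubF Y X) :
    ∃ N : ℕ, ∀ v, N ≤ (comp X v).ncard →
      ∀ a, X.Reachable v a → ∀ b, X.Adj a b ↔ Y.Adj a b := by
  rw [subF_iff] at h1 h2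
  have hT : {a : ℕ | ∃ b, ¬ (X.Adj a b ↔ Y.Adj a b)}.Finite := by
    refine ((h1.union h2).image Prod.fst).subset ?_
    rintro a ⟨b, hb⟩
    refine ⟨(a, b), ?_, rfl⟩
    by_cases hx : X.Adj a b
    · by_cases hy : Y.Adj a b
      · exact absurd (iff_of_true hx hy) hb
      · exact Or.inl ⟨hx, hy⟩
    · by_cases hy : Y.Adj a b
      · exact Or.inr ⟨hy, hx⟩
      · exact absurd (iff_of_false hx hy) hb
  obtain ⟨N, hN⟩ := (hT.image (fun a => (comp X a).ncard)).bddAbove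
  refine ⟨N + 1, fun v hv a ha b => ?_⟩
  by_contra hc
  have h3 : (comp X a).ncard ≤ N := hN ⟨a, ⟨b, hc⟩, rfl⟩
  rw [← comp_eq_of_reachable ha] at h3
  omega

theorem reach_comap (G : SimpleGraph ℕ) (π : ℕ ≃ ℕ) (a b : ℕ) :
    (G.comap π).Reachable a b ↔ G.Reachable (π a) (π b) :=
  (Iso.reachable_iff (φ := Iso.comap π G)).symm

theorem comp_comap (G : SimpleGraph ℕ) (π : ℕ ≃ ℕ) (v : ℕ) :
    comp (G.comap π) v = π ⁻¹' comp G (π v) := by
  ext w; exact reach_comap G π v w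

theorem ncard_preim (π : ℕ ≃ ℕ) (s : Set ℕ) : (π ⁻¹' s).ncard = s.ncard := by
  rw [← Equiv.image_symm_eq_preimage]
  exact Set.ncard_image_of_injective _ π.symm.injective

theorem ncard_comap (G : SimpleGraph ℕ) (π : ℕ ≃ ℕ) (v : ℕ) :
    (comp (G.comap π) v).ncard = (comp G (π v)).ncard := by
  rw [comp_comap, ncard_preim]

theorem leafs_comap (G : SimpleGraph ℕ) (π : ℕ ≃ ℕ) (v : ℕ) :
    leafs (G.comap π) v = π ⁻¹' leafs G (π v) := by
  ext w
  constructor
  · rintro ⟨h1, y, h2, h3⟩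
    refine ⟨(reach_comap G π v w).1 h1, π y, h2, fun y' hy' => ?_⟩
    have := h3 (π.symm y') (by simpa using hy')
    rw [← this]; simp
  · rintro ⟨h1, y, h2, h3⟩
    refine ⟨(reach_comap G π v w).2 h1, π.symm y, by simpa using h2, fun y' hy' => ?_⟩
    have := h3 (π y') hy'
    rw [← this]; simp

theorem fat_comap (G : SimpleGraph ℕ) (π : ℕ ≃ ℕ) (v : ℕ) (h : Fat G (π v)) :
    Fat (G.comap π) v := by
  obtain ⟨a, b, c, a', b', c', hn, h2, h3, h4, h5, h6, h7⟩ := h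
  refine ⟨π.symm a, π.symm b, π.symm c, π.symm a', π.symm b', π.symm c', ?_, ?_, ?_, ?_, ?_,
    ?_, ?_⟩
  · exact hn.map π.symm.injective
  · simpa using h2
  · simpa using h3
  · simpa using h4
  · simpa using h5
  · rw [reach_comap]; simpa using h6
  · rw [reach_comap]; simpa using h7

theorem le_pow (N m k : ℕ) (h : N ≤ m) : N ≤ 2 ^ (4 * m + k) := by
  have h1 : m < 2 ^ m := Nat.lt_two_pow_self
  have h2 : 2 ^ m ≤ 2 ^ (4 * m + k) := Nat.pow_le_pow_right (by norm_num) (by omega)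
  omega

end Dec

open Dec

theorem eqv : S_EQV := by
  refine ⟨?_, ?_, ?_⟩
  · intro X
    exact ⟨Equiv.refl ℕ, subF_refl _, subF_refl _⟩
  · rintro X Y ⟨π, h1, h2⟩
    refine ⟨π.symm, ?_, ?_⟩
    · have := subF_comap π.symm h2
      rwa [comap_symm_comap] at this
    · have := subF_comap π.symm h1
      rwa [comap_symm_comap] at this
  · rintro X Y Z ⟨π, h1, h2⟩ ⟨ρ, h3, h4⟩
    refine ⟨ρ.trans π, ?_, ?_⟩
    · have h5 := subF_comap ρ h1
      have h6 : (X.comap π).comap ρ = X.comap (ρ.trans π) := by ext a b; simp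
      rw [h6] at h5
      exact subF_trans h5 h3
    · have h5 := subF_comap ρ h2
      have h6 : (X.comap π).comap ρ = X.comap (ρ.trans π) := by ext a b; simp
      rw [h6] at h5
      exact subF_trans h4 h5

theorem decA : S_DECA := by
  rintro G G' z z' ⟨H, hL, hHG, hGH⟩ hz hz' ⟨π, h1, h2⟩
  obtain ⟨M, hM⟩ := hL.fat
  obtain ⟨N1, hN1⟩ := transfer hHG hGH
  obtain ⟨N2, hN2⟩ := transfer h1 h2
  refine ⟨M + N1 + N2, fun m hm => ?_⟩
  obtain ⟨v, hv1, hv2⟩ := hM m (by omega)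
  have ha := hN1 v (by rw [hv1]; exact le_pow N1 m 0 (by omega))
  have hcG : comp G v = comp H v := comp_agree ha
  have hfG : Fat G v := (fat_agree ha).2 hv2
  have hsG : (comp G v).ncard = 2 ^ (4 * m) := by rw [hcG]; exact hv1
  set w := π.symm v with hw
  have hpw : π w = v := by simp [hw]
  have hsX : (comp (G.comap π) w).ncard = 2 ^ (4 * m) := by
    rw [ncard_comap, hpw]; exact hsG
  have hfX : Fat (G.comap π) w := fat_comap G π w (by rw [hpw]; exact hfG)
  have hlX : (leafs (G.comap π) w).ncard = (leafs G v).ncard := by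
    rw [leafs_comap, ncard_preim, hpw]
  have hb := hN2 w (by rw [hsX]; exact le_pow N2 m 0 (by omega))
  have hcY : comp G' w = comp (G.comap π) w := comp_agree hb
  have hfY : Fat G' w := (fat_agree hb).2 hfX
  have hlY : leafs G' w = leafs (G.comap π) w := leafs_agree hb
  have e1 := hz m v hsG hfG
  have e2 := hz' m w (by rw [hcY]; exact hsX) hfY
  rw [hlY, hlX] at e2
  have : z m = true ↔ z' m = true := e1.symm.trans e2
  exact Bool.eq_iff_iff.2 this

theorem decB : S_DECB := by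
  rintro G G' z z' ⟨M, hM⟩ ⟨M', hM'⟩ ⟨π, h1, h2⟩
  obtain ⟨N1, hN1⟩ := transfer h1 h2
  obtain ⟨N2, hN2⟩ := transfer h2 h1
  refine ⟨M + M' + N1 + N2, fun m hm => ?_⟩
  have key : (∃ v, (comp G v).ncard = 2 ^ (4 * m + 1)) ↔
      (∃ v, (comp G' v).ncard = 2 ^ (4 * m + 1)) := by
    constructor
    · rintro ⟨v, hv⟩
      have hpw : π (π.symm v) = v := by simp
      have hs : (comp (G.comap π) (π.symm v)).ncard = 2 ^ (4 * m + 1) := by
        rw [ncard_comap, hpw]; exact hv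
      have hb := hN1 (π.symm v) (by rw [hs]; exact le_pow N1 m 1 (by omega))
      exact ⟨π.symm v, by rw [comp_agree hb]; exact hs⟩
    · rintro ⟨v, hv⟩
      have hb := hN2 v (by rw [hv]; exact le_pow N2 m 1 (by omega))
      have hs : (comp (G.comap π) v).ncard = 2 ^ (4 * m + 1) := by
        rw [comp_agree hb]; exact hv
      exact ⟨π v, by rw [← ncard_comap]; exact hs⟩
  have e1 := hM m (by omega)
  have e2 := hM' m (by omega)
  exact Bool.eq_iff_iff.2 (e1.symm.trans (key.trans e2))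

end EG71
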