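import Pool.Agent.R71.EG.Basic
import Pool.Agent.R71.EG.Stms

/-!
Monotonicity, invariance and the other graph lemmas (problem MP_3d6d95_lc).
-/

namespace EG71

open SimpleGraph

theorem mem_SB {B : Set (SimpleGraph ℕ)} {X : SimpleGraph ℕ} : X ∈ SB B ↔
    Inf X ∨ (∃ H, L H ∧ SubF H X ∧ ¬ SubF X H) ∨
    (∃ H ∈ B, L H ∧ SubF H X ∧ (∀ u v, H.Reachable u v → X.Reachable u v) ∧
      ∃ u v, X.Reachable u v ∧ ¬ H.Reachable u v) := Iff.rfl

theorem SubF.mono_right {H X Y : SimpleGraph ℕ} (h : X ≤ Y) (hs : SubF H X) : SubF H Y := by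
  refine Set.Finite.subset hs ?_
  rintro e ⟨h1, h2⟩
  exact ⟨h1, fun h3 => h2 (edgeSet_mono h h3)⟩

theorem SubF.mono_left {H X Y : SimpleGraph ℕ} (h : X ≤ Y) (hs : SubF Y H) : SubF X H := by
  refine Set.Finite.subset hs ?_
  rintro e ⟨h1, h2⟩
  exact ⟨edgeSet_mono h h1, h2⟩

theorem mono : S_MONO := by
  intro B X Y hXY hX
  rw [mem_SB] at hX ⊢
  rcases hX with ⟨v, hv⟩ | ⟨H, h1, h2, h3⟩ | ⟨H, hB, h1, h2, h3, u, v, h4, h5⟩
  · exact Or.inl ⟨v, hv.mono (comp_mono hXY v)⟩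
  · exact Or.inr (Or.inl ⟨H, h1, h2.mono_right hXY, fun h => h3 (h.mono_left hXY)⟩)
  · exact Or.inr (Or.inr ⟨H, hB, h1, h2.mono_right hXY, fun a b hab => (h3 a b hab).mono hXY,
      u, v, h4.mono hXY, h5⟩)

/-! ### Adding one edge -/

theorem subF_sup_edge {H X : SimpleGraph ℕ} {u v : ℕ} (h : SubF H (X ⊔ edge u v)) : SubF H X := by
  refine Set.Finite.subset (Set.Finite.union h (Set.finite_singleton s(u, v))) ?_
  rintro e ⟨h1, h2⟩
  induction e with
  | _ a b =>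
    by_cases he : s(a, b) = s(u, v)
    · exact Or.inr he
    · refine Or.inl ⟨h1, ?_⟩
      intro h3
      have h3' : (X ⊔ edge u v).Adj a b := h3
      rw [sup_adj, edge_adj] at h3'
      rcases h3' with h4 | ⟨h4, -⟩
      · exact h2 h4
      · apply he
        rcases h4 with ⟨rfl, rfl⟩ | ⟨rfl, rfl⟩
        · rfl
        · exact Sym2.eq_swap

theorem sup_edge_subF {H X : SimpleGraph ℕ} {u v : ℕ} (h : SubF X H) : SubF (X ⊔ edge u v) H := by
  refine Set.Finite.subset (Set.Finite.union h (Set.finite_singleton s(u, v))) ?_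
  rintro e ⟨h1, h2⟩
  induction e with
  | _ a b =>
    have h1' : (X ⊔ edge u v).Adj a b := h1
    rw [sup_adj, edge_adj] at h1'
    rcases h1' with h4 | ⟨h4, -⟩
    · exact Or.inl ⟨h4, h2⟩
    · right
      rcases h4 with ⟨rfl, rfl⟩ | ⟨rfl, rfl⟩
      · rfl
      · exact Sym2.eq_swap

theorem inner : S_INNER := by
  intro B X u v huv hX
  have hr : ∀ a b, (X ⊔ edge u v).Reachable a b ↔ X.Reachable a b := by
    intro a b
    rw [reach_sup_edge_iff]
    constructor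
    · rintro (h | ⟨h1, h2⟩ | ⟨h1, h2⟩)
      · exact h
      · exact (h1.trans huv).trans h2
      · exact (h1.trans huv.symm).trans h2
    · exact Or.inl
  rw [mem_SB] at hX ⊢
  rcases hX with ⟨w, hw⟩ | ⟨H, h1, h2, h3⟩ | ⟨H, hB, h1, h2, h3, a, b, h4, h5⟩
  · left
    refine ⟨w, ?_⟩
    have : comp (X ⊔ edge u v) w = comp X w := by ext y; exact hr w y
    rwa [this] at hw
  · exact Or.inr (Or.inl ⟨H, h1, subF_sup_edge h2, fun h => h3 (sup_edge_subF h)⟩)
  · exact Or.inr (Or.inr ⟨H, hB, h1, subF_sup_edge h2, fun a b hab => (hr a b).1 (h3 a b hab),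
      a, b, (hr a b).1 h4, h5⟩)

theorem close : S_CLOSE := by
  intro B X u v hX hXe
  rw [mem_SB] at hXe
  rw [mem_SB, not_or, not_or] at hX
  obtain ⟨n1, n2, -⟩ := hX
  have hfin : ∀ w, (comp X w).Finite := by
    intro w
    by_contra hc
    exact n1 ⟨w, hc⟩
  rcases hXe with ⟨w, hw⟩ | ⟨H, h1, h2, h3⟩ | ⟨H, hB, h1, h2, -, -⟩
  · exfalso
    apply hw
    refine ((hfin w).union ((hfin u).union (hfin v))).subset ?_
    intro y hy
    have hy' : (X ⊔ edge u v).Reachable w y := hy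
    rw [reach_sup_edge_iff] at hy'
    rcases hy' with h | ⟨-, h⟩ | ⟨-, h⟩
    · exact Or.inl h
    · exact Or.inr (Or.inr h)
    · exact Or.inr (Or.inl h)
  · exfalso
    exact n2 ⟨H, h1, subF_sup_edge h2, fun h => h3 (sup_edge_subF h)⟩
  · refine ⟨H, hB, h1, subF_sup_edge h2, ?_⟩
    by_contra hc
    exact n2 ⟨H, h1, subF_sup_edge h2, hc⟩

/-! ### Small graphs -/

theorem not_small_of_L {H X : SimpleGraph ℕ} (hL : L H) (hs : SubF H X) : ¬ Small X := by
  rintro ⟨hfin, h5⟩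
  have hT : {t | ∃ w, H.Adj t w ∧ ¬ X.Adj t w}.Finite := by
    have h1 : {t | ∃ w, H.Adj t w ∧ ¬ X.Adj t w} ⊆ ⋃ e ∈ H.edgeSet \ X.edgeSet, {v | v ∈ e} := by
      rintro v ⟨w, hw⟩
      simp only [Set.mem_iUnion, Set.mem_ofPred_eq]
      exact ⟨s(v, w), hw, Sym2.mem_mk_left v w⟩
    refine Set.Finite.subset (Set.Finite.biUnion hs ?_) h1
    intro e _
    induction e with
    | _ a b =>
      have : {v | v ∈ s(a, b)} = {a, b} := by ext v; simp
      rw [this]; exact Set.toFinite _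
  obtain ⟨K, hK⟩ := ((hT.union h5).image fun t => (comp H t).ncard).bddAbove
  obtain ⟨M, hM⟩ := hL.fat
  obtain ⟨v, hv, -⟩ := hM (max M (max 2 K)) (le_max_left _ _)
  set m := max M (max 2 K) with hm
  have hm2 : 2 ≤ m := (le_max_left 2 K).trans (le_max_right M _)
  have hmK : K ≤ m := (le_max_right 2 K).trans (le_max_right M _)
  have hbig : K < 2 ^ (4 * m) := by
    have h1 : m < 2 ^ m := Nat.lt_two_pow_self
    have h2 : 2 ^ m ≤ 2 ^ (4 * m) := Nat.pow_le_pow_right (by norm_num) (by omega)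
    omega
  have hbig5 : 5 ≤ 2 ^ (4 * m) := by
    have h2 : 2 ^ (4 * 2) ≤ 2 ^ (4 * m) := Nat.pow_le_pow_right (by norm_num) (by omega)
    norm_num at h2
    omega
  have hnot : ∀ t, H.Reachable v t → t ∉ {t | ∃ w, H.Adj t w ∧ ¬ X.Adj t w} ∪
      {v | 5 ≤ (comp X v).ncard} := by
    intro t ht htm
    have h1 := hK (Set.mem_image_of_mem (fun t => (comp H t).ncard) htm)
    have h1' : (comp H t).ncard ≤ K := h1
    rw [← comp_eq_of_reachable ht, hv] at h1'
    omega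
  have hsub : comp H v ⊆ comp X v := by
    intro w hw
    have hcl : ∀ a ∈ {a | H.Reachable v a ∧ X.Reachable v a}, ∀ b, H.Adj a b →
        b ∈ {a | H.Reachable v a ∧ X.Reachable v a} := by
      rintro a ⟨h1, h2⟩ b hab
      refine ⟨h1.trans hab.reachable, h2.trans ?_⟩
      have hn := hnot a h1
      have : X.Adj a b := by
        by_contra hc
        exact hn (Or.inl ⟨b, hab, hc⟩)
      exact this.reachable
    exact (closed_reachable hcl ⟨Reachable.refl v, Reachable.refl v⟩ hw).2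
  have hle := Set.ncard_le_ncard hsub (hfin v)
  rw [hv] at hle
  exact hnot v (Reachable.refl v) (Or.inr (hbig5.trans hle))

theorem small : S_SMALL := by
  intro B X hX hXB
  rw [mem_SB] at hXB
  rcases hXB with ⟨w, hw⟩ | ⟨H, h1, h2, -⟩ | ⟨H, -, h1, h2, -, -⟩
  · exact hw (hX.1 w)
  · exact not_small_of_L h1 h2 hX
  · exact not_small_of_L h1 h2 hX

/-! ### Isomorphism -/

theorem comp_iso {X Y : SimpleGraph ℕ} (e : X ≃g Y) (v : ℕ) : comp Y (e v) = e '' comp X v := by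
  ext w
  simp only [mem_comp, Set.mem_image]
  constructor
  · intro hw
    refine ⟨e.symm w, ?_, e.apply_symm_apply w⟩
    rw [← e.reachable_iff, e.apply_symm_apply]
    exact hw
  · rintro ⟨y, hy, rfl⟩
    exact e.reachable_iff.2 hy

theorem comp_iso_ncard {X Y : SimpleGraph ℕ} (e : X ≃g Y) (v : ℕ) :
    (comp Y (e v)).ncard = (comp X v).ncard := by
  rw [comp_iso, Set.ncard_image_of_injective _ e.injective]

theorem fat_iso {X Y : SimpleGraph ℕ} (e : X ≃g Y) {v : ℕ} (h : Fat X v) : Fat Y (e v) := by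
  obtain ⟨a, b, c, a', b', c', hn, h2, h3, h4, h5, h6, h7⟩ := h
  refine ⟨e a, e b, e c, e a', e b', e c', ?_, e.map_rel_iff.2 h2, e.map_rel_iff.2 h3,
    e.map_rel_iff.2 h4, e.map_rel_iff.2 h5, e.reachable_iff.2 h6, e.reachable_iff.2 h7⟩
  have := hn.map e.injective
  simpa using this

theorem L_iso {X Y : SimpleGraph ℕ} (e : X ≃g Y) (h : L X) : L Y := by
  refine ⟨?_, ?_, ?_, ?_⟩
  · exact (Iso.isAcyclic_iff e).1 h.acyc
  · intro v
    obtain ⟨a, ha⟩ := h.pow (e.symm v)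
    refine ⟨a, ?_⟩
    rw [← ha, ← comp_iso_ncard e, e.apply_symm_apply]
  · intro u v huv
    have h1 := comp_iso_ncard e (e.symm u)
    have h2 := comp_iso_ncard e (e.symm v)
    rw [e.apply_symm_apply] at h1 h2
    have := h.dist (e.symm u) (e.symm v) (by rw [← h1, ← h2, huv])
    rw [← e.reachable_iff, e.apply_symm_apply, e.apply_symm_apply] at this
    exact this
  · obtain ⟨M, hM⟩ := h.fat
    refine ⟨M, fun m hm => ?_⟩
    obtain ⟨v, hv1, hv2⟩ := hM m hm
    exact ⟨e v, by rw [comp_iso_ncard, hv1], fat_iso e hv2⟩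

theorem subF_iso {X Y H K : SimpleGraph ℕ} (π : ℕ ≃ ℕ)
    (h1 : ∀ a b, Y.Adj (π a) (π b) ↔ X.Adj a b) (h2 : ∀ a b, K.Adj (π a) (π b) ↔ H.Adj a b)
    (h : SubF H X) : SubF K Y := by
  refine Set.Finite.subset (Set.Finite.image (Sym2.map π) h) ?_
  rintro e ⟨he1, he2⟩
  induction e with
  | _ a b =>
    refine ⟨s(π.symm a, π.symm b), ⟨?_, ?_⟩, ?_⟩
    · have := h2 (π.symm a) (π.symm b)
      rw [π.apply_symm_apply, π.apply_symm_apply] at this
      exact this.1 he1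
    · have := h1 (π.symm a) (π.symm b)
      rw [π.apply_symm_apply, π.apply_symm_apply] at this
      intro h3
      exact he2 (this.2 h3)
    · simp

theorem iso : S_ISO := by
  rintro B hB X Y ⟨e⟩ hX
  rw [mem_SB] at hX ⊢
  have hXY : ∀ a b, Y.Adj (e.toEquiv a) (e.toEquiv b) ↔ X.Adj a b := fun a b => e.map_rel_iff
  have hYX : ∀ a b, X.Adj (e.toEquiv.symm a) (e.toEquiv.symm b) ↔ Y.Adj a b := fun a b => by
    rw [← hXY]; simp
  -- transport of the witness
  have key : ∀ H : SimpleGraph ℕ, ∃ K : SimpleGraph ℕ, Nonempty (H ≃g K) ∧ Eqv H K ∧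
      (∀ a b, K.Adj (e.toEquiv a) (e.toEquiv b) ↔ H.Adj a b) ∧
      (∀ a b, K.Reachable (e.toEquiv a) (e.toEquiv b) ↔ H.Reachable a b) := by
    intro H
    have hK : ∀ a b, (H.comap e.toEquiv.symm).Adj (e.toEquiv a) (e.toEquiv b) ↔ H.Adj a b := by
      intro a b
      rw [comap_adj, Equiv.symm_apply_apply, Equiv.symm_apply_apply]
    let f : H ≃g H.comap e.toEquiv.symm := ⟨e.toEquiv, fun {a b} => hK a b⟩
    refine ⟨H.comap e.toEquiv.symm, ⟨f⟩, ⟨e.toEquiv.symm, ?_, ?_⟩, hK, ?_⟩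
    · show (_ \ _ : Set _).Finite
      rw [Set.sdiff_self]; exact Set.finite_empty
    · show (_ \ _ : Set _).Finite
      rw [Set.sdiff_self]; exact Set.finite_empty
    · intro a b
      exact f.reachable_iff
  rcases hX with ⟨v, hv⟩ | ⟨H, h1, h2, h3⟩ | ⟨H, hHB, h1, h2, h3, u, v, h4, h5⟩
  · left
    refine ⟨e v, ?_⟩
    rw [comp_iso]
    exact hv.image e.injective.injOn
  · right; left
    obtain ⟨K, ⟨f⟩, k1, k2, -⟩ := key H
    have k2' : ∀ a b, H.Adj (e.toEquiv.symm a) (e.toEquiv.symm b) ↔ K.Adj a b := fun a b => by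
      rw [← k2]; simp
    exact ⟨K, L_iso f h1, subF_iso e.toEquiv hXY k2 h2,
      fun h => h3 (subF_iso e.toEquiv.symm k2' hYX h)⟩
  · right; right
    obtain ⟨K, ⟨f⟩, k1, k2, k3⟩ := key H
    refine ⟨K, hB H K hHB k1, L_iso f h1, subF_iso e.toEquiv hXY k2 h2, ?_, e u, e v,
      e.reachable_iff.2 h4, ?_⟩
    · intro a b hab
      have h6 := k3 (e.toEquiv.symm a) (e.toEquiv.symm b)
      rw [Equiv.apply_symm_apply, Equiv.apply_symm_apply] at h6
      have h7 := h3 _ _ (h6.1 hab)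
      have h8 : Y.Reachable (e (e.symm a)) (e (e.symm b)) := e.reachable_iff.2 h7
      rwa [RelIso.apply_symm_apply, RelIso.apply_symm_apply] at h8
    · intro h6
      exact h5 ((k3 u v).1 h6)

end EG71
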