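import Pool.Agent.R71.EG.Basic
import Pool.Agent.R71.EG.Stms

/-!
Red continuations, steps and growing a component (problem MP_3d6d95_lc).
-/

namespace EG71

open SimpleGraph

theorem small_gr (H : Hist) : Small (gr H) := by
  refine ⟨fun v => comp_gr_finite H v, ?_⟩
  refine (gr_supp_finite H).subset ?_
  intro v hv
  by_contra hc
  have hiso : ∀ w, ¬ (gr H).Adj v w := by
    intro w hw
    exact hc ⟨w, hw⟩
  have h1 : 5 ≤ (comp (gr H) v).ncard := hv
  rw [comp_isolated hiso, Set.ncard_singleton] at h1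
  omega

theorem redc_prefix_le (σ : Hist → Sym2 ℕ) (H : Hist) {i j : ℕ} (hij : i ≤ j) :
    red σ H i <+: red σ H j := by
  induction hij with
  | refl => exact List.prefix_refl _
  | step _ ih => exact ih.trans (List.prefix_append _ _)

theorem redc (h : S_LIM) : S_REDC := by
  intro σ hσ H hH C hC
  obtain ⟨r, -, hgreen, hwhite, hcons, -, -⟩ := h (fun k => red σ H k)
    (fun k => List.prefix_append _ _)
    (fun k => by
      show (red σ H k).length < (red σ H (k + 1)).length
      rw [length_redc, length_redc]; omega)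
  have hgr : greenR r = gr H := by
    ext a b
    rw [hgreen]
    constructor
    · rintro ⟨k, hk⟩
      have hk' : (gr (red σ H k)).Adj a b := hk
      rwa [gr_redc] at hk'
    · intro hab
      exact ⟨0, hab⟩
  have hsr : ConsSR σ r := hcons σ (fun k => consS_redc hH k)
  have hinf : ¬ Inf (greenR r ⊔ whiteR r) := hσ.inf r hsr (by rw [hgr]; exact small_gr H)
  have hfin : ∀ v, (comp (greenR r ⊔ whiteR r) v).Finite := by
    intro v
    by_contra hc
    exact hinf ⟨v, hc⟩
  refine ⟨C ∪ ⋃ c ∈ C, comp (greenR r ⊔ whiteR r) c,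
    hC.union (hC.biUnion fun c _ => hfin c), ?_⟩
  intro y hy
  have key : ∀ c ∈ C, ∃ k, s(c, y) ∈ ask (red σ H k) := by
    intro c hc
    by_contra hno
    push Not at hno
    apply hy
    by_cases hcy : c = y
    · exact Or.inl (hcy ▸ hc)
    · refine Or.inr (Set.mem_biUnion hc ?_)
      have hadj : (whiteR r).Adj c y := (hwhite c y).2 ⟨hcy, hno⟩
      have : (greenR r ⊔ whiteR r).Adj c y := Or.inr hadj
      exact this.reachable
  choose! k hk using key
  obtain ⟨M, hM⟩ := (hC.image k).bddAbove
  refine ⟨M, fun c hc => ?_⟩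
  have h1 : k c ≤ M := hM (Set.mem_image_of_mem k hc)
  exact ask_mono (redc_prefix_le σ H h1) (hk c hc)

theorem acyclic_sup_edge {G : SimpleGraph ℕ} {u y : ℕ} (hG : G.IsAcyclic)
    (h : ¬ G.Reachable u y) : (G ⊔ edge u y).IsAcyclic := by
  exact IsAcyclic.sup_edge_of_not_reachable h hG

theorem step_inv {σ : Hist → Sym2 ℕ} {F : Set ℕ} {K K' : Hist}
    (hK : Inv σ K) (hs : Step σ F K K') :
    Inv σ K' ∧ (∀ a ∈ F, ∀ b, (gr K').Adj a b ↔ (gr K).Adj a b) := by
  cases hs with
  | red =>
    refine ⟨⟨consS_snoc hK.cons false, ?_, ?_⟩, ?_⟩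
    · rw [gr_red]; exact hK.acyc
    · intro a b hab hr
      rw [gr_red] at hr
      rw [ask_snoc]
      exact Or.inr (hK.tight a b hab hr)
    · intro a _ b
      rw [gr_red]
  | green u y hq hu hy hn hl =>
    refine ⟨⟨?_, ?_, ?_⟩, ?_⟩
    · have := consS_snoc hK.cons true
      rwa [hq] at this
    · rw [gr_green]; exact acyclic_sup_edge hK.acyc hn
    · intro a b hab hr
      rw [gr_green, reach_sup_edge_iff] at hr
      rw [ask_snoc]
      rcases hr with hr | ⟨h1, h2⟩ | ⟨h1, h2⟩
      · exact Or.inr (hK.tight a b hab hr)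
      · rcases hl a b h1.symm h2 with h | h
        · exact Or.inr h
        · exact Or.inl h
      · rcases hl b a h2 h1.symm with h | h
        · rw [Sym2.eq_swap] at h; exact Or.inr h
        · rw [Sym2.eq_swap] at h; exact Or.inl h
    · intro a ha b
      rw [gr_green, sup_adj, edge_adj]
      constructor
      · rintro (h | ⟨⟨rfl, rfl⟩ | ⟨rfl, rfl⟩, -⟩)
        · exact h
        · exact absurd ha hu
        · exact absurd ha hy
      · exact Or.inl

theorem step : S_STEP := by
  intro σ _ F H H' hH hext _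
  induction hext with
  | refl => exact ⟨hH, List.prefix_refl _, le_refl _, fun _ _ _ => Iff.rfl⟩
  | tail hKK hs ih =>
    obtain ⟨h1, h2, h3, h4⟩ := ih
    obtain ⟨g1, g2⟩ := step_inv h1 hs
    have hp := Ext.pfx (Relation.ReflTransGen.single hs)
    refine ⟨g1, h2.trans hp, h3.trans (gr_mono hp), ?_⟩
    intro a ha b
    rw [g2 a ha b, h4 a ha b]

theorem grow1 (h : S_REDC) (_h2 : S_STEP) : S_GROW1 := by
  intro σ hσ F H hF hH v hv hcl
  obtain ⟨Y, hY, hY2⟩ := h σ hσ H hH.cons (comp (gr H) v) (comp_gr_finite H v)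
  refine ⟨Y ∪ (F ∪ ({x | ∃ w, s(x, w) ∈ ask H} ∪ {v})),
    hY.union (hF.union ((ask_supp_finite H).union (Set.finite_singleton v))), ?_⟩
  intro y hy
  simp only [Set.mem_union, Set.mem_ofPred_eq, Set.mem_singleton_iff, not_or] at hy
  obtain ⟨hy1, hy2, hy3, hy4⟩ := hy
  have hyask : ∀ w, s(w, y) ∉ ask H := by
    intro w hw
    rw [Sym2.eq_swap] at hw
    exact hy3 ⟨w, hw⟩
  have hyiso : ∀ w, ¬ (gr H).Adj y w := fun w hw => hy3 ⟨w, gr_adj_ask hw⟩
  classical
  have hex := hY2 y hy1
  have hk0 : Nat.find hex ≠ 0 := by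
    intro h0
    have := Nat.find_spec hex
    rw [h0] at this
    exact hyask v (this v (self_mem_comp _ _))
  obtain ⟨j, hj⟩ := Nat.exists_eq_succ_of_ne_zero hk0
  have hspec := Nat.find_spec hex
  rw [hj] at hspec
  have hmin : ¬ ∀ c ∈ comp (gr H) v, s(c, y) ∈ ask (red σ H j) :=
    Nat.find_min hex (by omega)
  push Not at hmin
  obtain ⟨c, hc, hcy⟩ := hmin
  have hask : ask (red σ H (j + 1)) = insert (σ (red σ H j)) (ask (red σ H j)) := by
    rw [red, ask_snoc]
  have hq : σ (red σ H j) = s(c, y) := by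
    have := hspec c hc
    rw [Nat.succ_eq_add_one, hask] at this
    rcases this with h1 | h1
    · exact h1.symm
    · exact absurd h1 hcy
  have hne : c ≠ y := by
    rintro rfl
    obtain ⟨w, hw⟩ := nonisolated_of_reachable hc (Ne.symm hy4)
    exact hyiso w hw
  have hyr : ∀ b, (gr H).Reachable y b → b = y := by
    intro b hb
    by_contra hbne
    have h1 : b ∈ comp (gr H) y := hb
    rw [comp_isolated hyiso] at h1
    exact hbne h1
  refine ⟨red σ H j ++ [(s(c, y), true)], c, ?_, ?_, hc, hyiso, hy4, ?_⟩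
  · refine (ext_redc σ F H j).tail (Step.green _ c y hq ?_ hy2 ?_ ?_)
    · intro hcF
      exact hv (closed_reachable hcl hcF (Reachable.symm hc))
    · rw [gr_redc]
      intro hr
      obtain ⟨w, hw⟩ := nonisolated_of_reachable hr hne
      exact hyiso w hw
    · intro a b ha hb
      rw [gr_redc] at ha hb
      have hb' := hyr b hb
      subst hb'
      have h1 : a ∈ comp (gr H) v := Reachable.trans hc ha
      have := hspec a h1
      rw [Nat.succ_eq_add_one, hask, hq] at this
      rcases this with h2 | h2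
      · exact Or.inr h2
      · exact Or.inl h2
  · rw [List.length_append, length_redc]
    simp only [List.length_cons, List.length_nil]
    omega
  · rw [gr_green, gr_redc]

theorem grow (h : S_GROW1) (h2 : S_STEP) : S_GROW := by
  intro σ hσ F H hF hH v hv hcl hadj N hN
  obtain ⟨d, rfl⟩ := Nat.exists_eq_add_of_le hN
  clear hN
  induction d generalizing H with
  | zero => exact ⟨H, Relation.ReflTransGen.refl, rfl, hadj⟩
  | succ d ih =>
    obtain ⟨Y, hY, hY2⟩ := h σ hσ F H hF hH v hv hcl
    obtain ⟨y, hy⟩ := hY.exists_notMem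
    obtain ⟨H', u, hext, -, hvu, hyiso, hyv, hgr⟩ := hY2 y hy
    obtain ⟨g1, g2, g3, g4⟩ := h2 σ hσ F H H' hH hext hcl
    have hcomp : comp (gr H') v = insert y (comp (gr H) v) := by
      have h1 : (gr H').Reachable v u := hvu.mono g3
      rw [comp_eq_of_reachable h1, hgr, comp_sup_edge_left, comp_isolated hyiso,
        comp_eq_of_reachable hvu, Set.union_singleton]
    have hyn : y ∉ comp (gr H) v := by
      intro hc
      obtain ⟨w, hw⟩ := nonisolated_of_reachable hc (Ne.symm hyv)
      exact hyiso w hw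
    have hcard : (comp (gr H') v).ncard = (comp (gr H) v).ncard + 1 := by
      rw [hcomp, Set.ncard_insert_of_notMem hyn (comp_gr_finite H v)]
    have hadj' : ∀ a b, (gr H').Adj a b → a ∈ F ∨ (gr H').Reachable v a := by
      intro a b hab
      have h1 : (gr H').Reachable v y := by
        have : y ∈ comp (gr H') v := by rw [hcomp]; exact Set.mem_insert _ _
        exact this
      rw [hgr, sup_adj, edge_adj] at hab
      rcases hab with hab | ⟨⟨rfl, rfl⟩ | ⟨rfl, rfl⟩, -⟩
      · rcases hadj a b hab with h3 | h3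
        · exact Or.inl h3
        · exact Or.inr (h3.mono g3)
      · exact Or.inr (hvu.mono g3)
      · exact Or.inr h1
    have hcl' : ∀ a ∈ F, ∀ b, (gr H').Adj a b → b ∈ F := by
      intro a ha b hab
      exact hcl a ha b ((g4 a ha b).1 hab)
    obtain ⟨H'', k1, k2, k3⟩ := ih H' g1 hcl' hadj'
    refine ⟨H'', Relation.ReflTransGen.trans hext k1, ?_, k3⟩
    rw [k2, hcard]
    omega

end EG71
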