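import Pool.Agent.R71.EG.Basic
import Pool.Agent.R71.EG.Stms

namespace EG71

open SimpleGraph

theorem pre_succ (h : ℕ → Mv) (n : ℕ) : pre h (n + 1) = pre h n ++ [h n] := by
  simp [pre, List.range_succ]

theorem pre_prefix (h : ℕ → Mv) {n m : ℕ} (hnm : n ≤ m) : pre h n <+: pre h m := by
  induction m, hnm using Nat.le_induction with
  | base => exact List.prefix_refl _
  | succ m _ ih => rw [pre_succ]; exact ih.trans (List.prefix_append _ _)

theorem mem_pre {h : ℕ → Mv} {n : ℕ} {p : Mv} : p ∈ pre h n ↔ ∃ i < n, h i = p := by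
  simp [pre]

theorem chain_prefix {H : ℕ → Hist} (hp : ∀ k, H k <+: H (k + 1)) {k l : ℕ} (hkl : k ≤ l) :
    H k <+: H l := by
  induction l, hkl using Nat.le_induction with
  | base => exact List.prefix_refl _
  | succ m _ ih => exact ih.trans (hp m)

theorem greenR_adj {h : ℕ → Mv} {a b : ℕ} :
    (greenR h).Adj a b ↔ (∃ n, h n = (s(a, b), true)) ∧ a ≠ b := by
  simp [greenR]

theorem whiteR_adj {h : ℕ → Mv} {a b : ℕ} :
    (whiteR h).Adj a b ↔ (∀ n, (h n).1 ≠ s(a, b)) ∧ a ≠ b := by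
  simp [whiteR]

theorem lim : S_LIM := by
  intro H hp hl
  have hlen : ∀ k, k ≤ (H k).length := by
    intro k
    induction k with
    | zero => exact Nat.zero_le _
    | succ k ih => exact Nat.succ_le_of_lt (lt_of_le_of_lt ih (hl k))
  have hlen' : ∀ n, n < (H (n + 1)).length := fun n => hlen (n + 1)
  let h : ℕ → Mv := fun n => (H (n + 1))[n]'(hlen' n)
  have hpre : ∀ k, pre h (H k).length = H k := by
    intro k
    apply List.ext_getElem
    · simp [pre]
    · intro i h1 h2
      simp only [pre, List.getElem_map, List.getElem_range]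
      show (H (i + 1))[i]'(hlen' i) = (H k)[i]
      rcases le_total (i + 1) k with hik | hik
      · exact (chain_prefix hp hik).getElem (hlen' i)
      · exact ((chain_prefix hp hik).getElem h2).symm
  have hmem : ∀ n, h n ∈ H (n + 1) := fun n => List.getElem_mem _
  have hmem2 : ∀ k p, p ∈ H k → ∃ n, h n = p := by
    intro k p hpk
    rw [← hpre k, mem_pre] at hpk
    obtain ⟨i, -, hi⟩ := hpk
    exact ⟨i, hi⟩
  have hsub : ∀ n, pre h n ++ [h n] <+: H (n + 1) := by
    intro n
    have := pre_prefix h (show n + 1 ≤ (H (n + 1)).length from hlen (n + 1))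
    rw [hpre, pre_succ] at this
    exact this
  refine ⟨h, hpre, ?_, ?_, ?_, ?_, ?_⟩
  · intro a b
    rw [greenR_adj]
    constructor
    · rintro ⟨⟨n, hn⟩, hab⟩
      exact ⟨n + 1, gr_adj.2 ⟨hn ▸ hmem n, hab⟩⟩
    · rintro ⟨k, hk⟩
      rw [gr_adj] at hk
      exact ⟨hmem2 k _ hk.1, hk.2⟩
  · intro a b
    rw [whiteR_adj]
    constructor
    · rintro ⟨h1, hab⟩
      refine ⟨hab, ?_⟩
      rintro k ⟨c, hc⟩
      obtain ⟨n, hn⟩ := hmem2 k _ hc
      exact h1 n (by rw [hn])
    · rintro ⟨hab, h1⟩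
      refine ⟨?_, hab⟩
      intro n hn
      apply h1 (n + 1)
      refine ⟨(h n).2, ?_⟩
      rw [← hn]
      exact hmem n
  · intro σ hσ n
    exact consS_prefix (hσ (n + 1)) (hsub n) (pre h n) (h n) [] rfl
  · intro τ hτ n
    exact consH_prefix (hτ (n + 1)) (hsub n) (pre h n) (h n) [] rfl
  · intro hleg n
    have h1 := hleg (n + 1)
    refine ⟨h1.1 _ (hmem n), ?_⟩
    intro i hi heq
    have h2 : ((pre h n ++ [h n]).map Prod.fst).Nodup :=
      h1.2.sublist ((hsub n).sublist.map _)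
    rw [List.map_append, List.nodup_append] at h2
    exact h2.2.2 (h i).1 (List.mem_map_of_mem (mem_pre.2 ⟨i, hi, rfl⟩)) (h n).1 (by simp) heq

end EG71
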