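import Pool.Agent.R71.EG.Basic
import Pool.Agent.R71.EG.Stms

namespace EG71

open SimpleGraph

/-- there is always a fresh pair -/
theorem exists_fresh_pair (H : Hist) (u v : ℕ) :
    ∃ e : Sym2 ℕ, ¬ e.IsDiag ∧ e ∉ ask H ∧ e ≠ s(u, v) := by
  obtain ⟨N, hN⟩ := ((ask_supp_finite H).union (Set.toFinite {u, v})).exists_notMem
  refine ⟨s(N, N + 1), by simp, ?_, ?_⟩
  · intro h
    exact hN (Or.inl ⟨N + 1, h⟩)
  · intro h
    apply hN
    right
    rw [Sym2.eq_iff] at h
    simp only [Set.mem_insert_iff, Set.mem_singleton_iff]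
    omega

theorem nonTight (h1 : S_LIM) (h2 : S_MONO) (h3 : S_INNER) : S_NONTIGHT := by
  classical
  intro τ H u v hleg hcons huv hr hn
  let Good : Hist → Prop := fun K => LegalH K ∧ ConsH τ K ∧ s(u, v) ∉ ask K
  have step : ∀ (e : Sym2 ℕ) (K : {K : Hist // Good K}), ∃ K' : {K : Hist // Good K},
      K.1 <+: K'.1 ∧ K.1.length < K'.1.length ∧
        (¬ e.IsDiag → e ≠ s(u, v) → e ∈ ask K'.1) := by
    rintro e ⟨K, hK1, hK2, hK3⟩
    have add : ∀ e' : Sym2 ℕ, ¬ e'.IsDiag → e' ∉ ask K → e' ≠ s(u, v) →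
        Good (K ++ [(e', τ K e')]) := by
      intro e' h4 h5 h6
      refine ⟨legalH_snoc hK1 _ h4 h5, consH_snoc hK2 e', ?_⟩
      rw [ask_snoc, Set.mem_insert_iff]
      rintro (h7 | h7)
      · exact h6 h7.symm
      · exact hK3 h7
    by_cases he : ¬ e.IsDiag ∧ e ∉ ask K ∧ e ≠ s(u, v)
    · refine ⟨⟨_, add e he.1 he.2.1 he.2.2⟩, List.prefix_append _ _, by simp, ?_⟩
      intro _ _
      show e ∈ ask (K ++ [(e, τ K e)])
      rw [ask_snoc]; exact Set.mem_insert _ _
    · obtain ⟨e', h4, h5, h6⟩ := exists_fresh_pair K u v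
      refine ⟨⟨_, add e' h4 h5 h6⟩, List.prefix_append _ _, by simp, ?_⟩
      intro h7 h8
      have h9 : e ∈ ask K := by
        by_contra h9
        exact he ⟨h7, h9, h8⟩
      show e ∈ ask (K ++ [(e', τ K e')])
      rw [ask_snoc]; exact Set.mem_insert_of_mem _ h9
  obtain ⟨f, hf⟩ := exists_surjective_nat (Sym2 ℕ)
  choose nxt hx1 hx2 hx3 using step
  let Hs : ℕ → {K : Hist // Good K} := fun n =>
    Nat.rec ⟨H, hleg, hcons, hn⟩ (fun n K => nxt (f n) K) n
  obtain ⟨h, hp, hg, hw, -, hc, hl⟩ := h1 (fun n => (Hs n).1) (fun n => hx1 (f n) (Hs n))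
    (fun n => hx2 (f n) (Hs n))
  have hwhite : whiteR h = edge u v := by
    ext a b
    rw [hw, edge_adj]
    constructor
    · rintro ⟨hab, hk⟩
      have : s(a, b) = s(u, v) := by
        by_contra hne
        obtain ⟨n, hn'⟩ := hf s(a, b)
        have h5 := hx3 (f n) (Hs n) (by rw [hn']; simpa using hab) (by rw [hn']; exact hne)
        rw [hn'] at h5
        have h6 : s(a, b) ∈ ask (Hs (n + 1)).1 := by
          show s(a, b) ∈ ask (nxt (f n) (Hs n)).1
          rw [hn']; exact h5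
        exact hk (n + 1) h6
      rw [Sym2.eq_iff] at this
      exact ⟨by tauto, hab⟩
    · rintro ⟨h5, hab⟩
      refine ⟨hab, ?_⟩
      intro k hk
      apply (Hs k).2.2.2
      have : s(u, v) = s(a, b) := by rw [Sym2.eq_iff]; tauto
      rw [this]; exact hk
  refine ⟨h, hl fun k => (Hs k).2.1, hc τ fun k => (Hs k).2.2.1, ?_⟩
  intro B
  have hreach : (greenR h).Reachable u v := by
    refine hr.mono ?_
    intro a b hab
    exact (hg a b).2 ⟨0, hab⟩
  refine ⟨?_, ?_⟩
  · rw [hwhite]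
    intro hbot
    have : (edge u v : SimpleGraph ℕ).Adj u v := by rw [edge_adj]; simp [huv]
    rw [hbot] at this
    simp at this
  · by_cases hm : greenR h ∈ SB B
    · left
      intro X hX _
      exact h2 B _ _ hX hm
    · right
      intro X _ hX hXS
      rw [hwhite] at hX
      exact hm (h3 B _ u v hreach (h2 B _ _ hX hXS))

end EG71
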