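import Pool.Agent.R71.EG.Basic
import Pool.Agent.R71.EG.Stms

namespace EG71

open SimpleGraph

/-- a finite component with two vertices at least of an acyclic graph has a leaf -/
theorem exists_leaf {G : SimpleGraph ℕ} (hG : G.IsAcyclic) (c : ℕ) (hfin : (comp G c).Finite)
    (hc : ∃ y, G.Adj c y) : ∃ w, G.Reachable c w ∧ ∃! y, G.Adj w y := by
  classical
  obtain ⟨w, hw, hmax⟩ := Set.exists_max_image (comp G c) (fun w => G.dist c w) hfin
    ⟨c, self_mem_comp G c⟩
  have hw' : G.Reachable c w := hw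
  have hwc : w ≠ c := by
    rintro rfl
    obtain ⟨y, hy⟩ := hc
    have h1 := hmax y hy.reachable
    rw [SimpleGraph.dist_self] at h1
    have h2 : G.dist w y = 0 := by omega
    have h3 := (hy.reachable.dist_eq_zero_iff).1 h2
    exact hy.ne h3
  obtain ⟨p, hp, hpl⟩ := hw'.exists_path_of_dist
  have key : ∀ y, G.Adj w y → y = p.penultimate := by
    intro y hy
    have hry : G.Reachable c y := hw'.trans hy.reachable
    obtain ⟨q, hq, hql⟩ := hry.exists_path_of_dist
    have hd : G.dist c w = G.dist c y + 1 := by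
      rcases hG.dist_eq_dist_add_one_of_adj_of_reachable c hy hw' with h | h
      · exact h
      · have := hmax y hry
        omega
    have hwq : w ∉ q.support := by
      intro h
      have h1 := SimpleGraph.dist_le (q.takeUntil w h)
      have h2 := q.length_takeUntil_le_length h
      omega
    have hyp : y ∈ p.support := hG.mem_support_of_ne_mem_support_of_adj_of_isPath hp hq hy hwq
    exact hG.eq_penultimate_of_adj_end hp hy hyp
  obtain ⟨x, hx⟩ := nonisolated_of_reachable hw' (Ne.symm hwc)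
  exact ⟨w, hw', x, hx, fun y hy => (key y hy).trans (key x hx).symm⟩

/-- a component with three vertices at least has a vertex of degree two at least -/
theorem exists_nonleaf {G : SimpleGraph ℕ} (c : ℕ) (h3 : 3 ≤ (comp G c).ncard) :
    ∃ w, G.Reachable c w ∧ ¬ ∃! y, G.Adj w y := by
  by_contra hcon
  push Not at hcon
  obtain ⟨y, hy, hyu⟩ := hcon c (Reachable.refl _)
  obtain ⟨x, hx, hxu⟩ := hcon y hy.reachable
  have hxc : c = x := hxu c hy.symm
  have hsub : comp G c ⊆ {c, y} := by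
    intro w hw
    refine closed_reachable (F := {c, y}) ?_ (by simp) hw
    rintro a (rfl | ha) b hab
    · right; exact hyu b hab
    · rw [Set.mem_singleton_iff] at ha; subst ha
      left; rw [hxc]; exact hxu b hab
  have := Set.ncard_le_ncard hsub (Set.toFinite _)
  have h2 : ({c, y} : Set ℕ).ncard ≤ 2 := Set.ncard_insert_le _ _ |>.trans (by simp)
  omega

theorem leafs_join {G : SimpleGraph ℕ} {n u : ℕ} (hnu : ¬ G.Reachable n u)
    (hu : ∃ y, G.Adj u y) :
    leafs (G ⊔ edge n u) n =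
      {w | G.Reachable n w ∧ ((w ≠ n ∧ ∃! y, G.Adj w y) ∨ (w = n ∧ ∀ y, ¬ G.Adj n y))} ∪
        (leafs G u \ {u}) := by
  have hne : n ≠ u := by rintro rfl; exact hnu (Reachable.refl _)
  have hnadj : ∀ {w}, G.Reachable n w → w ≠ u := by
    rintro w hw rfl; exact hnu hw
  have huadj : ∀ {w}, G.Reachable u w → w ≠ n := by
    rintro w hw rfl; exact hnu hw.symm
  have hadj : ∀ w, w ≠ n → w ≠ u → ∀ y, (G ⊔ edge n u).Adj w y ↔ G.Adj w y := by
    intro w h1 h2 y
    rw [sup_adj, edge_adj]
    constructor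
    · rintro (h | ⟨⟨h, -⟩ | ⟨h, -⟩, -⟩)
      · exact h
      · exact absurd h h1
      · exact absurd h h2
    · exact Or.inl
  have hun : (G ⊔ edge n u).Adj n u := by
    rw [sup_adj, edge_adj]; exact Or.inr ⟨Or.inl ⟨rfl, rfl⟩, hne⟩
  ext w
  simp only [leafs, Set.mem_ofPred_eq, Set.mem_union, Set.mem_sdiff, Set.mem_singleton_iff]
  have hr : (G ⊔ edge n u).Reachable n w ↔ (G.Reachable n w ∨ G.Reachable u w) := by
    have : w ∈ comp (G ⊔ edge n u) n ↔ w ∈ comp G n ∪ comp G u := by
      rw [comp_sup_edge_left]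
    exact this
  rw [hr]
  by_cases hwn : w = n
  · subst hwn
    have h1 : ¬ G.Reachable u w := fun h => hnu h.symm
    constructor
    · rintro ⟨-, y, hy, hyu⟩
      refine Or.inl ⟨Reachable.refl _, Or.inr ⟨rfl, fun x hx => ?_⟩⟩
      have h2 := hyu x (Or.inl hx)
      have h3 := hyu u hun
      exact hnadj hx.reachable (h2.trans h3.symm)
    · rintro (⟨-, ⟨h, -⟩ | ⟨-, h⟩⟩ | ⟨⟨h, -⟩, -⟩)
      · exact absurd rfl h
      · refine ⟨Or.inl (Reachable.refl _), u, hun, ?_⟩
        intro y hy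
        rw [sup_adj, edge_adj] at hy
        rcases hy with hy | ⟨⟨-, hy⟩ | ⟨hy, hy'⟩, -⟩
        · exact absurd hy (h y)
        · exact hy
        · exact absurd hy hne
      · exact absurd h h1
  · by_cases hwu : w = u
    · subst hwu
      obtain ⟨y, hy⟩ := hu
      constructor
      · rintro ⟨-, x, hx, hxu⟩
        exfalso
        have h2 := hxu y (Or.inl hy)
        have h3 := hxu n hun.symm
        exact huadj hy.reachable (h2.trans h3.symm)
      · rintro (⟨h, -⟩ | ⟨-, h⟩)
        · exact absurd h hnu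
        · exact absurd rfl h
    · have h4 : (∃! y, (G ⊔ edge n u).Adj w y) ↔ ∃! y, G.Adj w y := by
        simp only [hadj w hwn hwu]
      rw [h4]
      constructor
      · rintro ⟨h | h, h'⟩
        · exact Or.inl ⟨h, Or.inl ⟨hwn, h'⟩⟩
        · exact Or.inr ⟨⟨h, h'⟩, hwu⟩
      · rintro (⟨h, ⟨-, h'⟩ | ⟨h', -⟩⟩ | ⟨⟨h, h'⟩, -⟩)
        · exact ⟨Or.inl h, h'⟩
        · exact absurd h' hwn
        · exact ⟨Or.inr h, h'⟩

theorem leafs_comp_eq {G : SimpleGraph ℕ} {u v : ℕ} (h : G.Reachable u v) :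
    leafs G u = leafs G v := by
  ext w
  simp only [leafs, Set.mem_ofPred_eq]
  constructor
  · rintro ⟨h1, h2⟩; exact ⟨h.symm.trans h1, h2⟩
  · rintro ⟨h1, h2⟩; exact ⟨h.trans h1, h2⟩

theorem parity : S_PARITY := by
  classical
  intro G n c hG hfn hfc hnc h3
  have hcy : ∃ y, G.Adj c y := by
    by_contra hcon
    push Not at hcon
    rw [comp_isolated hcon] at h3
    simp at h3
  obtain ⟨u₁, hr1, hl1⟩ := exists_leaf hG c hfc hcy
  obtain ⟨u₂, hr2, hl2⟩ := exists_nonleaf c h3
  have hadj : ∀ u, G.Reachable c u → ∃ y, G.Adj u y := by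
    intro u hu
    by_cases h : c = u
    · subst h; exact hcy
    · exact nonisolated_of_reachable hu h
  have hn : ∀ u, G.Reachable c u → ¬ G.Reachable n u := fun u hu h => hnc (h.trans hu.symm)
  set A : Set ℕ :=
    {w | G.Reachable n w ∧ ((w ≠ n ∧ ∃! y, G.Adj w y) ∨ (w = n ∧ ∀ y, ¬ G.Adj n y))} with hA
  have hAfin : A.Finite := hfn.subset fun w hw => hw.1
  have hLfin : (leafs G c).Finite := hfc.subset fun w hw => hw.1
  have hform : ∀ u, G.Reachable c u →
      (leafs (G ⊔ edge n u) n).ncard = A.ncard + (leafs G c \ {u}).ncard := by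
    intro u hu
    rw [leafs_join (hn u hu) (hadj u hu), ← leafs_comp_eq hu]
    apply Set.ncard_union_eq
    · rw [Set.disjoint_left]
      rintro w hw ⟨hw', -⟩
      exact hn w hw'.1 hw.1
    · exact hAfin
    · exact hLfin.subset Set.sdiff_subset
  refine ⟨u₁, u₂, hr1, hr2, ?_⟩
  rw [hform u₁ hr1, hform u₂ hr2]
  have e2 : leafs G c \ {u₂} = leafs G c := by
    apply Set.sdiff_singleton_eq_self
    rintro ⟨-, h⟩; exact hl2 h
  have e1 : (leafs G c \ {u₁}).ncard + 1 = (leafs G c).ncard :=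
    Set.ncard_sdiff_singleton_add_one ⟨hr1, hl1⟩ hLfin
  rw [e2, ← e1, ← add_assoc, Nat.even_add_one, not_not]

end EG71
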