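import Pool.Agent.R71.EG.Basic
import Pool.Agent.R71.EG.Stms

namespace EG71

open SimpleGraph

/-- The state of the run against `τ` after the stages `< n`. -/
def StA (τ : Hist → Sym2 ℕ → Bool) (z : ℕ → Bool) (n : ℕ) (H : Hist) : Prop :=
  LegalH H ∧ ConsH τ H ∧ ask H = {e | ∃ a b, a < b ∧ b < n ∧ e = s(a, b) ∧ 1 < b} ∧
    (gr H).IsAcyclic ∧ CodeA (gr H) z

theorem stA_start (τ : Hist → Sym2 ℕ → Bool) (z : ℕ → Bool) : StA τ z 2 [] := by
  refine ⟨legalH_nil, consH_nil τ, ?_, ?_, ?_⟩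
  · rw [ask_nil]
    ext e
    simp only [Set.mem_empty_iff_false, Set.mem_ofPred_eq, false_iff]
    rintro ⟨a, b, h1, h2, -, h3⟩
    omega
  · rw [gr_nil]; exact isAcyclic_bot
  · intro m v _ hf
    obtain ⟨a, b, c, a', b', c', -, h2, -⟩ := hf
    rw [gr_nil] at h2
    simp at h2

/-- a finite set of edges of the limit is already green at some finite stage -/
theorem stage_of_finite {G : SimpleGraph ℕ} {K : ℕ → SimpleGraph ℕ}
    (hG : ∀ a b, G.Adj a b ↔ ∃ k, (K k).Adj a b) (hK : ∀ k l, k ≤ l → K k ≤ K l)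
    {A : Set ℕ} (hA : A.Finite) : ∃ k, ∀ a ∈ A, ∀ b ∈ A, G.Adj a b → (K k).Adj a b := by
  classical
  have h1 : ∀ p : ℕ × ℕ, ∃ k, G.Adj p.1 p.2 → (K k).Adj p.1 p.2 := by
    intro p
    by_cases h : G.Adj p.1 p.2
    · obtain ⟨k, hk⟩ := (hG _ _).1 h
      exact ⟨k, fun _ => hk⟩
    · exact ⟨0, fun h' => absurd h' h⟩
  choose f hf using h1
  refine ⟨(hA.toFinset ×ˢ hA.toFinset).sup f, ?_⟩
  intro a ha b hb hab
  have : f (a, b) ≤ (hA.toFinset ×ˢ hA.toFinset).sup f :=
    Finset.le_sup (f := f) (by simp [ha, hb])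
  exact hK _ _ this (hf (a, b) hab)

theorem partA (h1 : S_STAGEA) (h2 : S_LIM) : S_PARTA := by
  classical
  intro τ hτ z
  have step : ∀ (n : ℕ) (H : {H : Hist // StA τ z (n + 2) H}),
      ∃ H' : {H : Hist // StA τ z (n + 3) H}, H.1 <+: H'.1 ∧ H.1.length < H'.1.length := by
    rintro n ⟨H, hl, hc, ha, hac, hcode⟩
    obtain ⟨H', p1, p2, p3, p4, p5, p6, p7⟩ :=
      h1 τ hτ z (n + 2) (by omega) H hl hc ha hac hcode
    exact ⟨⟨H', p3, p4, p5, p6, p7⟩, p1, p2⟩
  choose nxt hn1 hn2 using step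
  let Hs : (n : ℕ) → {H : Hist // StA τ z (n + 2) H} := fun n =>
    Nat.rec ⟨[], stA_start τ z⟩ (fun n H => nxt n H) n
  have hs1 : ∀ n, (Hs n).1 <+: (Hs (n + 1)).1 := fun n => hn1 n (Hs n)
  have hs2 : ∀ n, (Hs n).1.length < (Hs (n + 1)).1.length := fun n => hn2 n (Hs n)
  obtain ⟨h, -, hg, hw, -, hc, hleg⟩ := h2 (fun n => (Hs n).1) hs1 hs2
  refine ⟨h, hleg fun k => (Hs k).2.1, hc τ fun k => (Hs k).2.2.1, ?_, ?_⟩
  · ext a b
    rw [hw, edge_adj]
    constructor
    · rintro ⟨hab, hk⟩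
      refine ⟨?_, hab⟩
      have key : ∀ a b : ℕ, a < b → (∀ k, s(a, b) ∉ ask (Hs k).1) → a = 0 ∧ b = 1 := by
        intro a b hab' hk'
        by_contra hcon
        have hb : 1 < b := by omega
        apply hk' b
        rw [(Hs b).2.2.2.1]
        exact ⟨a, b, hab', by omega, rfl, hb⟩
      rcases lt_or_gt_of_ne hab with h3 | h3
      · obtain ⟨rfl, rfl⟩ := key a b h3 hk
        exact Or.inl ⟨rfl, rfl⟩
      · obtain ⟨rfl, rfl⟩ := key b a h3 (fun k => by rw [Sym2.eq_swap]; exact hk k)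
        exact Or.inr ⟨rfl, rfl⟩
    · rintro ⟨hab, hne⟩
      refine ⟨hne, ?_⟩
      intro k hk
      rw [(Hs k).2.2.2.1] at hk
      obtain ⟨c, d, h3, -, h5, h6⟩ := hk
      rw [Sym2.eq_iff] at h5
      omega
  · have hmono : ∀ k l, k ≤ l → gr (Hs k).1 ≤ gr (Hs l).1 := by
      intro k l hkl
      induction l, hkl using Nat.le_induction with
      | base => exact le_rfl
      | succ m _ ih => exact ih.trans (gr_mono (hs1 m))
    intro m v hm hfat
    have hfin : (comp (greenR h) v).Finite := by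
      apply Set.finite_of_ncard_ne_zero
      rw [hm]; positivity
    obtain ⟨k, hk⟩ := stage_of_finite (K := fun k => gr (Hs k).1) hg hmono hfin
    have hagree : ∀ a, (greenR h).Reachable v a → ∀ b,
        (greenR h).Adj a b ↔ (gr (Hs k).1).Adj a b := by
      intro a ha b
      constructor
      · intro hab
        exact hk a ha b (ha.trans hab.reachable) hab
      · intro hab
        exact (hg a b).2 ⟨k, hab⟩
    have e1 := comp_agree hagree
    have e2 := leafs_agree hagree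
    have e3 := fat_agree hagree
    have := (Hs k).2.2.2.2.2 m v (by rw [e1]; exact hm) (e3.2 hfat)
    rw [e2] at this
    exact this

end EG71
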