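import Pool.Agent.R71.EG.Basic
import Pool.Agent.R71.EG.Stms

/-!
The run against a strategy of Seeker (problem MP_3d6d95_lc).
-/

namespace EG71

open SimpleGraph

/-- the state before stage `m` -/
structure PB (σ : Hist → Sym2 ℕ) (x : ℕ → Bool) (m : ℕ) (t : Hist × Set ℕ × Set ℕ) : Prop where
  st : St σ t.1 t.2.1 t.2.2
  fin : t.2.2.Finite
  noopen : ∀ a b, (gr t.1).Adj a b → a ∈ t.2.1
  bd : ∀ a ∈ t.2.2, a % 4 = 3 ∨ (a < 4 * m ∧ (a % 4 = 0 ∨ (a % 4 = 1 ∧ x (a / 4) = true)))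

/-- the transition at stage `m` -/
structure RB (σ : Hist → Sym2 ℕ) (x : ℕ → Bool) (m : ℕ) (t t' : Hist × Set ℕ × Set ℕ) : Prop where
  ext : Ext σ t.2.1 t.1 t'.1
  len : t.1.length < t'.1.length
  sub : t.2.1 ⊆ t'.2.1
  mem : m - 1 ∈ t'.2.1
  fat : ∃ v ∈ t'.2.1, (comp (gr t'.1) v).ncard = 2 ^ (4 * m) ∧ Fat (gr t'.1) v
  code : x m = true → ∃ v ∈ t'.2.1, (comp (gr t'.1) v).ncard = 2 ^ (4 * m + 1)

theorem fat_mono' {X Y : SimpleGraph ℕ} (h : X ≤ Y) {v : ℕ} (hf : Fat X v) : Fat Y v := by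
  obtain ⟨a, b, c, a', b', c', hn, h2, h3, h4, h5, h6, h7⟩ := hf
  exact ⟨a, b, c, a', b', c', hn, h h2, h h3, h h4, h h5, h6.mono h, h7.mono h⟩

theorem pb_start (σ : Hist → Sym2 ℕ) (x : ℕ → Bool) : PB σ x 1 ([], ∅, ∅) := by
  refine ⟨⟨⟨consS_nil σ, ?_, ?_⟩, Set.finite_empty, ?_, ?_, ?_⟩, Set.finite_empty, ?_, ?_⟩
  · show (gr []).IsAcyclic
    rw [gr_nil]; exact isAcyclic_bot
  · intro u v huv hr
    exfalso
    have hr' : (gr []).Reachable u v := hr
    rw [gr_nil, reachable_bot] at hr'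
    exact huv hr'
  · intro a ha; exact absurd ha (Set.notMem_empty a)
  · intro a ha; exact absurd ha (Set.notMem_empty a)
  · intro a ha; exact absurd ha (Set.notMem_empty a)
  · intro a b hab
    have hab' : (gr []).Adj a b := hab
    rw [gr_nil] at hab'
    exact absurd hab' (by simp)
  · intro a ha; exact absurd ha (Set.notMem_empty a)

theorem pb_step (h1 : S_STAGEB) {σ : Hist → Sym2 ℕ} (hσ : NS σ) (x : ℕ → Bool) (m : ℕ)
    (t : Hist × Set ℕ × Set ℕ) (ht : PB σ x (m + 1) t) :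
    ∃ t', PB σ x (m + 2) t' ∧ RB σ x (m + 1) t t' := by
  obtain ⟨H', F', E', k1, k2, k3, k4, k5, k6, k7, k8, k9, k10⟩ :=
    h1 σ hσ x (m + 1) (by omega) t.1 t.2.1 t.2.2 ht.st ht.fin ht.noopen ht.bd
  exact ⟨(H', F', E'), ⟨k5, k6, k7, k8⟩, ⟨k1, k2, k3, k4, k9, k10⟩⟩

theorem partB (h1 : S_STAGEB) (h2 : S_STEP) (h3 : S_LIM) : S_PARTB := by
  intro σ hσ x
  have hex : ∀ (m : ℕ) (t : {t // PB σ x (m + 1) t}),
      ∃ t' : {t' // PB σ x (m + 2) t'}, RB σ x (m + 1) t.1 t'.1 := by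
    intro m t
    obtain ⟨t', q1, q2⟩ := pb_step h1 hσ x m t.1 t.2
    exact ⟨⟨t', q1⟩, q2⟩
  choose nxt hnxt using hex
  let s : (m : ℕ) → {t // PB σ x (m + 1) t} := fun m =>
    Nat.rec (motive := fun m => {t // PB σ x (m + 1) t}) ⟨([], ∅, ∅), pb_start σ x⟩
      (fun m t => nxt m t) m
  have hs : ∀ m, RB σ x (m + 1) (s m).1 (s (m + 1)).1 := fun m => hnxt m (s m)
  have hpb : ∀ m, PB σ x (m + 1) (s m).1 := fun m => (s m).2
  clear_value s
  set H : ℕ → Hist := fun m => (s m).1.1 with hH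
  set F : ℕ → Set ℕ := fun m => (s m).1.2.1 with hF
  set E : ℕ → Set ℕ := fun m => (s m).1.2.2 with hE
  have hst : ∀ m, St σ (H m) (F m) (E m) := fun m => (hpb m).st
  have hpre : ∀ m, H m <+: H (m + 1) := fun m => Ext.pfx (hs m).ext
  have hstep : ∀ m, ∀ a ∈ F m, ∀ b, (gr (H (m + 1))).Adj a b ↔ (gr (H m)).Adj a b := fun m =>
    (h2 σ hσ (F m) (H m) (H (m + 1)) (hst m).inv (hs m).ext (hst m).closed).2.2.2
  have hFmono : Monotone F := monotone_nat_of_le_succ fun m => (hs m).sub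
  have hgrmono : Monotone fun m => gr (H m) := monotone_nat_of_le_succ fun m => gr_mono (hpre m)
  have hmem : ∀ n, n ∈ F (n + 1) := fun n => by
    have := (hs n).mem
    simpa using this
  have hfar : ∀ m d, ∀ a ∈ F m, ∀ b, (gr (H (m + d))).Adj a b ↔ (gr (H m)).Adj a b := by
    intro m d
    induction d with
    | zero => intro a _ b; exact Iff.rfl
    | succ d ih =>
      intro a ha b
      rw [← ih a ha b]
      exact hstep (m + d) a (hFmono (Nat.le_add_right m d) ha) b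
  obtain ⟨h, -, hgreen, hwhite, hcons, -, hlegal⟩ := h3 H hpre (fun m => (hs m).len)
  have hadj : ∀ m, ∀ a ∈ F m, ∀ b, (greenR h).Adj a b ↔ (gr (H m)).Adj a b := by
    intro m a ha b
    rw [hgreen]
    constructor
    · rintro ⟨k, hk⟩
      rcases le_total k m with hkm | hkm
      · exact hgrmono hkm hk
      · obtain ⟨d, rfl⟩ := Nat.exists_eq_add_of_le hkm
        exact (hfar m d a ha b).1 hk
    · intro hab
      exact ⟨m, hab⟩
  have hle : ∀ m, gr (H m) ≤ greenR h := by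
    intro m a b hab
    exact (hgreen a b).2 ⟨m, hab⟩
  have hcomp : ∀ m, ∀ a ∈ F m, comp (greenR h) a = comp (gr (H m)) a := by
    intro m a ha
    refine comp_agree (X := gr (H m)) (Y := greenR h) ?_
    intro y hy b
    have hyF : y ∈ F m := closed_reachable (hst m).closed ha hy
    exact (hadj m y hyF b).symm
  have hclosed : ∀ m, ∀ a ∈ F m, ∀ b, (greenR h).Adj a b → b ∈ F m := by
    intro m a ha b hab
    exact (hst m).closed a ha b ((hadj m a ha b).1 hab)
  refine ⟨h, hlegal fun k => legalH_of_NS hσ (hst k).inv.cons,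
    hcons σ (fun k => (hst k).inv.cons), ?_, ⟨?_, ?_, ?_, ?_⟩, ?_⟩
  · intro u v huv hr hw
    obtain ⟨-, hw⟩ := (hwhite u v).1 hw
    apply hw (u + 1)
    apply (hst (u + 1)).inv.tight u v huv
    have : v ∈ comp (greenR h) u := hr
    rw [hcomp (u + 1) u (hmem u)] at this
    exact this
  · intro v c hc
    have hed : ∀ e ∈ c.edges, e ∈ (gr (H (v + 1))).edgeSet := by
      intro e he
      induction e with
      | _ a b =>
        have ha : a ∈ c.support := c.fst_mem_support_of_mem_edges he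
        have hab : (greenR h).Adj a b := c.adj_of_mem_edges he
        have hra : (greenR h).Reachable v a := ⟨c.takeUntil a ha⟩
        have haF : a ∈ F (v + 1) := closed_reachable (hclosed (v + 1)) (hmem v) hra
        exact (hadj (v + 1) a haF b).1 hab
    exact (hst (v + 1)).inv.acyc _ (hc.transfer hed)
  · intro v
    obtain ⟨a, -, ha⟩ := (hst (v + 1)).pow v (hmem v)
    exact ⟨a, by rw [hcomp (v + 1) v (hmem v), ha]⟩
  · intro u v heq
    have hu : u ∈ F (max (u + 1) (v + 1)) := hFmono (le_max_left _ _) (hmem u)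
    have hv : v ∈ F (max (u + 1) (v + 1)) := hFmono (le_max_right _ _) (hmem v)
    rw [hcomp _ u hu, hcomp _ v hv] at heq
    exact ((hst _).dist u hu v hv heq).mono (hle _)
  · refine ⟨1, fun m hm => ?_⟩
    obtain ⟨n, rfl⟩ := Nat.exists_eq_add_of_le' hm
    obtain ⟨v, hv1, hv2, hv3⟩ := (hs n).fat
    refine ⟨v, ?_, fat_mono' (hle (n + 1)) hv3⟩
    rw [hcomp (n + 1) v hv1]
    exact hv2
  · refine ⟨1, fun m hm => ?_⟩
    obtain ⟨n, rfl⟩ := Nat.exists_eq_add_of_le' hm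
    constructor
    · rintro ⟨v, hv⟩
      rw [hcomp (v + 1) v (hmem v)] at hv
      obtain ⟨a, ha, hpow⟩ := (hst (v + 1)).pow v (hmem v)
      rw [hpow] at hv
      have hav : a = 4 * (n + 1) + 1 := Nat.pow_right_injective (le_refl 2) hv
      rcases (hpb (v + 1)).bd a ha with h4 | ⟨-, h4 | ⟨-, h4⟩⟩
      · omega
      · omega
      · rw [hav, show (4 * (n + 1) + 1) / 4 = n + 1 by omega] at h4
        exact h4
    · intro hx
      obtain ⟨v, hv1, hv2⟩ := (hs n).code hx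
      refine ⟨v, ?_⟩
      rw [hcomp (n + 1) v hv1]
      exact hv2

end EG71
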