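import Pool.Agent.R71.EG.Basic
import Pool.Agent.R71.EG.Stms

namespace EG71

open SimpleGraph

theorem L.finite {G : SimpleGraph ℕ} (hG : L G) (v : ℕ) : (comp G v).Finite := by
  obtain ⟨a, ha⟩ := hG.pow v
  apply Set.finite_of_ncard_ne_zero
  rw [ha]; positivity

/-- a component of `G` which is closed for `H` is a component of `H` -/
theorem rigid_core {G H : SimpleGraph ℕ} (hG : L G) (hH : L H) (v : ℕ)
    (hcl : ∀ a ∈ comp G v, comp H a ⊆ comp G v) : ∀ a ∈ comp G v, H.Reachable v a := by
  classical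
  have hfin := hG.finite v
  let S := hfin.toFinset
  have hS : ∀ x, x ∈ S ↔ x ∈ comp G v := fun x => hfin.mem_toFinset
  let ψ : ℕ → ℕ := fun w => Nat.log 2 (comp H w).ncard
  have hψ : ∀ w, (comp H w).ncard = 2 ^ ψ w := by
    intro w
    obtain ⟨a, ha⟩ := hH.pow w
    have : ψ w = a := by
      show Nat.log 2 (comp H w).ncard = a
      rw [ha, Nat.log_pow (by norm_num)]
    rw [this, ha]
  have hreach : ∀ x y, ψ x = ψ y → H.Reachable x y := by
    intro x y hxy
    apply hH.dist
    rw [hψ, hψ, hxy]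
  obtain ⟨b, hb⟩ := hG.pow v
  have hcard : S.card = 2 ^ b := by
    rw [← hb, Set.ncard_eq_toFinset_card _ hfin]
  have hsum : ∑ a ∈ S.image ψ, 2 ^ a = ∑ a ∈ ({b} : Finset ℕ), 2 ^ a := by
    rw [Finset.sum_singleton, ← hcard, Finset.card_eq_sum_card_image ψ S]
    apply Finset.sum_congr rfl
    intro a ha
    rw [Finset.mem_image] at ha
    obtain ⟨w, hw, rfl⟩ := ha
    rw [← hψ w]
    have : comp H w = ((S.filter fun x => ψ x = ψ w : Finset ℕ) : Set ℕ) := by
      ext x
      simp only [Finset.coe_filter, Set.mem_ofPred_eq]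
      constructor
      · intro hx
        refine ⟨(hS x).2 (hcl w ((hS w).1 hw) hx), ?_⟩
        show Nat.log 2 (comp H x).ncard = Nat.log 2 (comp H w).ncard
        rw [comp_eq_of_reachable hx]
      · rintro ⟨_, hx⟩
        exact hreach w x hx.symm
    rw [this, Set.ncard_coe_finset]
  have himg : S.image ψ = {b} := Finset.geomSum_injective (n := 2) le_rfl hsum
  intro a ha
  apply hreach
  have h1 : ψ v ∈ S.image ψ := Finset.mem_image_of_mem _ ((hS v).2 (self_mem_comp G v))
  have h2 : ψ a ∈ S.image ψ := Finset.mem_image_of_mem _ ((hS a).2 ha)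
  rw [himg, Finset.mem_singleton] at h1 h2
  rw [h1, h2]

theorem rigid_fin {G H : SimpleGraph ℕ} (hG : L G) (hH : L H) (h : SubF H G) : SubF G H := by
  classical
  let T : Set ℕ := {x | ∃ y, H.Adj x y ∧ ¬ G.Adj x y}
  have hT : T.Finite := by
    have h1 : T ⊆ ⋃ e ∈ H.edgeSet \ G.edgeSet, {v | v ∈ e} := by
      rintro v ⟨w, hw, hw2⟩
      simp only [Set.mem_iUnion]
      exact ⟨s(v, w), ⟨by simpa using hw, by simpa using hw2⟩, Sym2.mem_mk_left v w⟩
    refine Set.Finite.subset (h.biUnion ?_) h1
    intro e _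
    induction e with
    | _ a b =>
      have : {v | v ∈ s(a, b)} = ({a, b} : Set ℕ) := by ext v; simp
      rw [this]; exact Set.toFinite _
  let Bad : Set ℕ := ⋃ t ∈ T, comp G t
  have hBad : Bad.Finite := hT.biUnion fun t _ => hG.finite t
  have key : ∀ v w, v ∉ Bad → G.Adj v w → H.Adj v w := by
    intro v w hv hvw
    by_contra hnot
    have hnT : ∀ a ∈ comp G v, a ∉ T := by
      intro a ha haT
      apply hv
      simp only [Bad, Set.mem_iUnion]
      exact ⟨a, haT, Reachable.symm ha⟩
    have hHG : ∀ a ∈ comp G v, ∀ b, H.Adj a b → G.Adj a b := by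
      intro a ha b hab
      by_contra hc
      exact hnT a ha ⟨b, hab, hc⟩
    have hcl : ∀ a ∈ comp G v, comp H a ⊆ comp G v := by
      intro a ha b hb
      refine closed_reachable (G := H) (F := comp G v) ?_ ha hb
      intro x hx y hxy
      exact Reachable.trans hx (hHG x hx y hxy).reachable
    have hr := rigid_core hG hH v hcl w hvw.reachable
    have hbr := isAcyclic_iff_forall_adj_isBridge.1 hG.acyc hvw
    rw [isBridge_iff] at hbr
    apply hbr
    have walk : ∀ {x y : ℕ} (p : H.Walk x y), x ∈ comp G v →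
        (G.deleteEdges {s(v, w)}).Reachable x y := by
      intro x y p
      induction p with
      | nil => intro _; exact Reachable.refl _
      | @cons a b c hab _ ih =>
        intro ha
        have h1 := hHG a ha b hab
        refine Reachable.trans (Adj.reachable ?_) (ih (Reachable.trans ha h1.reachable))
        rw [deleteEdges_adj]
        refine ⟨h1, ?_⟩
        rw [Set.mem_singleton_iff, Sym2.eq_iff]
        rintro (⟨rfl, rfl⟩ | ⟨rfl, rfl⟩)
        · exact hnot hab
        · exact hnot hab.symm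
    obtain ⟨p⟩ := hr
    exact walk p (self_mem_comp G v)
  have hsub : G.edgeSet \ H.edgeSet ⊆ (fun p : ℕ × ℕ => s(p.1, p.2)) '' (Bad ×ˢ Bad) := by
    rintro e ⟨h1, h2⟩
    induction e with
    | _ a b =>
      rw [mem_edgeSet] at h1 h2
      refine ⟨(a, b), ⟨?_, ?_⟩, rfl⟩
      · by_contra hc
        exact h2 (key a b hc h1)
      · by_contra hc
        exact h2 (key b a hc h1.symm).symm
  exact ((hBad.prod hBad).image _).subset hsub

theorem rigid_conn {G H : SimpleGraph ℕ} (hG : L G) (hH : L H)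
    (h : ∀ u v, H.Reachable u v → G.Reachable u v) : ∀ u v, G.Reachable u v → H.Reachable u v := by
  intro u v huv
  refine rigid_core hG hH u ?_ v huv
  intro a ha b hb
  exact Reachable.trans ha (h a b hb)

theorem rigid71 : S_RIGID := by
  intro B X hX hmem
  rcases hmem with ⟨v, hv⟩ | ⟨H, hH, h1, h2⟩ | ⟨H, -, hH, -, h1, u, v, h2, h3⟩
  · exact hv (hX.finite v)
  · exact h2 (rigid_fin hX hH h1)
  · exact h3 (rigid_conn hX hH h1 u v h2)

end EG71
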