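import Pool.Agent.R71.EG.Stms

namespace EG71

open SimpleGraph Cardinal

theorem sdr : S_SDR := by
  intro I Q hI f hf
  obtain ⟨r, wo, hr⟩ := Cardinal.exists_ord_eq I
  have hseg : ∀ i : I, Cardinal.mk {j : I // r j i} < Cardinal.continuum := by
    intro i
    refine lt_of_lt_of_le ?_ hI
    exact Cardinal.card_typein_lt i hr
  have hcb : Cardinal.mk (ℕ → Bool) = Cardinal.continuum := by simp
  have key : ∀ (i : I) (g : ∀ j : I, r j i → (ℕ → Bool)),
      ∃ x : ℕ → Bool, ∀ (j : I) (hj : r j i), f i x ≠ f j (g j hj) := by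
    intro i g
    by_contra hc
    push Not at hc
    choose φ hφ hφ2 using hc
    have hinj : Function.Injective (fun x => (⟨φ x, hφ x⟩ : {j : I // r j i})) := by
      intro x y hxy
      simp only [Subtype.mk.injEq] at hxy
      apply hf i
      rw [hφ2 x, hφ2 y]
      have : ∀ (a b : I) (ha : r a i) (hb : r b i), a = b → f a (g a ha) = f b (g b hb) := by
        intro a b ha hb hab; subst hab; rfl
      exact this _ _ _ _ hxy
    have h1 := Cardinal.mk_le_of_injective hinj
    rw [hcb] at h1
    exact absurd (hseg i) (not_lt.2 h1)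
  classical
  let c : I → (ℕ → Bool) := wo.wf.fix (fun i g => Classical.choose (key i g))
  have hc : ∀ i, c i = Classical.choose (key i (fun j _ => c j)) := by
    intro i
    exact wo.wf.fix_eq _ i
  have hc2 : ∀ i j, r j i → f i (c i) ≠ f j (c j) := by
    intro i j hji
    rw [hc i]
    exact Classical.choose_spec (key i (fun j _ => c j)) j hji
  refine ⟨c, fun i j hij => ?_⟩
  by_cases h1 : r i j
  · exact (hc2 j i h1).symm
  by_cases h2 : r j i
  · exact hc2 i j h2
  exact absurd ((inferInstance : Std.Trichotomous r).trichotomous i j h1 h2) hij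

theorem card : S_CARD := by
  have hc : ∀ (A B : Type) [Countable A] [Countable B],
      Cardinal.mk (A → B) ≤ Cardinal.continuum := by
    intro A B _ _
    have : Cardinal.mk (A → B) = Cardinal.mk B ^ Cardinal.mk A := by simp
    rw [this]
    calc Cardinal.mk B ^ Cardinal.mk A ≤ Cardinal.continuum ^ Cardinal.mk A := 
          Cardinal.power_le_power_right ((Cardinal.mk_le_aleph0).trans Cardinal.aleph0_le_continuum)
      _ ≤ Cardinal.continuum ^ Cardinal.aleph0 :=
          Cardinal.power_le_power_left Cardinal.continuum_ne_zero Cardinal.mk_le_aleph0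
      _ = Cardinal.continuum := Cardinal.continuum_power_aleph0
  haveI : Countable (Sym2 ℕ) := by
    unfold Sym2; infer_instance
  haveI : Countable Mv := by unfold Mv; infer_instance
  haveI : Countable Hist := by unfold Hist; infer_instance
  have h1 : Cardinal.mk (Hist → Sym2 ℕ) ≤ Cardinal.continuum := hc _ _
  have h2 : Cardinal.mk (Hist → Sym2 ℕ → Bool) ≤ Cardinal.continuum := by
    have e : Cardinal.mk (Hist → Sym2 ℕ → Bool) = Cardinal.mk (Hist × Sym2 ℕ → Bool) :=
      Cardinal.mk_congr (Equiv.curry Hist (Sym2 ℕ) Bool).symm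
    rw [e]; exact hc _ _
  have : Cardinal.mk ((Hist → Sym2 ℕ) ⊕ (Hist → Sym2 ℕ → Bool)) =
      Cardinal.mk (Hist → Sym2 ℕ) + Cardinal.mk (Hist → Sym2 ℕ → Bool) := by simp
  unfold S_CARD
  rw [this]
  calc _ ≤ Cardinal.continuum + Cardinal.continuum := add_le_add h1 h2
    _ = Cardinal.continuum := Cardinal.continuum_add_self

end EG71
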