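import Pool.Agent.R71.EG.AskComp
import Pool.Agent.R71.EG.Parity

namespace EG71

open SimpleGraph

theorem fat_of_reachable {G : SimpleGraph ℕ} {u v : ℕ} (h : G.Reachable u v) (hF : Fat G u) :
    Fat G v := by
  obtain ⟨a, b, c, a', b', c', h0, h1, h2, h3, h4, h5, h6⟩ := hF
  exact ⟨a, b, c, a', b', c', h0, h1, h2, h3, h4, h.symm.trans h5, h.symm.trans h6⟩

/-- Intermediate positions of one stage: the vertices of `P` are processed. -/
structure PS (τ : Hist → Sym2 ℕ → Bool) (z : ℕ → Bool) (n : ℕ) (H₀ H : Hist) (P : Set ℕ) :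
    Prop where
  pref : H₀ <+: H
  legal : LegalH H
  cons : ConsH τ H
  asked : ask H = ask H₀ ∪ {e | ∃ w ∈ P, e = s(n, w)}
  closed : ∀ a ∈ P, ∀ b, (gr H₀).Adj a b → b ∈ P
  lt : ∀ a ∈ P, a < n
  edges : ∀ a b, (gr H).Adj a b → (gr H₀).Adj a b ∨ (a = n ∧ b ∈ P) ∨ (b = n ∧ a ∈ P)
  acyc : (gr H).IsAcyclic
  code : CodeA (gr H) z

theorem PS.agree {τ : Hist → Sym2 ℕ → Bool} {z : ℕ → Bool} {n : ℕ} {H₀ H : Hist} {P : Set ℕ}
    (h : PS τ z n H₀ H P) {c : ℕ} (hc : c ∉ P) (hlt : ∀ w, (gr H₀).Reachable c w → w < n) :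
    ∀ a, (gr H₀).Reachable c a → ∀ b, (gr H₀).Adj a b ↔ (gr H).Adj a b := by
  intro a ha b
  constructor
  · intro hab; exact gr_mono h.pref hab
  · intro hab
    rcases h.edges a b hab with h1 | ⟨h1, -⟩ | ⟨-, h1⟩
    · exact h1
    · exact absurd (hlt a ha) (by omega)
    · exact absurd (closed_reachable h.closed h1 ha.symm) hc

theorem ps_step {τ : Hist → Sym2 ℕ → Bool} {z : ℕ → Bool} {n : ℕ} {H₀ H : Hist} {P : Set ℕ}
    (hτ : TightStrat τ) (hask : ∀ w, w < n → s(n, w) ∉ ask H₀)
    (h : PS τ z n H₀ H P) (c : ℕ) (hc : c ∉ P) (hlt : ∀ w, (gr H₀).Reachable c w → w < n)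
    (hu : ∃ u, (gr H₀).Reachable c u ∧ ∀ m, (comp (gr H ⊔ edge n u) n).ncard = 2 ^ (4 * m) →
      Fat (gr H ⊔ edge n u) n → (Even (leafs (gr H ⊔ edge n u) n).ncard ↔ z m = true)) :
    ∃ H', PS τ z n H₀ H' (P ∪ comp (gr H₀) c) := by
  obtain ⟨u, hcu, hcode⟩ := hu
  have hag := h.agree hc hlt
  have hcomp : comp (gr H) c = comp (gr H₀) c := comp_agree hag
  have hmem : ∀ w, (gr H).Reachable c w ↔ (gr H₀).Reachable c w := by
    intro w
    have : w ∈ comp (gr H) c ↔ w ∈ comp (gr H₀) c := by rw [hcomp]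
    exact this
  have hcu' := (hmem u).2 hcu
  have hnu : ¬ (gr H).Reachable n u := by
    intro hh
    have h1 := (hmem n).1 (hcu'.trans hh.symm)
    exact absurd (hlt n h1) (lt_irrefl n)
  have hfresh : ∀ w, (gr H).Reachable u w → s(n, w) ∉ ask H := by
    intro w hw
    have hcw := (hmem w).1 (hcu'.trans hw)
    have hwn := hlt w hcw
    rw [h.asked]
    rintro (h1 | ⟨w', hw', h1⟩)
    · exact hask w hwn h1
    · rw [Sym2.eq_iff] at h1
      rcases h1 with ⟨-, rfl⟩ | ⟨h1, h2⟩
      · exact hc (closed_reachable h.closed hw' hcw.symm)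
      · omega
  obtain ⟨H', h1, -, h2, h3, h4, h5⟩ := askcomp τ hτ H h.legal h.cons n u hnu hfresh
  have hsub : ∀ w, (gr H).Reachable u w ↔ (gr H₀).Reachable c w := by
    intro w
    rw [← hmem w]
    exact ⟨fun h => hcu'.trans h, fun h => hcu'.symm.trans h⟩
  refine ⟨H', h.pref.trans h1, h2, h3, ?_, ?_, ?_, ?_, ?_, ?_⟩
  · rw [h4, h.asked]
    ext e
    simp only [Set.mem_union, Set.mem_ofPred_eq, hsub, mem_comp]
    constructor
    · rintro ((h6 | ⟨w, hw, rfl⟩) | ⟨w, hw, rfl⟩)
      · exact Or.inl h6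
      · exact Or.inr ⟨w, Or.inl hw, rfl⟩
      · exact Or.inr ⟨w, Or.inr hw, rfl⟩
    · rintro (h6 | ⟨w, hw | hw, rfl⟩)
      · exact Or.inl (Or.inl h6)
      · exact Or.inl (Or.inr ⟨w, hw, rfl⟩)
      · exact Or.inr ⟨w, hw, rfl⟩
  · rintro a (ha | ha) b hab
    · exact Or.inl (h.closed a ha b hab)
    · exact Or.inr (Reachable.trans ha hab.reachable)
  · rintro a (ha | ha)
    · exact h.lt a ha
    · exact hlt a ha
  · intro a b hab
    have key : (gr H).Adj a b → (gr H₀).Adj a b ∨ (a = n ∧ b ∈ P ∪ comp (gr H₀) c) ∨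
        (b = n ∧ a ∈ P ∪ comp (gr H₀) c) := by
      intro hab
      rcases h.edges a b hab with h6 | ⟨h6, h7⟩ | ⟨h6, h7⟩
      · exact Or.inl h6
      · exact Or.inr (Or.inl ⟨h6, Or.inl h7⟩)
      · exact Or.inr (Or.inr ⟨h6, Or.inl h7⟩)
    rcases h5 with h5 | h5
    · rw [h5] at hab; exact key hab
    · rw [h5, sup_adj, edge_adj] at hab
      rcases hab with hab | ⟨⟨rfl, rfl⟩ | ⟨rfl, rfl⟩, -⟩
      · exact key hab
      · exact Or.inr (Or.inl ⟨rfl, Or.inr hcu⟩)
      · exact Or.inr (Or.inr ⟨rfl, Or.inr hcu⟩)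
  · rcases h5 with h5 | h5
    · rw [h5]; exact h.acyc
    · rw [h5]; exact h.acyc.sup_edge_of_not_reachable hnu
  · rcases h5 with h5 | h5
    · rw [h5]; exact h.code
    · rw [h5]
      intro m v hcard hfat
      by_cases hv : (gr H ⊔ edge n u).Reachable v n
      · rw [comp_eq_of_reachable hv] at hcard
        rw [leafs_comp_eq hv]
        exact hcode m hcard (fat_of_reachable hv hfat)
      · have hvu : ¬ (gr H ⊔ edge n u).Reachable v u := fun h6 =>
          hv (h6.trans (reach_edge n u).symm)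
        have hag2 : ∀ a, (gr H ⊔ edge n u).Reachable v a →
            ∀ b, (gr H ⊔ edge n u).Adj a b ↔ (gr H).Adj a b := by
          intro a ha b
          have h6 : a ≠ n := by rintro rfl; exact hv ha
          have h7 : a ≠ u := by rintro rfl; exact hvu ha
          rw [sup_adj, edge_adj]
          constructor
          · rintro (h | ⟨⟨h, -⟩ | ⟨h, -⟩, -⟩)
            · exact h
            · exact absurd h h6
            · exact absurd h h7
          · exact Or.inl
        rw [← leafs_agree hag2]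
        rw [← comp_agree hag2] at hcard
        exact h.code m v hcard ((fat_agree hag2).2 hfat)

theorem phase1 {τ : Hist → Sym2 ℕ → Bool} {z : ℕ → Bool} {n : ℕ} {H₀ : Hist}
    (hτ : TightStrat τ) (hask : ∀ w, w < n → s(n, w) ∉ ask H₀)
    (hiso : ∀ y, ¬ (gr H₀).Adj n y)
    (hclt : ∀ c, c < n → ∀ w, (gr H₀).Reachable c w → w < n) :
    ∀ (k : ℕ) (H : Hist) (P : Set ℕ), PS τ z n H₀ H P →
      (∀ w ∈ P, (comp (gr H₀) w).ncard ≤ 2) →
      ({w | w < n ∧ (comp (gr H₀) w).ncard ≤ 2} \ P).ncard = k →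
      ∃ H' P', PS τ z n H₀ H' P' ∧ ∀ w, w < n → (comp (gr H₀) w).ncard ≤ 2 → w ∈ P' := by
  intro k
  induction k using Nat.strong_induction_on with
  | _ k ih =>
    intro H P h hP hk
    have hTfin : {w | w < n ∧ (comp (gr H₀) w).ncard ≤ 2}.Finite :=
      (Set.finite_lt_nat n).subset fun w hw => hw.1
    by_cases hex : ∃ c, c < n ∧ (comp (gr H₀) c).ncard ≤ 2 ∧ c ∉ P
    · obtain ⟨c, hcn, hc2, hcP⟩ := hex
      have hnewP : ∀ w ∈ P ∪ comp (gr H₀) c, (comp (gr H₀) w).ncard ≤ 2 := by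
        rintro w (hw | hw)
        · exact hP w hw
        · rw [← comp_eq_of_reachable hw]; exact hc2
      have hnotfat : ¬ Fat (gr H ⊔ edge n c) n := by
        -- edges of the new graph
        have hE : ∀ a b, (gr H ⊔ edge n c).Adj a b → a ≠ n → b ≠ n → (gr H₀).Adj a b := by
          intro a b hab ha hb
          rw [sup_adj, edge_adj] at hab
          rcases hab with hab | ⟨⟨rfl, -⟩ | ⟨-, rfl⟩, -⟩
          · rcases h.edges a b hab with h1 | ⟨h1, -⟩ | ⟨h1, -⟩
            · exact h1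
            · exact absurd h1 ha
            · exact absurd h1 hb
          · exact absurd rfl ha
          · exact absurd rfl hb
        have hcl : ∀ a ∈ insert n (P ∪ comp (gr H₀) c), ∀ b, (gr H ⊔ edge n c).Adj a b →
            b ∈ insert n (P ∪ comp (gr H₀) c) := by
          intro a ha b hab
          by_cases hbn : b = n
          · exact Or.inl hbn
          · right
            rw [sup_adj, edge_adj] at hab
            rcases hab with hab | ⟨⟨-, rfl⟩ | ⟨-, h1⟩, -⟩
            · rcases h.edges a b hab with h1 | ⟨-, h1⟩ | ⟨h1, -⟩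
              · rcases ha with rfl | ha | ha
                · exact absurd h1 (hiso b)
                · exact Or.inl (h.closed a ha b h1)
                · exact Or.inr (Reachable.trans ha h1.reachable)
              · exact Or.inl h1
              · exact absurd h1 hbn
            · exact Or.inr (self_mem_comp _ _)
            · exact absurd h1 hbn
        have hsmall : ∀ w, (gr H ⊔ edge n c).Reachable n w → w ≠ n →
            (comp (gr H₀) w).ncard ≤ 2 := by
          intro w hw hwn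
          have := closed_reachable hcl (Set.mem_insert _ _) hw
          rcases this with h1 | h1
          · exact absurd h1 hwn
          · exact hnewP w h1
        have key : ∀ a b c', a ≠ b → b ≠ c' → a ≠ c' → a ≠ n → b ≠ n → c' ≠ n →
            (gr H ⊔ edge n c).Adj a b → (gr H ⊔ edge n c).Adj b c' →
            (gr H ⊔ edge n c).Reachable n b → False := by
          intro a b c' h1 h2 h3 h4 h5 h6 h7 h8 h9
          have e1 := (hE a b h7 h4 h5).symm
          have e2 := hE b c' h8 h5 h6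
          have hs : ({a, b, c'} : Set ℕ) ⊆ comp (gr H₀) b := by
            rintro w (rfl | rfl | rfl)
            · exact e1.reachable
            · exact Reachable.refl _
            · exact e2.reachable
          have h10 := Set.ncard_le_ncard hs (comp_gr_finite H₀ b)
          have h11 : ({a, b, c'} : Set ℕ).ncard = 3 := by
            rw [Set.ncard_eq_three]; exact ⟨a, b, c', h1, h3, h2, rfl⟩
          have := hsmall b h9 h5
          omega
        rintro ⟨a, b, c₁, a', b', c₁', hnd, h1, h2, h3, h4, h5, h6⟩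
        simp only [List.nodup_cons, List.mem_cons, List.not_mem_nil, or_false, not_or,
          List.nodup_nil, and_true, not_false_eq_true] at hnd
        obtain ⟨⟨n1, n2, n3, n4, n5⟩, ⟨n6, n7, n8, n9⟩, ⟨n10, n11, n12⟩, ⟨n13, n14⟩, n15⟩ := hnd
        by_cases hn1 : a ≠ n ∧ b ≠ n ∧ c₁ ≠ n
        · exact key a b c₁ n1 n6 n2 hn1.1 hn1.2.1 hn1.2.2 h1 h2 h5
        · have hn2 : a' ≠ n ∧ b' ≠ n ∧ c₁' ≠ n := by
            refine ⟨?_, ?_, ?_⟩ <;> rintro rfl <;> apply hn1 <;> refine ⟨?_, ?_, ?_⟩ <;>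
              assumption
          exact key a' b' c₁' n13 n15 n14 hn2.1 hn2.2.1 hn2.2.2 h3 h4 h6
      obtain ⟨H', h'⟩ := ps_step hτ hask h c hcP (hclt c hcn)
        ⟨c, Reachable.refl _, fun m _ hf => absurd hf hnotfat⟩
      refine ih _ ?_ H' (P ∪ comp (gr H₀) c) h' hnewP rfl
      rw [← hk]
      apply Set.ncard_lt_ncard
      · rw [Set.ssubset_iff_of_subset]
        · exact ⟨c, ⟨⟨hcn, hc2⟩, hcP⟩, fun h1 => h1.2 (Or.inr (self_mem_comp _ _))⟩
        · exact Set.sdiff_subset_sdiff_right Set.subset_union_left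
      · exact hTfin.subset Set.sdiff_subset
    · refine ⟨H, P, h, fun w h1 h2 => ?_⟩
      by_contra h3
      exact hex ⟨w, h1, h2, h3⟩

theorem phase2 {τ : Hist → Sym2 ℕ → Bool} {z : ℕ → Bool} {n : ℕ} {H₀ : Hist}
    (hτ : TightStrat τ) (hask : ∀ w, w < n → s(n, w) ∉ ask H₀)
    (hclt : ∀ c, c < n → ∀ w, (gr H₀).Reachable c w → w < n) :
    ∀ (k : ℕ) (H : Hist) (P : Set ℕ), PS τ z n H₀ H P →
      (∀ w, w < n → (comp (gr H₀) w).ncard ≤ 2 → w ∈ P) →
      ({w | w < n} \ P).ncard = k →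
      ∃ H' P', PS τ z n H₀ H' P' ∧ ∀ w, w < n → w ∈ P' := by
  intro k
  induction k using Nat.strong_induction_on with
  | _ k ih =>
    intro H P h hP hk
    have hTfin : {w | w < n}.Finite := Set.finite_lt_nat n
    by_cases hex : ∃ c, c < n ∧ c ∉ P
    · obtain ⟨c, hcn, hcP⟩ := hex
      have h3 : 3 ≤ (comp (gr H₀) c).ncard := by
        by_contra h3
        exact hcP (hP c hcn (by omega))
      have hag := h.agree hcP (hclt c hcn)
      have hcomp : comp (gr H) c = comp (gr H₀) c := comp_agree hag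
      have hmem : ∀ w, (gr H).Reachable c w ↔ (gr H₀).Reachable c w := by
        intro w
        have : w ∈ comp (gr H) c ↔ w ∈ comp (gr H₀) c := by rw [hcomp]
        exact this
      have hnc : ¬ (gr H).Reachable n c := by
        intro hh
        exact absurd (hclt c hcn n ((hmem n).1 hh.symm)) (lt_irrefl n)
      obtain ⟨u₁, u₂, hu1, hu2, hpar⟩ := parity (gr H) n c h.acyc (comp_gr_finite H n)
        (comp_gr_finite H c) hnc (by rw [hcomp]; exact h3)
      have hsize : ∀ u, (gr H).Reachable c u →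
          comp (gr H ⊔ edge n u) n = comp (gr H) n ∪ comp (gr H) c := by
        intro u hu
        rw [comp_sup_edge_left, comp_eq_of_reachable hu]
      have hu : ∃ u, (gr H₀).Reachable c u ∧ ∀ m,
          (comp (gr H ⊔ edge n u) n).ncard = 2 ^ (4 * m) →
          Fat (gr H ⊔ edge n u) n →
          (Even (leafs (gr H ⊔ edge n u) n).ncard ↔ z m = true) := by
        by_cases hm : ∃ m, (comp (gr H) n ∪ comp (gr H) c).ncard = 2 ^ (4 * m)
        · obtain ⟨m, hm⟩ := hm
          have huniq : ∀ m', (comp (gr H) n ∪ comp (gr H) c).ncard = 2 ^ (4 * m') → m' = m := by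
            intro m' hm'
            rw [hm] at hm'
            have := Nat.pow_right_injective (le_refl 2) hm'
            omega
          by_cases hch : (Even (leafs (gr H ⊔ edge n u₁) n).ncard ↔ z m = true)
          · refine ⟨u₁, (hmem u₁).1 hu1, fun m' hm' _ => ?_⟩
            rw [hsize u₁ hu1] at hm'
            rw [huniq m' hm']; exact hch
          · refine ⟨u₂, (hmem u₂).1 hu2, fun m' hm' _ => ?_⟩
            rw [hsize u₂ hu2] at hm'
            rw [huniq m' hm']; tauto
        · refine ⟨u₁, (hmem u₁).1 hu1, fun m' hm' _ => ?_⟩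
          rw [hsize u₁ hu1] at hm'
          exact absurd ⟨m', hm'⟩ hm
      obtain ⟨H', h'⟩ := ps_step hτ hask h c hcP (hclt c hcn) hu
      refine ih _ ?_ H' (P ∪ comp (gr H₀) c) h' (fun w h1 h2 => Or.inl (hP w h1 h2)) rfl
      rw [← hk]
      apply Set.ncard_lt_ncard
      · rw [Set.ssubset_iff_of_subset]
        · exact ⟨c, ⟨hcn, hcP⟩, fun h1 => h1.2 (Or.inr (self_mem_comp _ _))⟩
        · exact Set.sdiff_subset_sdiff_right Set.subset_union_left
      · exact hTfin.subset Set.sdiff_subset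
    · refine ⟨H, P, h, fun w h1 => ?_⟩
      by_contra h3
      exact hex ⟨w, h1, h3⟩

theorem stageA : S_STAGEA := by
  intro τ hτ z n hn H hL hC hA hac hcode
  have hadjlt : ∀ a b, (gr H).Adj a b → a < n ∧ b < n := by
    intro a b hab
    have h1 := gr_adj_ask hab
    rw [hA] at h1
    obtain ⟨x, y, hxy, hyn, he, -⟩ := h1
    rw [Sym2.eq_iff] at he
    omega
  have hask : ∀ w, w < n → s(n, w) ∉ ask H := by
    intro w hw h1
    rw [hA] at h1
    obtain ⟨x, y, hxy, hyn, he, -⟩ := h1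
    rw [Sym2.eq_iff] at he
    omega
  have hiso : ∀ y, ¬ (gr H).Adj n y := by
    intro y hy
    have := (hadjlt n y hy).1
    omega
  have hclt : ∀ c, c < n → ∀ w, (gr H).Reachable c w → w < n := by
    intro c hc w hw
    exact closed_reachable (F := {w | w < n}) (fun a _ b hab => (hadjlt a b hab).2) hc hw
  have h0 : PS τ z n H H ∅ := by
    refine ⟨List.prefix_refl _, hL, hC, ?_, ?_, ?_, ?_, hac, hcode⟩
    · ext e; simp
    · simp
    · simp
    · intro a b hab; exact Or.inl hab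
  obtain ⟨H₁, P₁, h1, hP1⟩ := phase1 hτ hask hiso hclt _ H ∅ h0 (by simp) rfl
  obtain ⟨H₂, P₂, h2, hP2⟩ := phase2 hτ hask hclt _ H₁ P₁ h1 hP1 rfl
  have hask2 : ask H₂ = {e | ∃ a b, a < b ∧ b < n + 1 ∧ e = s(a, b) ∧ 1 < b} := by
    rw [h2.asked, hA]
    ext e
    simp only [Set.mem_union, Set.mem_ofPred_eq]
    constructor
    · rintro (⟨a, b, hab, hbn, rfl, h1b⟩ | ⟨w, hw, rfl⟩)
      · exact ⟨a, b, hab, by omega, rfl, h1b⟩
      · exact ⟨w, n, h2.lt w hw, by omega, Sym2.eq_swap, by omega⟩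
    · rintro ⟨a, b, hab, hbn, rfl, h1b⟩
      by_cases hb : b < n
      · exact Or.inl ⟨a, b, hab, hb, rfl, h1b⟩
      · have : b = n := by omega
        subst this
        exact Or.inr ⟨a, hP2 a hab, Sym2.eq_swap⟩
  refine ⟨H₂, h2.pref, ?_, h2.legal, h2.cons, hask2, h2.acyc, h2.code⟩
  rcases Nat.lt_or_ge H.length H₂.length with h3 | h3
  · exact h3
  · exfalso
    have h4 := h2.pref.eq_of_length (le_antisymm h2.pref.length_le h3)
    have h5 : s(n, 0) ∈ ask H₂ := by
      rw [h2.asked]; exact Or.inr ⟨0, hP2 0 (by omega), rfl⟩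
    rw [← h4] at h5
    exact hask 0 (by omega) h5

end EG71
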