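import Pool.Agent.R71.EG.Basic
import Pool.Agent.R71.EG.Stms

/-!
One stage against a strategy of Seeker (problem MP_3d6d95_lc).
-/

namespace EG71

open SimpleGraph

theorem fat_mono {X Y : SimpleGraph ℕ} (h : X ≤ Y) {v : ℕ} (hf : Fat X v) : Fat Y v := by
  obtain ⟨a, b, c, a', b', c', hn, h2, h3, h4, h5, h6, h7⟩ := hf
  exact ⟨a, b, c, a', b', c', hn, h h2, h h3, h h4, h h5, h6.mono h, h7.mono h⟩

theorem comp_frozen (h3 : S_STEP) {σ : Hist → Sym2 ℕ} (hσ : NS σ) {H H' : Hist} {F E : Set ℕ}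
    (hSt : St σ H F E) (hext : Ext σ F H H') : ∀ x ∈ F, comp (gr H') x = comp (gr H) x := by
  obtain ⟨g1, g2, g3, g4⟩ := h3 σ hσ F H H' hSt.inv hext hSt.closed
  intro x hx
  refine comp_agree (X := gr H) (Y := gr H') ?_
  intro y hy b
  have hyF : y ∈ F := closed_reachable hSt.closed hx hy
  exact (g4 y hyF b).symm

theorem St.ext' (h3 : S_STEP) {σ : Hist → Sym2 ℕ} (hσ : NS σ) {H H' : Hist} {F E : Set ℕ}
    (hSt : St σ H F E) (hext : Ext σ F H H') : St σ H' F E := by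
  have hc := comp_frozen h3 hσ hSt hext
  obtain ⟨g1, g2, g3, g4⟩ := h3 σ hσ F H H' hSt.inv hext hSt.closed
  refine ⟨g1, hSt.fin, ?_, ?_, ?_⟩
  · intro a ha b hab
    exact hSt.closed a ha b ((g4 a ha b).1 hab)
  · intro v hv
    obtain ⟨a, ha, hpow⟩ := hSt.pow v hv
    exact ⟨a, ha, by rw [hc v hv, hpow]⟩
  · intro u hu v hv heq
    rw [hc u hu, hc v hv] at heq
    exact (hSt.dist u hu v hv heq).mono g3

/-- a large exponent `4 k + 3` not in `E` -/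
theorem exists_exp {E : Set ℕ} (hE : E.Finite) (n : ℕ) : ∃ a, a % 4 = 3 ∧ a ∉ E ∧ n ≤ 2 ^ a := by
  obtain ⟨M, hM⟩ := hE.bddAbove
  refine ⟨4 * (M + n) + 3, by omega, ?_, ?_⟩
  · intro h
    have := hM h
    omega
  · have h1 : n < 2 ^ n := Nat.lt_two_pow_self
    have h2 : 2 ^ n ≤ 2 ^ (4 * (M + n) + 3) := Nat.pow_le_pow_right (by norm_num) (by omega)
    omega

theorem cleanup (h2 : S_CLOSEONE) {σ : Hist → Sym2 ℕ} (hσ : NS σ) :
    ∀ (n : ℕ) (H : Hist) (F E : Set ℕ), St σ H F E → E.Finite →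
      {w | w ∉ F ∧ ∃ b, (gr H).Adj w b}.ncard ≤ n →
      ∃ H' F' E', Ext σ F H H' ∧ F ⊆ F' ∧ St σ H' F' E' ∧ E'.Finite ∧
        (∀ a ∈ E', a ∈ E ∨ a % 4 = 3) ∧ (∀ a b, (gr H').Adj a b → a ∈ F') := by
  intro n
  induction n with
  | zero =>
    intro H F E hSt hE hn
    have hfin : {w | w ∉ F ∧ ∃ b, (gr H).Adj w b}.Finite :=
      (gr_supp_finite H).subset fun w hw => hw.2
    have h0 : {w | w ∉ F ∧ ∃ b, (gr H).Adj w b} = ∅ :=
      (Set.ncard_eq_zero hfin).1 (Nat.le_zero.1 hn)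
    refine ⟨H, F, E, Relation.ReflTransGen.refl, subset_rfl, hSt, hE, fun a ha => Or.inl ha, ?_⟩
    intro a b hab
    by_contra hc
    have : a ∈ {w | w ∉ F ∧ ∃ b, (gr H).Adj w b} := ⟨hc, b, hab⟩
    rw [h0] at this
    exact this
  | succ n ih =>
    intro H F E hSt hE hn
    by_cases hopen : ∀ a b, (gr H).Adj a b → a ∈ F
    · exact ⟨H, F, E, Relation.ReflTransGen.refl, subset_rfl, hSt, hE, fun a ha => Or.inl ha, hopen⟩
    push Not at hopen
    obtain ⟨w, b, hwb, hwF⟩ := hopen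
    obtain ⟨a, ha1, ha2, ha3⟩ := exists_exp hE (comp (gr H) w).ncard
    obtain ⟨H', F', k1, k2, k3, k4, k5, k6⟩ := h2 σ hσ H F E hSt w a hwF ha2 ha3
    have hsub : {y | y ∉ F' ∧ ∃ b, (gr H').Adj y b} ⊂ {y | y ∉ F ∧ ∃ b, (gr H).Adj y b} := by
      refine ⟨?_, ?_⟩
      · rintro y ⟨hy, b', hb'⟩
        obtain ⟨q1, q2, -⟩ := k6 y b' hy hb'
        exact ⟨q1, b', q2⟩
      · intro hcon
        have : w ∈ {y | y ∉ F' ∧ ∃ b, (gr H').Adj y b} := hcon ⟨hwF, b, hwb⟩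
        exact this.1 k3
    have hfin : {w | w ∉ F ∧ ∃ b, (gr H).Adj w b}.Finite :=
      (gr_supp_finite H).subset fun w hw => hw.2
    have hlt := Set.ncard_lt_ncard hsub hfin
    obtain ⟨H'', F'', E'', l1, l2, l3, l4, l5, l6⟩ := ih H' F' (insert a E) k4 (hE.insert a)
      (by omega)
    refine ⟨H'', F'', E'', Relation.ReflTransGen.trans k1 (Ext.mono k2 l1), k2.trans l2, l3, l4,
      ?_, l6⟩
    intro e he
    rcases l5 e he with h | h
    · rcases h with h | h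
      · subst h; exact Or.inr ha1
      · exact Or.inl h
    · exact Or.inr h

theorem exists_fresh (H : Hist) {F : Set ℕ} (hF : F.Finite) :
    ∃ v, v ∉ F ∧ ∀ w, ¬ (gr H).Adj v w := by
  obtain ⟨v, hv⟩ := (hF.union (gr_supp_finite H)).exists_notMem
  exact ⟨v, fun h => hv (Or.inl h), fun w hw => hv (Or.inr ⟨w, hw⟩)⟩

theorem stageB (h1 : S_CLUSTER) (h2 : S_CLOSEONE) (h3 : S_STEP) : S_STAGEB := by
  intro σ hσ x m hm H F E hSt hE hopen hEb
  obtain ⟨H1, v, a1, a2, a3, a4, a5⟩ := h1 σ hσ F H hSt.fin hSt.inv hopen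
  have hSt1 : St σ H1 F E := hSt.ext' h3 hσ a1
  have hvE : 4 * m ∉ E := by
    intro h
    rcases hEb _ h with h | ⟨h, -⟩ <;> omega
  have h8 : (comp (gr H1) v).ncard ≤ 2 ^ (4 * m) := by
    have : 2 ^ (4 * 1) ≤ 2 ^ (4 * m) := Nat.pow_le_pow_right (by norm_num) (by omega)
    norm_num at this
    omega
  obtain ⟨H2, F2, b1, b2, b3, b4, b5, -⟩ := h2 σ hσ H1 F E hSt1 v (4 * m) a3 hvE h8
  have hfat2 : Fat (gr H2) v := fat_mono (gr_mono (Ext.pfx b1)) a4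
  -- second component
  have step2 : ∃ H3 F3 E3, Ext σ F2 H2 H3 ∧ F2 ⊆ F3 ∧ St σ H3 F3 E3 ∧ E3.Finite ∧
      (∀ a ∈ E3, a = 4 * m ∨ a ∈ E ∨ (a = 4 * m + 1 ∧ x m = true)) ∧
      (x m = true → ∃ u ∈ F3, (comp (gr H3) u).ncard = 2 ^ (4 * m + 1)) := by
    by_cases hx : x m = true
    · obtain ⟨u, hu1, hu2⟩ := exists_fresh H2 b4.fin
      have hnE : 4 * m + 1 ∉ insert (4 * m) E := by
        rintro (h | h)
        · omega
        · rcases hEb _ h with h | ⟨h, -⟩ <;> omega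
      obtain ⟨H3, F3, c1, c2, c3, c4, c5, -⟩ := h2 σ hσ H2 F2 _ b4 u (4 * m + 1) hu1 hnE
        (by rw [comp_isolated hu2, Set.ncard_singleton]; exact Nat.one_le_two_pow)
      refine ⟨H3, F3, _, c1, c2, c4, (hE.insert _).insert _, ?_, fun _ => ⟨u, c3, c5⟩⟩
      rintro a (ha | ha | ha)
      · exact Or.inr (Or.inr ⟨ha, hx⟩)
      · exact Or.inl ha
      · exact Or.inr (Or.inl ha)
    · refine ⟨H2, F2, _, Relation.ReflTransGen.refl, subset_rfl, b4, hE.insert _, ?_,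
        fun h => absurd h hx⟩
      rintro a (ha | ha)
      · exact Or.inl ha
      · exact Or.inr (Or.inl ha)
  obtain ⟨H3, F3, E3, c1, c2, c3, c4, c5, c6⟩ := step2
  -- the vertex m - 1
  have step3 : ∃ H4 F4 E4, Ext σ F3 H3 H4 ∧ F3 ⊆ F4 ∧ m - 1 ∈ F4 ∧ St σ H4 F4 E4 ∧ E4.Finite ∧
      (∀ a ∈ E4, a ∈ E3 ∨ a % 4 = 3) := by
    by_cases hmF : m - 1 ∈ F3
    · exact ⟨H3, F3, E3, Relation.ReflTransGen.refl, subset_rfl, hmF, c3, c4, fun a ha => Or.inl ha⟩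
    · obtain ⟨a, ha1, ha2, ha3⟩ := exists_exp c4 (comp (gr H3) (m - 1)).ncard
      obtain ⟨H4, F4, d1, d2, d3, d4, -, -⟩ := h2 σ hσ H3 F3 E3 c3 (m - 1) a hmF ha2 ha3
      refine ⟨H4, F4, _, d1, d2, d3, d4, c4.insert a, ?_⟩
      rintro e (he | he)
      · subst he; exact Or.inr ha1
      · exact Or.inl he
  obtain ⟨H4, F4, E4, d1, d2, d3, d4, d5, d6⟩ := step3
  obtain ⟨H5, F5, E5, e1, e2, e3, e4, e5, e6⟩ := cleanup h2 hσ _ H4 F4 E4 d4 d5 le_rfl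
  have x34 : Ext σ F3 H3 H5 := Relation.ReflTransGen.trans d1 (Ext.mono d2 e1)
  have x24 : Ext σ F2 H2 H5 := Relation.ReflTransGen.trans c1 (Ext.mono c2 x34)
  have x14 : Ext σ F H1 H5 := Relation.ReflTransGen.trans b1 (Ext.mono b2 x24)
  have x04 : Ext σ F H H5 := Relation.ReflTransGen.trans a1 x14
  have s35 : F3 ⊆ F5 := d2.trans e2
  have s25 : F2 ⊆ F5 := c2.trans s35
  refine ⟨H5, F5, E5, x04, lt_of_lt_of_le a2 (Ext.pfx x14).length_le, b2.trans s25, e2 d3, e3,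
    e4, e6, ?_, ?_, ?_⟩
  · intro a ha
    rcases e5 a ha with h | h
    · rcases d6 a h with h | h
      · rcases c5 a h with h | h | ⟨h, hx⟩
        · right; subst h
          exact ⟨by omega, Or.inl (by omega)⟩
        · rcases hEb a h with h | ⟨h, h'⟩
          · exact Or.inl h
          · exact Or.inr ⟨by omega, h'⟩
        · right; subst h
          refine ⟨by omega, Or.inr ⟨by omega, ?_⟩⟩
          rw [show (4 * m + 1) / 4 = m by omega]
          exact hx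
      · exact Or.inl h
    · exact Or.inl h
  · refine ⟨v, s25 b3, ?_, fat_mono (gr_mono (Ext.pfx x24)) hfat2⟩
    rw [comp_frozen h3 hσ b4 x24 v b3, b5]
  · intro hx
    obtain ⟨u, hu1, hu2⟩ := c6 hx
    exact ⟨u, s35 hu1, by rw [comp_frozen h3 hσ c3 x34 u hu1, hu2]⟩

end EG71
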