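import Pool.Agent.R71.EG.Final
import Pool.Agent.R71.EG.Lim
import Pool.Agent.R71.EG.NonTight
import Pool.Agent.R71.EG.AskComp
import Pool.Agent.R71.EG.Parity
import Pool.Agent.R71.EG.StageA
import Pool.Agent.R71.EG.PartA
import Pool.Agent.R71.EG.Grow
import Pool.Agent.R71.EG.Cluster
import Pool.Agent.R71.EG.CloseOne
import Pool.Agent.R71.EG.StageB
import Pool.Agent.R71.EG.PartB
import Pool.Agent.R71.EG.Graph
import Pool.Agent.R71.EG.SDR
import Pool.Agent.R71.EG.Dec
import Pool.Agent.R71.EG.Rigid71

namespace EG71

/-- assembly of all pieces -/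
theorem final_all : S_FINAL := by
  have hR : S_REDC := redc lim
  have hG1 : S_GROW1 := grow1 hR step
  have hG : S_GROW := grow hG1 step
  have hC : S_CLUSTER := cluster hR step hG1 lim
  have hCO : S_CLOSEONE := closeOne hG step
  have hSB : S_STAGEB := stageB hC hCO step
  have hPB : S_PARTB := partB hSB step lim
  have hSA : S_STAGEA := stageA
  have hPA : S_PARTA := partA hSA lim
  have hNT : S_NONTIGHT := nonTight lim mono inner
  exact final sdr card mono iso close small rigid71 eqv decA decB lim hNT hPA hPB

end EG71
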