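import Mathlib

/-!
Elusiveness games: definitions (problem MP_3d6d95_lc).
-/

namespace EG71

open SimpleGraph

/-- A move: the pair picked by Seeker and the colour chosen by Hider (`true` = green,
`false` = red). -/
abbrev Mv := Sym2 ℕ × Bool

/-- A finite history, in the order of play. -/
abbrev Hist := List Mv

/-- The first `n` moves of a run. -/
def pre (h : ℕ → Mv) (n : ℕ) : Hist := (List.range n).map h

/-- A run is legal if every pair picked is a pair of distinct numbers which is still white. -/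
def LegalRun (h : ℕ → Mv) : Prop := ∀ n, ¬ (h n).1.IsDiag ∧ ∀ i < n, (h i).1 ≠ (h n).1

/-- The graph of the green pairs at the end of a run. -/
def greenR (h : ℕ → Mv) : SimpleGraph ℕ := SimpleGraph.fromEdgeSet {e | ∃ n, h n = (e, true)}

/-- The graph of the pairs still white at the end of a run. -/
def whiteR (h : ℕ → Mv) : SimpleGraph ℕ := SimpleGraph.fromEdgeSet {e | ∀ n, (h n).1 ≠ e}

/-- Seeker wins the run `h` of the game for the property `S`. -/
def SeekerWinRun (S : Set (SimpleGraph ℕ)) (h : ℕ → Mv) : Prop :=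
  whiteR h ≠ ⊥ ∧
    ((∀ X : SimpleGraph ℕ, greenR h ≤ X → X ≤ greenR h ⊔ whiteR h → X ∈ S) ∨
     (∀ X : SimpleGraph ℕ, greenR h ≤ X → X ≤ greenR h ⊔ whiteR h → X ∉ S))

/-- The run `h` is played according to Seeker's strategy `σ`. -/
def ConsSR (σ : Hist → Sym2 ℕ) (h : ℕ → Mv) : Prop := ∀ n, (h n).1 = σ (pre h n)

/-- The run `h` is played according to Hider's strategy `τ`. -/
def ConsHR (τ : Hist → Sym2 ℕ → Bool) (h : ℕ → Mv) : Prop :=
  ∀ n, (h n).2 = τ (pre h n) (h n).1

/-! ### Components, the class `L`, and the properties `SB B` -/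

/-- the component of `v` -/
def comp (G : SimpleGraph ℕ) (v : ℕ) : Set ℕ := {w | G.Reachable v w}

/-- the component of `v` contains two disjoint paths with three vertices -/
def Fat (G : SimpleGraph ℕ) (v : ℕ) : Prop :=
  ∃ a b c a' b' c' : ℕ, [a, b, c, a', b', c'].Nodup ∧ G.Adj a b ∧ G.Adj b c ∧
    G.Adj a' b' ∧ G.Adj b' c' ∧ G.Reachable v b ∧ G.Reachable v b'

/-- the leaves (vertices of degree one) in the component of `v` -/
def leafs (G : SimpleGraph ℕ) (v : ℕ) : Set ℕ := {w | G.Reachable v w ∧ ∃! y, G.Adj w y}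

/-- `X` is contained in `Y` up to finitely many edges -/
def SubF (X Y : SimpleGraph ℕ) : Prop := (X.edgeSet \ Y.edgeSet).Finite

/-- some component is infinite -/
def Inf (G : SimpleGraph ℕ) : Prop := ∃ v, (comp G v).Infinite

/-- The rigid class `L`. -/
structure L (G : SimpleGraph ℕ) : Prop where
  acyc : G.IsAcyclic
  pow : ∀ v, ∃ a, (comp G v).ncard = 2 ^ a
  dist : ∀ u v, (comp G u).ncard = (comp G v).ncard → G.Reachable u v
  fat : ∃ M, ∀ m ≥ M, ∃ v, (comp G v).ncard = 2 ^ (4 * m) ∧ Fat G v

/-- The graph property attached to a family `B` of graphs. -/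
def SB (B : Set (SimpleGraph ℕ)) : Set (SimpleGraph ℕ) :=
  {X | Inf X ∨ (∃ H, L H ∧ SubF H X ∧ ¬ SubF X H) ∨
    (∃ H ∈ B, L H ∧ SubF H X ∧ (∀ u v, H.Reachable u v → X.Reachable u v) ∧
      ∃ u v, X.Reachable u v ∧ ¬ H.Reachable u v)}

/-- isomorphic up to finitely many edges -/
def Eqv (X Y : SimpleGraph ℕ) : Prop :=
  ∃ π : ℕ ≃ ℕ, SubF (X.comap π) Y ∧ SubF Y (X.comap π)

/-- all components finite, only finitely many vertices in components of size at least 5 -/
def Small (G : SimpleGraph ℕ) : Prop :=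
  (∀ v, (comp G v).Finite) ∧ {v | 5 ≤ (comp G v).ncard}.Finite

/-- the code carried by a graph on Hider's-strategy side -/
def CodeA (G : SimpleGraph ℕ) (z : ℕ → Bool) : Prop :=
  ∀ m v, (comp G v).ncard = 2 ^ (4 * m) → Fat G v → (Even (leafs G v).ncard ↔ z m = true)

/-- the code carried by a graph on Seeker's-strategy side -/
def CodeB (G : SimpleGraph ℕ) (x : ℕ → Bool) : Prop :=
  ∃ M, ∀ m ≥ M, (∃ v, (comp G v).ncard = 2 ^ (4 * m + 1)) ↔ x m = true

/-! ### Finite histories -/

/-- green graph of a finite history -/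
def gr (H : Hist) : SimpleGraph ℕ := SimpleGraph.fromEdgeSet {e | (e, true) ∈ H}

/-- pairs asked in a finite history -/
def ask (H : Hist) : Set (Sym2 ℕ) := {e | ∃ b, (e, b) ∈ H}

/-- legal finite history -/
def LegalH (H : Hist) : Prop := (∀ p ∈ H, ¬ p.1.IsDiag) ∧ (H.map Prod.fst).Nodup

/-- finite history played according to Hider's strategy `τ` -/
def ConsH (τ : Hist → Sym2 ℕ → Bool) (H : Hist) : Prop :=
  ∀ H₁ p H₂, H = H₁ ++ p :: H₂ → p.2 = τ H₁ p.1

/-- finite history played according to Seeker's strategy `σ` -/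
def ConsS (σ : Hist → Sym2 ℕ) (H : Hist) : Prop :=
  ∀ H₁ p H₂, H = H₁ ++ p :: H₂ → p.1 = σ H₁

/-- pairs inside a green component have all been asked -/
def TightG (H : Hist) : Prop := ∀ u v, u ≠ v → (gr H).Reachable u v → s(u, v) ∈ ask H

/-- Hider's strategy always keeps the position tight -/
def TightStrat (τ : Hist → Sym2 ℕ → Bool) : Prop := ∀ H, LegalH H → ConsH τ H → TightG H

/-- Red continuation of the history `H` against Seeker's strategy `σ` -/
def red (σ : Hist → Sym2 ℕ) (H : Hist) : ℕ → Hist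
  | 0 => H
  | k + 1 => red σ H k ++ [(σ (red σ H k), false)]

/-- invariants kept against Seeker's strategy `σ` -/
structure Inv (σ : Hist → Sym2 ℕ) (H : Hist) : Prop where
  cons : ConsS σ H
  acyc : (gr H).IsAcyclic
  tight : TightG H

/-- One step against `σ`, with the vertices of `F` frozen: red, or green for the last white
pair between two components outside `F`. -/
inductive Step (σ : Hist → Sym2 ℕ) (F : Set ℕ) : Hist → Hist → Prop
  | red (H : Hist) : Step σ F H (H ++ [(σ H, false)])
  | green (H : Hist) (u y : ℕ) (hq : σ H = s(u, y)) (hu : u ∉ F) (hy : y ∉ F)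
      (hn : ¬ (gr H).Reachable u y)
      (hl : ∀ a b, (gr H).Reachable u a → (gr H).Reachable y b →
        s(a, b) ∈ ask H ∨ s(a, b) = s(u, y)) : Step σ F H (H ++ [(s(u, y), true)])

/-- extension by finitely many steps -/
def Ext (σ : Hist → Sym2 ℕ) (F : Set ℕ) : Hist → Hist → Prop := Relation.ReflTransGen (Step σ F)

/-- bookkeeping against `σ`: `F` is the set of vertices of the closed components, `E` contains
the exponents of their sizes; open components outside `F` are allowed. -/
structure St (σ : Hist → Sym2 ℕ) (H : Hist) (F E : Set ℕ) : Prop where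
  inv : Inv σ H
  fin : F.Finite
  closed : ∀ a ∈ F, ∀ b, (gr H).Adj a b → b ∈ F
  pow : ∀ v ∈ F, ∃ a ∈ E, (comp (gr H) v).ncard = 2 ^ a
  dist : ∀ u ∈ F, ∀ v ∈ F, (comp (gr H) u).ncard = (comp (gr H) v).ncard →
    (gr H).Reachable u v

/-- Seeker's strategy `σ` has no immediate loss: it is legal against every play and no run
against it leaves a small green graph with an infinite component of green and white. -/
structure NS (σ : Hist → Sym2 ℕ) : Prop where
  legal : ∀ H, ConsS σ H → ¬ (σ H).IsDiag ∧ σ H ∉ ask H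
  inf : ∀ h, ConsSR σ h → Small (greenR h) → ¬ Inf (greenR h ⊔ whiteR h)

end EG71
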