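import Pool.Agent.R71.EG.Basic
import Pool.Agent.R71.EG.Stms

namespace EG71

open SimpleGraph

/-- a strategy of Seeker without the property `NS` loses against every `SB B` -/
theorem bad_of_not_NS (hlim : S_LIM) (hsmall : S_SMALL) {σ : Hist → Sym2 ℕ} (hσ : ¬ NS σ) :
    ∃ h, ConsSR σ h ∧ (LegalRun h → ∀ B, ¬ SeekerWinRun (SB B) h) := by
  by_cases h1 : ∀ H, ConsS σ H → ¬ (σ H).IsDiag ∧ σ H ∉ ask H
  · have h2 : ¬ ∀ h, ConsSR σ h → Small (greenR h) → ¬ Inf (greenR h ⊔ whiteR h) :=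
      fun h2 => hσ ⟨h1, h2⟩
    push Not at h2
    obtain ⟨h, hc, hs, hi⟩ := h2
    refine ⟨h, hc, fun _ B hw => ?_⟩
    rcases hw.2 with hw | hw
    · exact hsmall B _ hs (hw _ le_rfl le_sup_left)
    · exact hw _ le_sup_left le_rfl (Or.inl hi)
  · push Not at h1
    obtain ⟨H, hH, hbad⟩ := h1
    obtain ⟨h, hp, -, -, hc, -, -⟩ := hlim (fun k => red σ H k)
      (fun k => List.prefix_append _ _) (fun k => by simp only [length_redc]; omega)
    have hcons : ConsSR σ h := hc σ (fun k => consS_redc hH k)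
    refine ⟨h, hcons, fun hleg => ?_⟩
    exfalso
    have h0 : pre h H.length = H := hp 0
    have h3 : (h H.length).1 = σ H := by rw [hcons H.length, h0]
    have h4 := hleg H.length
    rw [h3] at h4
    obtain ⟨b, hb⟩ := hbad h4.1
    have hb' : (σ H, b) ∈ pre h H.length := by rw [h0]; exact hb
    rw [pre, List.mem_map] at hb'
    obtain ⟨i, hi, hi2⟩ := hb'
    rw [List.mem_range] at hi
    have := h4.2 i hi
    apply this
    rw [hi2]

/-- the code with redundancy -/
def rd (z : ℕ → Bool) : ℕ → Bool := fun m => z (Nat.unpair m).1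

theorem rd_inj {z z' : ℕ → Bool} (h : ∃ N, ∀ m ≥ N, rd z m = rd z' m) : z = z' := by
  obtain ⟨N, hN⟩ := h
  funext j
  have := hN (Nat.pair j N) (Nat.right_le_pair j N)
  simpa [rd] using this

/-- the strategies (of both players) against which a continuum of runs is available, together
with the final green graphs of such runs -/
def RR : ((Hist → Sym2 ℕ) ⊕ (Hist → Sym2 ℕ → Bool)) → (ℕ → Bool) → SimpleGraph ℕ → Prop
  | Sum.inl σ, z, G => ∃ h, LegalRun h ∧ ConsSR σ h ∧
      (∀ u v, u ≠ v → (greenR h).Reachable u v → ¬ (whiteR h).Adj u v) ∧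
      L (greenR h) ∧ CodeB (greenR h) (rd z) ∧ greenR h = G
  | Sum.inr τ, z, G => ∃ h, LegalRun h ∧ ConsHR τ h ∧ whiteR h = edge 0 1 ∧
      CodeA (greenR h) (rd z) ∧ (∃ H, L H ∧ SubF H (greenR h) ∧ SubF (greenR h) H) ∧
      greenR h = G

theorem final (hSDR : S_SDR) (hCARD : S_CARD) (hMONO : S_MONO) (hISO : S_ISO)
    (hCLOSE : S_CLOSE) (hSMALL : S_SMALL) (hRIGID : S_RIGID) (hEQV : S_EQV) (hDECA : S_DECA)
    (hDECB : S_DECB) (hLIM : S_LIM) (hNT : S_NONTIGHT) (hA : S_PARTA) (hB : S_PARTB) :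
    S_FINAL := by
  classical
  let I : Type := {i : (Hist → Sym2 ℕ) ⊕ (Hist → Sym2 ℕ → Bool) // ∀ z, ∃ G, RR i z G}
  have hI : Cardinal.mk I ≤ Cardinal.continuum := (Cardinal.mk_subtype_le _).trans hCARD
  choose g hg using fun i : I => i.2
  let st : Setoid (SimpleGraph ℕ) := ⟨Eqv, hEQV⟩
  let f : I → (ℕ → Bool) → Quotient st := fun i z => Quotient.mk st (g i z)
  have hf : ∀ i, Function.Injective (f i) := by
    rintro ⟨i, hi⟩ z z' hzz
    have he : Eqv (g ⟨i, hi⟩ z) (g ⟨i, hi⟩ z') := Quotient.exact hzz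
    have h1 := hg ⟨i, hi⟩ z
    have h2 := hg ⟨i, hi⟩ z'
    apply rd_inj
    rcases i with σ | τ
    · obtain ⟨h, -, -, -, -, hc, hG⟩ := h1
      obtain ⟨h', -, -, -, -, hc', hG'⟩ := h2
      rw [hG] at hc
      rw [hG'] at hc'
      exact hDECB _ _ _ _ hc hc' he
    · obtain ⟨h, -, -, -, hc, hL, hG⟩ := h1
      obtain ⟨h', -, -, -, hc', -, hG'⟩ := h2
      rw [hG] at hc hL
      rw [hG'] at hc'
      exact hDECA _ _ _ _ hL hc hc' he
  obtain ⟨c, hc⟩ := hSDR I (Quotient st) hI f hf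
  let B : Set (SimpleGraph ℕ) := {X | ∃ i : I, i.1.isLeft = true ∧ Eqv (g i (c i)) X}
  have hBcl : ∀ X Y, X ∈ B → Eqv X Y → Y ∈ B := by
    rintro X Y ⟨i, hi, hX⟩ hXY
    exact ⟨i, hi, hEQV.trans hX hXY⟩
  refine ⟨SB B, hMONO B, hISO B hBcl, ?_, ?_⟩
  · -- Seeker has no winning strategy
    rintro ⟨σ, hσ⟩
    by_cases hNS : NS σ
    · have hi : ∀ z, ∃ G, RR (Sum.inl σ) z G := by
        intro z
        obtain ⟨h, h1, h2, h3, h4, h5⟩ := hB σ hNS (rd z)
        exact ⟨greenR h, h, h1, h2, h3, h4, h5, rfl⟩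
      obtain ⟨h, hleg, hcons, htight, hLG, -, hG⟩ := hg ⟨Sum.inl σ, hi⟩ (c ⟨Sum.inl σ, hi⟩)
      have hw := (hσ h hcons).2
      have hGB : greenR h ∈ B := by
        refine ⟨⟨Sum.inl σ, hi⟩, rfl, ?_⟩
        rw [hG]; exact hEQV.refl _
      rcases hw.2 with hw2 | hw2
      · exact hRIGID B _ hLG (hw2 _ le_rfl le_sup_left)
      · refine hw2 _ le_sup_left le_rfl (Or.inr (Or.inr ⟨greenR h, hGB, hLG, ?_, ?_, ?_⟩))
        · have : (greenR h).edgeSet \ (greenR h ⊔ whiteR h).edgeSet = ∅ := by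
            rw [Set.sdiff_eq_empty]
            exact edgeSet_mono le_sup_left
          unfold SubF
          rw [this]; exact Set.finite_empty
        · intro u v huv; exact huv.mono le_sup_left
        · have hne : ∃ u v, (whiteR h).Adj u v := by
            by_contra hcon
            push Not at hcon
            exact hw.1 (by ext u v; simpa using hcon u v)
          obtain ⟨u, v, huv⟩ := hne
          refine ⟨u, v, ?_, ?_⟩
          · exact Adj.reachable (by rw [sup_adj]; exact Or.inr huv)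
          · intro hr
            exact htight u v huv.ne hr huv
    · obtain ⟨h, h1, h2⟩ := bad_of_not_NS hLIM hSMALL hNS
      exact h2 (hσ h h1).1 B (hσ h h1).2
  · -- Hider has no winning strategy
    rintro ⟨τ, hτ⟩
    have hwhite : (edge 0 1 : SimpleGraph ℕ) ≠ ⊥ := by
      intro h
      have : (edge 0 1 : SimpleGraph ℕ).Adj 0 1 := by rw [edge_adj]; simp
      rw [h] at this
      simp at this
    -- if the run is not won by Seeker then the final graph is critical
    have hcrit : ∀ (B' : Set (SimpleGraph ℕ)) h, whiteR h = edge 0 1 →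
        ¬ SeekerWinRun (SB B') h →
        ∃ H ∈ B', L H ∧ SubF H (greenR h) ∧ SubF (greenR h) H := by
      intro B' h hw hn
      apply hCLOSE B' (greenR h) 0 1
      · intro hmem
        apply hn
        refine ⟨by rw [hw]; exact hwhite, Or.inl ?_⟩
        intro X hX _
        exact hMONO B' _ _ hX hmem
      · by_contra hmem
        apply hn
        refine ⟨by rw [hw]; exact hwhite, Or.inr ?_⟩
        intro X _ hX hX2
        rw [hw] at hX
        exact hmem (hMONO B' _ _ hX hX2)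
    by_cases hT : TightStrat τ
    · by_cases hgood : ∀ z, ∃ G, RR (Sum.inr τ) z G
      · obtain ⟨h, hleg, hcons, hw, -, -, hG⟩ := hg ⟨Sum.inr τ, hgood⟩ (c ⟨Sum.inr τ, hgood⟩)
        obtain ⟨H, ⟨j, hj, hjH⟩, hLH, hs1, hs2⟩ := hcrit B h hw (hτ h hleg hcons)
        have hHG : Eqv H (greenR h) := ⟨Equiv.refl ℕ, by simpa using hs1, by simpa using hs2⟩
        have hij : j ≠ ⟨Sum.inr τ, hgood⟩ := by
          rintro rfl
          simp at hj
        apply hc _ _ hij
        apply Quotient.sound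
        show Eqv (g j (c j)) (g ⟨Sum.inr τ, hgood⟩ (c ⟨Sum.inr τ, hgood⟩))
        rw [← hG]
        exact hEQV.trans hjH hHG
      · push Not at hgood
        obtain ⟨z, hz⟩ := hgood
        obtain ⟨h, h1, h2, h3, h4⟩ := hA τ hT (rd z)
        obtain ⟨H, -, h5, h6, h7⟩ := hcrit B h h3 (hτ h h1 h2)
        exact hz (greenR h) ⟨h, h1, h2, h3, h4, ⟨H, h5, h6, h7⟩, rfl⟩
    · have hT2 : ∃ H, LegalH H ∧ ConsH τ H ∧ ∃ u v, u ≠ v ∧ (gr H).Reachable u v ∧
          s(u, v) ∉ ask H := by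
        by_contra hcon
        push Not at hcon
        exact hT (fun H h1 h2 u v h3 h4 => hcon H h1 h2 u v h3 h4)
      obtain ⟨H, h1, h2, u, v, h3, h4, h5⟩ := hT2
      obtain ⟨h, h6, h7, h8⟩ := hNT τ H u v h1 h2 h3 h4 h5
      exact hτ h h6 h7 (h8 B)

end EG71
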