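import Pool.Agent.R71.EG.Stms
import Pool.Agent.R71.EG.Basic

namespace EG71

open SimpleGraph

namespace Rigid

/-- every component of a graph of the class `L` is finite -/
theorem comp_finite {G : SimpleGraph ℕ} (hG : L G) (v : ℕ) : (comp G v).Finite := by
  obtain ⟨a, ha⟩ := hG.pow v
  by_contra hc
  have : (comp G v).ncard = 0 := Set.Infinite.ncard hc
  rw [this] at ha
  have h2 : 0 < 2 ^ a := Nat.pow_pos (by norm_num)
  omega

/-- Core lemma: a finite set whose size is a power of two, closed under `H`-adjacency, is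
`H`-connected. -/
theorem core {H : SimpleGraph ℕ} (hH : L H) {K : Set ℕ} (hK : K.Finite) {b : ℕ}
    (hb : K.ncard = 2 ^ b) (hcl : ∀ a ∈ K, ∀ w, H.Adj a w → w ∈ K) {v w : ℕ} (hv : v ∈ K)
    (hw : w ∈ K) : H.Reachable v w := by
  classical
  choose e he using hH.pow
  set Kf := hK.toFinset with hKf
  have hmem : ∀ x, x ∈ Kf ↔ x ∈ K := fun x => by simp [hKf]
  set A := Kf.image e with hA
  have h1 : Kf.card = ∑ a ∈ A, (Kf.filter (fun x => e x = a)).card :=
    Finset.card_eq_sum_card_fiberwise (fun x hx => Finset.mem_coe.2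
      (Finset.mem_image_of_mem e (Finset.mem_coe.1 hx)))
  have h2 : ∀ a ∈ A, (Kf.filter (fun x => e x = a)).card = 2 ^ a := by
    intro a ha
    obtain ⟨x, hx, rfl⟩ := Finset.mem_image.1 ha
    have h3 : ((Kf.filter (fun y => e y = e x) : Finset ℕ) : Set ℕ) = comp H x := by
      ext y
      simp only [Finset.coe_filter, Set.mem_ofPred_eq]
      constructor
      · rintro ⟨-, hy⟩
        refine (hH.dist y x ?_).symm
        rw [he, he, hy]
      · intro hy
        refine ⟨(hmem y).2 (closed_reachable hcl ((hmem x).1 hx) hy), ?_⟩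
        have h4 : comp H x = comp H y := comp_eq_of_reachable hy
        have h5 : 2 ^ e x = 2 ^ e y := by rw [← he, ← he, h4]
        exact (Nat.pow_right_injective (le_refl 2) h5).symm
    rw [← he, ← h3, Set.ncard_coe_finset]
  have h3 : Kf.card = 2 ^ b := by
    rw [← hb, Set.ncard_eq_toFinset_card K hK]
  have h4 : A = {b} := by
    apply Finset.geomSum_injective (le_refl 2)
    simp only [Finset.sum_singleton]
    rw [← h3, h1]
    exact (Finset.sum_congr rfl h2).symm
  have h5 : ∀ x ∈ K, e x = b := by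
    intro x hx
    have : e x ∈ A := Finset.mem_image_of_mem e ((hmem x).2 hx)
    rw [h4] at this
    exact Finset.mem_singleton.1 this
  apply hH.dist
  rw [he, he, h5 v hv, h5 w hw]

/-- a graph of the class `L` containing almost all edges of another one has almost the same
edges -/
theorem subF_symm {H X : SimpleGraph ℕ} (hH : L H) (hX : L X) (h : SubF H X) : SubF X H := by
  set T : Set ℕ := {v | ∃ w, H.Adj v w ∧ ¬ X.Adj v w} with hT
  have hTf : T.Finite := by
    have h1 : T ⊆ ⋃ e ∈ H.edgeSet \ X.edgeSet, {v | v ∈ e} := by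
      rintro v ⟨w, hw⟩
      simp only [Set.mem_iUnion, Set.mem_ofPred_eq]
      exact ⟨s(v, w), ⟨hw.1, hw.2⟩, Sym2.mem_mk_left v w⟩
    refine Set.Finite.subset (Set.Finite.biUnion h ?_) h1
    intro e _
    induction e with
    | _ a b =>
      have : {v | v ∈ s(a, b)} = {a, b} := by ext v; simp
      rw [this]; exact Set.toFinite _
  set U : Set ℕ := ⋃ t ∈ T, comp X t with hU
  have hUf : U.Finite := Set.Finite.biUnion hTf fun t _ => comp_finite hX t
  have key : ∀ a b, X.Adj a b → a ∉ U → H.Adj a b := by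
    intro a b hab haU
    have hnT : ∀ w, X.Reachable a w → w ∉ T := by
      intro w hw hwT
      apply haU
      simp only [hU, Set.mem_iUnion]
      exact ⟨w, hwT, Reachable.symm hw⟩
    have hHX : ∀ w, X.Reachable a w → ∀ w', H.Adj w w' → X.Adj w w' := by
      intro w hw w' hww'
      by_contra hc
      exact hnT w hw ⟨w', hww', hc⟩
    have hcl : ∀ w ∈ comp X a, ∀ w', H.Adj w w' → w' ∈ comp X a := by
      intro w hw w' hww'
      exact Reachable.trans hw (hHX w hw w' hww').reachable
    obtain ⟨c, hc⟩ := hX.pow a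
    have hreach : H.Reachable a b :=
      core hH (comp_finite hX a) hc hcl (self_mem_comp X a) (Adj.reachable hab)
    by_contra hnab
    have hbr := (isAcyclic_iff_forall_adj_isBridge.1 hX.acyc) hab
    rw [isBridge_iff] at hbr
    refine hbr ?_
    have hF : b ∈ {w | X.Reachable a w ∧ (X.deleteEdges {s(a, b)}).Reachable a w} := by
      refine closed_reachable (G := H) ?_ ⟨Reachable.refl a, Reachable.refl a⟩ hreach
      rintro w ⟨hw1, hw2⟩ w' hww'
      have hx := hHX w hw1 w' hww'
      refine ⟨hw1.trans hx.reachable, hw2.trans (Adj.reachable ?_)⟩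
      rw [deleteEdges_adj]
      refine ⟨hx, ?_⟩
      intro h1
      rw [Set.mem_singleton_iff] at h1
      apply hnab
      have : s(w, w') ∈ H.edgeSet := hww'
      rw [h1] at this
      exact this
    exact hF.2
  refine ((hUf.prod hUf).image (fun p : ℕ × ℕ => s(p.1, p.2))).subset ?_
  intro e he
  induction e with
  | _ a b =>
    have h1 : X.Adj a b := he.1
    have h2 : ¬ H.Adj a b := he.2
    have ha : a ∈ U := by
      by_contra hc
      exact h2 (key a b h1 hc)
    have hb : b ∈ U := by
      by_contra hc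
      exact h2 (key b a h1.symm hc).symm
    exact ⟨(a, b), ⟨ha, hb⟩, rfl⟩

end Rigid

theorem rigid : S_RIGID := by
  intro B X hX hS
  rcases hS with ⟨v, hv⟩ | ⟨H, hH, h1, h2⟩ | ⟨H, -, hH, -, h2, u, v, h3, h4⟩
  · exact hv (Rigid.comp_finite hX v)
  · exact h2 (Rigid.subF_symm hH hX h1)
  · obtain ⟨c, hc⟩ := hX.pow u
    refine h4 (Rigid.core hH (Rigid.comp_finite hX u) hc ?_ (self_mem_comp X u) h3)
    intro a ha w haw
    exact Reachable.trans ha (h2 a w haw.reachable)

end EG71
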